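import Pool.Agent.H58.CD.Net

/-! [H58 CD FIRST] The first false literal of a gate.

PROOF. `Net.first` is `((List.finRange K).find? p).map e.symm` with `e = Net.enum ι s` and
`p k = decide (e.symm k ∈ lits g ∧ ev (e.symm k).1 x ≠ (e.symm k).2)`. Use
`List.find?_eq_some_iff_getElem` (or `List.find?_eq_some_iff_append`): `find? p = some k` iff `p k`
and `p` is false at all earlier members of the list; the `i`-th member of `List.finRange K` is `i`.
Then translate `k = e q`, `q' = e.symm k'` for `k' < k`. -/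

set_option autoImplicit false
set_option maxHeartbeats 4000000

namespace Pool.Agent.H58.CD

open Pool.Agent.H58.OVAC Pool.Agent.H58.OVPR

variable {ι Ω : Type} {s T : ℕ} [Fintype ι]

private theorem find_finRange {K : ℕ} (P : Fin K → Bool) (k : Fin K) :
    (List.finRange K).find? P = some k ↔ P k = true ∧ ∀ k' < k, P k' = false := by
  rw [List.find?_eq_some_iff_getElem]
  constructor
  · rintro ⟨h1, i, hi, h2, h3⟩
    refine ⟨h1, fun k' hk' => ?_⟩
    rw [List.getElem_finRange] at h2
    have h4 : (k' : ℕ) < i := by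
      have h5 : (k : ℕ) = i := by
        rw [← h2]
        rfl
      have h6 : (k' : ℕ) < k := hk'
      omega
    have h7 := h3 k' h4
    rw [List.getElem_finRange] at h7
    simpa using h7
  · rintro ⟨h1, h2⟩
    refine ⟨h1, k, by simp, by simp, fun j hj => ?_⟩
    rw [List.getElem_finRange]
    have h3 := h2 (Fin.cast (List.length_finRange) ⟨j, by simp; omega⟩) hj
    simpa using h3

theorem first_eq_some_iff (N : Net ι Ω s T) (g : Fin s) (x : Ω) (q : (ι ⊕ Fin s) × Bool) :
    N.first g x = some q ↔ (q ∈ N.lits g ∧ N.ev q.1 x ≠ q.2) ∧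
      ∀ q' ∈ N.lits g, Net.enum ι s q' < Net.enum ι s q → N.ev q'.1 x = q'.2 := by
  classical
  unfold Net.first
  rw [Option.map_eq_some_iff]
  constructor
  · rintro ⟨k, hk, rfl⟩
    rw [find_finRange] at hk
    obtain ⟨h1, h2⟩ := hk
    refine ⟨of_decide_eq_true h1, fun q' hq' hlt => ?_⟩
    rw [Equiv.apply_symm_apply] at hlt
    have h3 := of_decide_eq_false (h2 _ hlt)
    rw [Equiv.symm_apply_apply] at h3
    by_contra h4
    exact h3 ⟨hq', h4⟩
  · rintro ⟨h1, h2⟩
    refine ⟨Net.enum ι s q, ?_, Equiv.symm_apply_apply _ _⟩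
    rw [find_finRange]
    refine ⟨decide_eq_true ?_, fun k' hk' => decide_eq_false ?_⟩
    · rw [Equiv.symm_apply_apply]
      exact h1
    · rintro ⟨h3, h4⟩
      exact h4 (h2 _ h3 (by rw [Equiv.apply_symm_apply]; exact hk'))

end Pool.Agent.H58.CD
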