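import Pool.Agent.H58.CD.Net
import Pool.Agent.H58.OVAC.Embed

/-! [H58 CD EMB] Restriction of a circuit to the coded inputs.

The input `x : Input n d` is the image of `y : Co n D → Fin k` under the coding `OVAC.emb`: the first
`2 l` bits of every vector are fixed bits, the next `D k` bits are the indicators
`decide (y (p, blk) = a)`, the others are `false`.
PROOF. Every input bit `(p, c)` is, as a function of `y`, one of: a constant `b₀` (for `c < 2 l`,
`b₀ = if p.1 = false then (if c < l then code p.2 c else false) else (...)`, and for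
`c ≥ 2 l + D k`, `b₀ = false`), or `decide (y (p, blk) = a)` with
`(blk, a) = finProdFinEquiv.symm ⟨c - 2 l, _⟩` (`OVAC.emb` unfolded, with three `dif`s). Let
`N.inp none y = false`, `N.inp (some (q, a)) y = decide (y q = a)`; both are `DepOne`. Translate
literals: `τ (inl (p, c), b) = (inl none, b₀ ^^ b)` for constant bits (`false = (b₀ ^^ b)` iff
`b₀ = b`), `τ (inl (p, c), b) = (inl (some ((p, blk), a)), b)` for the others,
`τ (inr h, b) = (inr h, b)`. Let `N.lits g = (C.lits g).image τ` (classical DecidableEq),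
`N.layer = C.layer`, `N.val g y = C.val g (x y)`. `lower`: a literal with first component `inr h` comes
from the same literal. `val_iff`: `Finset.forall_mem_image` and `C.val_iff`. -/

set_option autoImplicit false
set_option maxHeartbeats 4000000

namespace Pool.Agent.H58.CD

open Pool.Agent.H58.OVAC Pool.Agent.H58.OVPR

/-- The input coded by `y`. -/
def code₁ {n d D k l : ℕ} (code : Fin n → Fin l → Bool) (y : Co n D → Fin k) : OVAC.Input n d :=
  fun p => OVAC.emb d code p fun c => y (p, c)

private def inpf {n D k : ℕ} (i : Option (Co n D × Fin k)) (y : Co n D → Fin k) : Bool :=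
  match i with
  | none => false
  | some (q, a) => decide (y q = a)

private theorem key {n d D k l : ℕ} (code : Fin n → Fin l → Bool) (q : OVAC.Pos n × Fin d) :
    ∃ (α : Option (Co n D × Fin k)) (β : Bool), ∀ y : Co n D → Fin k,
      code₁ (d := d) code y q.1 q.2 = (β ^^ inpf α y) := by
  obtain ⟨p, x⟩ := q
  unfold code₁ OVAC.emb
  by_cases h1 : x.1 < l
  · refine ⟨none, if p.1 = false then code p.2 ⟨x.1, h1⟩ else false, fun y => ?_⟩
    simp only [h1, dif_pos, inpf, Bool.xor_false]
  · by_cases h2 : x.1 < 2 * l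
    · refine ⟨none, if p.1 = false then false else code p.2 ⟨x.1 - l, by omega⟩, fun y => ?_⟩
      simp only [h1, h2, dif_pos, dif_neg, not_false_iff, inpf, Bool.xor_false]
    · by_cases h3 : x.1 < 2 * l + D * k
      · refine ⟨some ((p, (finProdFinEquiv.symm (⟨x.1 - 2 * l, by omega⟩ : Fin (D * k))).1),
          (finProdFinEquiv.symm (⟨x.1 - 2 * l, by omega⟩ : Fin (D * k))).2), false, fun y => ?_⟩
        simp only [h1, h2, h3, dif_pos, dif_neg, not_false_iff, inpf, Bool.false_xor]
      · refine ⟨none, false, fun y => ?_⟩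
        simp only [h1, h2, h3, dif_neg, not_false_iff, inpf, Bool.xor_false]

theorem embed_net {n d D k l s T : ℕ} (code : Fin n → Fin l → Bool)
    (C : Net (OVAC.Pos n × Fin d) (OVAC.Input n d) s T) (hC : ∀ q x, C.inp q x = x q.1 q.2) :
    ∃ N : Net (Option (Co n D × Fin k)) (Co n D → Fin k) s T,
      (∀ i, DepOne (N.inp i)) ∧ ∀ g y, N.val g y = C.val g (code₁ code y) := by
  classical
  choose α β hαβ using key (n := n) (d := d) (D := D) (k := k) (l := l) code
  obtain ⟨τ, hτ⟩ : ∃ τ : ((OVAC.Pos n × Fin d) ⊕ Fin s) × Bool → (Option (Co n D × Fin k) ⊕ Fin s) × Bool,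
      ∀ q, τ q = Sum.elim (fun z => ((Sum.inl (α z) : Option (Co n D × Fin k) ⊕ Fin s), (β z ^^ q.2)))
        (fun h => (Sum.inr h, q.2)) q.1 := ⟨_, fun _ => rfl⟩
  refine ⟨⟨inpf, fun g => (C.lits g).image τ, C.layer, ?_, fun g y => C.val g (code₁ code y), ?_⟩, ?_, ?_⟩
  · intro g q hq h hqh
    obtain ⟨q', hq', rfl⟩ := Finset.mem_image.1 hq
    refine C.lower g q' hq' h ?_
    obtain ⟨z, b⟩ := q'
    rw [hτ] at hqh
    rcases z with z | z
    · simp at hqh
    · simpa using hqh
  · intro g y
    rw [C.val_iff]
    rw [Finset.forall_mem_image]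
    refine forall_congr' fun q => forall_congr' fun _ => ?_
    obtain ⟨z, b⟩ := q
    rw [hτ]
    rcases z with z | z
    · show C.inp z (code₁ code y) = b ↔ inpf (α z) y = (β z ^^ b)
      rw [hC, hαβ z y]
      cases β z <;> cases inpf (α z) y <;> cases b <;> simp
    · rfl
  · intro i
    cases i with
    | none => exact ⟨∅, by simp, fun _ _ _ => rfl⟩
    | some z =>
      obtain ⟨q, a⟩ := z
      refine ⟨{q}, by simp, fun x y h => ?_⟩
      show decide (x q = a) = decide (y q = a)
      rw [h q (Finset.mem_singleton_self q)]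
  · intro g y
    rfl

end Pool.Agent.H58.CD
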