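import Pool.Agent.H58.CD.Run

/-! [H58 CD MENU] Sensitivity on random menus, and influences.

PROOF. `sens_pick` is the first half of the proof of `OVPR.infl_tail` (there it is the claim `h1`,
for an arbitrary function `u` with a bound `δ` for all `y, y'`): average over `σ : V → Bool` and use
`av_mix₂ (Finset.univ.filter fun p => σ p = true)` and `sens_mix` to move the point `σ` to `0`.
`net_pick`, `net_infl`: for every `y, y'` the net `N.comp (pick y y')` over `V → Bool` has inputs
which depend on one coordinate (`DepOne.pick` and `OVT.dt_of_isJunta_one`), and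
`(N.comp ρ).first g σ = N.first g (ρ σ)` by `rfl` (unfold); so `net_tail` bounds
`pr (S < sens (fun ρ => N.first g (pick y y' ρ)) σ)` by `δ`; then `sens_pick` resp.
`OVPR.infl_tail`. The empty alphabet is excluded by `Nonempty X`. -/

set_option autoImplicit false
set_option maxHeartbeats 4000000

namespace Pool.Agent.H58.CD

open Pool.Agent.H58.OVAC Pool.Agent.H58.OVPR

open Pool.Agent.H58.OVT

theorem sens_pick {V X Y : Type} [Fintype V] [DecidableEq V] [Fintype X] [Nonempty X]
    (u : (V → X) → Y) (S : ℕ) {δ : ℝ}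
    (h : ∀ y y' : V → X, pr (fun σ : V → Bool => S < sens (fun ρ => u (pick y y' ρ)) σ) ≤ δ) :
    (av fun y : V → X => pr fun y' : V → X =>
      S < sens (fun ρ => u (pick y y' ρ)) (fun _ => false)) ≤ δ := by
  classical
  have h2 : ∀ σ : V → Bool, (av fun a : V → X => pr fun b : V → X =>
      S < sens (fun ρ => u (pick a b ρ)) (fun _ => false)) =
      av fun a : V → X => pr fun b : V → X => S < sens (fun ρ => u (pick b a ρ)) σ := by
    intro σ
    have h3 := av_mix₂ (Finset.univ.filter fun p => σ p = true)
      (fun a b : V → X => if S < sens (fun ρ => u (pick a b ρ)) (fun _ => false)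
        then (1 : ℝ) else 0)
    unfold pr
    refine (Eq.trans ?_ h3.symm).trans ?_
    · exact av_congr fun a => av_congr fun b => by congr
    · refine av_congr fun a => av_congr fun b => ?_
      rw [sens_mix]
      congr
  have h4 : (av fun a : V → X => pr fun b : V → X =>
      S < sens (fun ρ => u (pick a b ρ)) (fun _ => false)) =
      av fun a : V → X => av fun b : V → X => pr fun σ : V → Bool =>
        S < sens (fun ρ => u (pick b a ρ)) σ := by
    calc _ = av fun _ : V → Bool => (av fun a : V → X => pr fun b : V → X =>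
            S < sens (fun ρ => u (pick a b ρ)) (fun _ => false)) := (av_const _).symm
      _ = av fun σ : V → Bool => av fun a : V → X => pr fun b : V → X =>
            S < sens (fun ρ => u (pick b a ρ)) σ := av_congr h2
      _ = _ := by
          rw [av_comm]
          refine av_congr fun a => ?_
          unfold pr
          rw [av_comm]
  rw [h4]
  exact av_le fun a => av_le fun b => h b a

/-- The bound for the tail of the sensitivity. -/
noncomputable def tailB (T s₁ G : ℕ) : ℝ := T * (32 * s₁ : ℝ) ^ T * G / 2 ^ s₁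

private theorem net_pick_aux {ι V X : Type} [Fintype ι] [Fintype V] [DecidableEq V]
    {s T : ℕ} (N : Net ι (V → X) s T) (hin : ∀ i, DepOne (N.inp i)) {s₁ G : ℕ} (hs₁ : 1 ≤ s₁)
    (hG : s * (2 * (Fintype.card ι + s)) + (Fintype.card ι + s) ≤ G) (g : Fin s)
    (y y' : V → X) : pr (fun σ : V → Bool => 2 * s₁ * (32 * s₁) ^ T <
      sens (fun ρ => N.first g (pick y y' ρ)) σ) ≤ tailB T s₁ G := by
  have h := net_tail (N.comp (pick y y'))
    (fun i => dt_of_isJunta_one ((hin i).pick y y')) hs₁ hG g
  exact h

theorem net_pick {ι V X : Type} [Fintype ι] [Fintype V] [DecidableEq V] [Fintype X] [Nonempty X]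
    {s T : ℕ} (N : Net ι (V → X) s T) (hin : ∀ i, DepOne (N.inp i)) {s₁ G : ℕ} (hs₁ : 1 ≤ s₁)
    (hG : s * (2 * (Fintype.card ι + s)) + (Fintype.card ι + s) ≤ G) (g : Fin s) :
    (av fun y : V → X => pr fun y' : V → X => 2 * s₁ * (32 * s₁) ^ T <
      sens (fun ρ => N.first g (pick y y' ρ)) (fun _ => false)) ≤ tailB T s₁ G := by
  exact sens_pick _ _ (net_pick_aux N hin hs₁ hG g)

theorem net_infl {ι V X : Type} [Fintype ι] [Fintype V] [DecidableEq V] [Fintype X] [Nonempty X]
    {s T : ℕ} (N : Net ι (V → X) s T) (hin : ∀ i, DepOne (N.inp i)) {s₁ G : ℕ} (hs₁ : 1 ≤ s₁)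
    (hG : s * (2 * (Fintype.card ι + s)) + (Fintype.card ι + s) ≤ G) (g : Fin s) :
    pr (fun y : V → X => ((2 * s₁ * (32 * s₁) ^ T : ℕ) : ℝ) + 1 < infl (N.first g) y) ≤
      (Fintype.card V : ℝ) * tailB T s₁ G := by
  exact infl_tail _ _ (net_pick_aux N hin hs₁ hG g)

end Pool.Agent.H58.CD
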