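import Pool.Agent.H58.CD.Net
import Pool.Agent.H58.OVPR.Main

/-! [H58 CD INTERP] The planted law against the product law, for unions of rectangles with small
influences.

PROOF. Write `q = k`. Work on `Z = Fin D → Fin k × Fin k` (pairs of strings; `u = fun l => (z l).1`,
`v = fun l => (z l).2`) with the uniform average `av`, and for real `τ` the density
`ρ τ (a, b) = if a = b then τ else (q - τ)/(q - 1)`. Put `w z = if W u v then 1 else 0` and
`F τ = av fun z => w z * ∏ l, ρ τ (z l)`.
(1) `F 1 = av_u pr_v W` (`ρ 1 = 1`) and `F 0 = avR 1_W` (`ρ 0 (a,b) = if a = b then 0 else q/(q-1)`,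
so the product is `(q/(q-1))^D` if `Off u v` and `0` otherwise; `card Z = (q^2)^D`). The bijection
`(Fin D → Fin k × Fin k) ≃ (Fin D → Fin k) × (Fin D → Fin k)` is `Equiv.arrowProdEquivProdArrow`;
use `av_equiv`, `av_prod`.
(2) `F` has the derivative `F' τ = ∑ l, av fun z => w z * (ρ' (z l) * ∏ l' ≠ l, ρ τ (z l'))` with
`ρ' (a,b) = if a = b then 1 else -1/(q-1)` (`HasDerivAt.finset_prod`, `HasDerivAt.sum`).
(3) Fix `l` and `0 < τ < 1`. By `av_update l` (for the alphabet `Fin k × Fin k`):
`av fun z => w z * (ρ' (z l) * R z) = av fun z => R z * av fun c => w (update z l c) * ρ' c`, with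
`R z = ∏ l' ≠ l, ρ τ (z l')` (it does not depend on `z l`). Let `P = pr_c W(z with (c,c) at l)`
and `Q = (1/(q(q-1))) ∑_{a ≠ b} w (update z l (a,b))`, both in `[0,1]`. Then
`av_c w (update z l c) * ρ' c = (1/q) (P - Q) ≥ -(1/q) (1-P) Q`, and
`(1-P) Q ≤ 2 av_(a,b) ρ τ (a,b) * w (update z l (a,b)) * (1-P)`, because for `a ≠ b`
`q²/(q(q-1)) = q/(q-1) ≤ 2 (q-τ)/(q-1)` iff `q ≤ 2(q - τ)`, true for `q ≥ 2`, `τ ≤ 1`. With
`1 - P = pr_c ¬W` and `update (update z l (a,b)) l (c,c) = update z l (c,c)`, by `av_update` again: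
the `l`-th summand of `F' τ` is at least
`-(2/q) av fun z => (∏ l', ρ τ (z l')) * w z * pr_c ¬W(update u l c, update v l c)`.
(4) Sum over `l` and use `h`: `F' τ ≥ -(2/q) av fun z => (∏ ρ) * (MA u + MB v)`, and
`av fun z => (∏ ρ) * MA u = av MA` because for fixed `u` the average over `v` of
`∏ l, ρ τ (u l, v l)` is `∏ l, av_b ρ τ (u l, b) = 1` (`Finset.prod_univ_sum` or
`Fintype.piFinset`; `av_b ρ τ (a,b) = (τ + (q-1) (q-τ)/(q-1))/q = 1`). The same for `MB`.
(5) `F 1 - F 0 = F' τ` for some `0 < τ < 1` (`exists_hasDerivAt_eq_slope`). -/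

set_option autoImplicit false
set_option maxHeartbeats 4000000

namespace Pool.Agent.H58.CD

open Pool.Agent.H58.OVAC Pool.Agent.H58.OVPR

private theorem it_upd {V X : Type} [Fintype V] [DecidableEq V] [Fintype X] [Nonempty X] (l : V)
    (G : (V → X) → (V → X) → ℝ) :
    (av fun u : V → X => av fun v : V → X => av fun a : X => av fun b : X =>
      G (Function.update u l a) (Function.update v l b)) = av fun u => av fun v => G u v := by
  have h1 : ∀ u : V → X, (av fun v : V → X => av fun a : X => av fun b : X =>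
      G (Function.update u l a) (Function.update v l b)) =
      av fun a : X => av fun v : V → X => G (Function.update u l a) v := by
    intro u
    rw [av_comm (fun (v : V → X) (a : X) => av fun b : X =>
      G (Function.update u l a) (Function.update v l b))]
    exact av_congr fun a => av_update l (G (Function.update u l a))
  rw [av_congr h1]
  exact av_update l fun u => av fun v => G u v

private theorem it_prod {X : Type} [Fintype X] {D : ℕ} (f : Fin D → X → ℝ) :
    (av fun v : Fin D → X => ∏ l, f l (v l)) = ∏ l, av (f l) := by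
  unfold av
  rw [Finset.prod_div_distrib, Finset.prod_univ_sum, Fintype.piFinset_univ]
  congr 1
  simp

private theorem it_deriv {Ω : Type} [Fintype Ω] {f : ℝ → Ω → ℝ} {f' : Ω → ℝ} {x : ℝ}
    (h : ∀ ω, HasDerivAt (fun τ => f τ ω) (f' ω) x) :
    HasDerivAt (fun τ => av (f τ)) (av f') x := by
  unfold av
  exact (HasDerivAt.fun_sum fun ω _ => h ω).div_const _

/-- the density -/
private noncomputable def rho (k : ℕ) (τ : ℝ) (a b : Fin k) : ℝ :=
  if a = b then τ else ((k : ℝ) - τ) / ((k : ℝ) - 1)

/-- its derivative -/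
private noncomputable def rhd (k : ℕ) (a b : Fin k) : ℝ :=
  if a = b then 1 else -(1 / ((k : ℝ) - 1))

private theorem rho_deriv (k : ℕ) (τ : ℝ) (a b : Fin k) :
    HasDerivAt (fun t => rho k t a b) (rhd k a b) τ := by
  unfold rho rhd
  by_cases h : a = b
  · simp only [if_pos h]
    exact hasDerivAt_id τ
  · simp only [if_neg h]
    have h1 := ((hasDerivAt_const τ (k : ℝ)).sub (hasDerivAt_id τ)).div_const ((k : ℝ) - 1)
    have e : -(1 / ((k : ℝ) - 1)) = (0 - 1) / ((k : ℝ) - 1) := by ring
    rw [e]
    exact h1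

private theorem rho_nonneg {k : ℕ} (hk : 2 ≤ k) {τ : ℝ} (h0 : 0 ≤ τ) (h1 : τ ≤ 1)
    (a b : Fin k) : 0 ≤ rho k τ a b := by
  have hk' : (2 : ℝ) ≤ k := by exact_mod_cast hk
  unfold rho
  split_ifs
  · exact h0
  · exact div_nonneg (by linarith) (by linarith)

private theorem rho_symm (k : ℕ) (τ : ℝ) (a b : Fin k) : rho k τ a b = rho k τ b a := by
  unfold rho
  simp only [eq_comm]

private theorem it_split {k : ℕ} (x y : ℝ) (w : Fin k → Fin k → ℝ) :
    (∑ a, ∑ b, (if a = b then x else y) * w a b) =
      x * (∑ a, w a a) + y * ∑ a, ∑ b, if a = b then 0 else w a b := by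
  rw [Finset.mul_sum, Finset.mul_sum, ← Finset.sum_add_distrib]
  refine Finset.sum_congr rfl fun a _ => ?_
  have h1 : ∀ b, (if a = b then x else y) * w a b =
      (if a = b then x * w a a else 0) + y * (if a = b then 0 else w a b) := by
    intro b
    by_cases h : a = b
    · subst h
      simp
    · simp [h]
  rw [Finset.sum_congr rfl fun b _ => h1 b, Finset.sum_add_distrib, ← Finset.mul_sum]
  simp

private theorem rho_av {k : ℕ} (hk : 2 ≤ k) (τ : ℝ) (a : Fin k) :
    (av fun b : Fin k => rho k τ a b) = 1 := by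
  have hk' : (2 : ℝ) ≤ k := by exact_mod_cast hk
  unfold av rho
  rw [Finset.sum_ite, Finset.sum_const, Finset.sum_const, Fintype.card_fin]
  have e1 : (Finset.univ.filter fun b : Fin k => a = b) = {a} := by
    ext b
    simp [eq_comm]
  have e2 : (Finset.univ.filter fun b : Fin k => ¬ a = b) = Finset.univ.erase a := by
    ext b
    simp [eq_comm]
  rw [e1, e2, Finset.card_singleton, Finset.card_erase_of_mem (Finset.mem_univ a),
    Finset.card_univ, Fintype.card_fin, nsmul_eq_mul, nsmul_eq_mul, Nat.cast_sub (by omega)]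
  have h1 : (k : ℝ) - 1 ≠ 0 := by linarith
  have h2 : (k : ℝ) ≠ 0 := by linarith
  push_cast
  field_simp
  ring

private theorem it_pt {k : ℕ} (hk : 2 ≤ k) {τ : ℝ} (h0 : 0 < τ) (h1 : τ < 1)
    (w : Fin k → Fin k → ℝ) (hw0 : ∀ a b, 0 ≤ w a b) (hw1 : ∀ a b, w a b ≤ 1) :
    -(2 / k) * (av fun a => av fun b => rho k τ a b * w a b * (1 - av fun c => w c c)) ≤
      av fun a => av fun b => w a b * rhd k a b := by
  have hk' : (2 : ℝ) ≤ k := by exact_mod_cast hk
  have hq1 : 0 < (k : ℝ) - 1 := by linarith
  have hq0 : 0 < (k : ℝ) := by linarith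
  obtain ⟨S1, hS1⟩ : ∃ S1, S1 = ∑ a, w a a := ⟨_, rfl⟩
  obtain ⟨S2, hS2⟩ : ∃ S2, S2 = ∑ a, ∑ b, if a = b then 0 else w a b := ⟨_, rfl⟩
  have e1 : (av fun c => w c c) = S1 / k := by
    unfold av
    rw [← hS1, Fintype.card_fin]
  have e2 : (av fun a => av fun b => rho k τ a b * w a b) =
      (τ * S1 + (k - τ) / (k - 1) * S2) / k / k := by
    unfold av rho
    rw [← Finset.sum_div, it_split, Fintype.card_fin, ← hS1, ← hS2]
  have e3 : (av fun a => av fun b => w a b * rhd k a b) =
      (1 * S1 + (-(1 / (k - 1))) * S2) / k / k := by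
    unfold av rhd
    have : ∀ a b : Fin k, w a b * (if a = b then 1 else -(1 / ((k : ℝ) - 1))) =
      (if a = b then 1 else -(1 / ((k : ℝ) - 1))) * w a b := fun a b => mul_comm _ _
    simp only [this]
    rw [← Finset.sum_div, it_split, Fintype.card_fin, ← hS1, ← hS2]
  have e4 : (av fun a => av fun b => rho k τ a b * w a b * (1 - av fun c => w c c)) =
      (av fun a => av fun b => rho k τ a b * w a b) * (1 - S1 / k) := by
    rw [e1, ← av_mul_right]
    exact av_congr fun a => av_mul_right _ _
  have hS10 : 0 ≤ S1 := by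
    rw [hS1]
    exact Finset.sum_nonneg fun a _ => hw0 a a
  have hS11 : S1 ≤ k := by
    rw [hS1]
    calc ∑ a, w a a ≤ ∑ a : Fin k, (1 : ℝ) := Finset.sum_le_sum fun a _ => hw1 a a
      _ = k := by simp
  have hS20 : 0 ≤ S2 := by
    rw [hS2]
    refine Finset.sum_nonneg fun a _ => Finset.sum_nonneg fun b _ => ?_
    split_ifs
    · exact le_refl _
    · exact hw0 a b
  have hS21 : S2 ≤ k * (k - 1) := by
    rw [hS2]
    calc _ ≤ ∑ a : Fin k, ((k : ℝ) - 1) := by
          refine Finset.sum_le_sum fun a _ => ?_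
          calc (∑ b, if a = b then 0 else w a b) ≤ ∑ b : Fin k, if a = b then (0 : ℝ) else 1 := by
                refine Finset.sum_le_sum fun b _ => ?_
                split_ifs
                · exact le_refl _
                · exact hw1 a b
            _ = (k : ℝ) - 1 := by
                have h3 : ∀ b : Fin k, (if a = b then (0 : ℝ) else 1) =
                    1 - if a = b then 1 else 0 := by
                  intro b
                  split_ifs <;> norm_num
                rw [Finset.sum_congr rfl fun b _ => h3 b, Finset.sum_sub_distrib]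
                simp
      _ = k * (k - 1) := by
          rw [Finset.sum_const, Finset.card_univ, Fintype.card_fin, nsmul_eq_mul]
  rw [e4, e2, e3]
  obtain ⟨P, hP⟩ : ∃ P, P = S1 / k := ⟨_, rfl⟩
  obtain ⟨Q, hQ⟩ : ∃ Q, Q = S2 / (k * (k - 1)) := ⟨_, rfl⟩
  have f1 : S1 = k * P := by
    rw [hP]
    field_simp
  have f2 : S2 = k * (k - 1) * Q := by
    rw [hQ]
    field_simp
  have hP0 : 0 ≤ P := by
    rw [hP]
    positivity
  have hP1 : P ≤ 1 := by
    rw [hP, div_le_one hq0]
    exact hS11
  have hQ0 : 0 ≤ Q := by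
    rw [hQ]
    positivity
  have hQ1 : Q ≤ 1 := by
    rw [hQ, div_le_one (by positivity)]
    exact hS21
  have g1 : (τ * S1 + (k - τ) / (k - 1) * S2) / k / k = (τ * P + (k - τ) * Q) / k := by
    rw [f1, f2]
    field_simp
  have g2 : (1 * S1 + (-(1 / (k - 1))) * S2) / k / k = (P - Q) / k := by
    rw [f1, f2]
    field_simp
    ring
  rw [g1, g2, ← hP]
  have g3 : -(2 / k) * ((τ * P + (k - τ) * Q) / k * (1 - P)) =
      (-(2 * (τ * P + (k - τ) * Q) * (1 - P)) / k) / k := by
    field_simp
  rw [g3]
  refine div_le_div_of_nonneg_right ?_ hq0.le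
  rw [div_le_iff₀ hq0]
  have i1 : 0 ≤ τ * P * (1 - P) := by
    have : 0 ≤ 1 - P := by linarith
    positivity
  have i2 : 0 ≤ (k - 2 * τ) * (Q * (1 - P)) := by
    have h5 : 0 ≤ 1 - P := by linarith
    have h6 : 0 ≤ (k : ℝ) - 2 * τ := by linarith
    positivity
  have i3 : 0 ≤ k * (P * (1 - Q)) := by
    have h5 : 0 ≤ 1 - Q := by linarith
    positivity
  nlinarith

open Classical in
theorem interp {k D : ℕ} (hk : 2 ≤ k) (W : Str k D → Str k D → Prop) (MA MB : Str k D → ℝ)
    (hA : ∀ u, 0 ≤ MA u) (hB : ∀ v, 0 ≤ MB v)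
    (h : ∀ u v, W u v → ∑ l : Fin D, (pr fun c : Fin k =>
      ¬ W (Function.update u l c) (Function.update v l c)) ≤ MA u + MB v) :
    avR (fun u v => if W u v then (1 : ℝ) else 0) ≤
      (av fun u : Str k D => pr fun v : Str k D => W u v) + 2 / k * (av MA + av MB) := by
  have hk' : (2 : ℝ) ≤ k := by exact_mod_cast hk
  have hq1 : 0 < (k : ℝ) - 1 := by linarith
  have hq0 : 0 < (k : ℝ) := by linarith
  have hne : Nonempty (Fin k) := ⟨⟨0, by omega⟩⟩
  obtain ⟨w, hw⟩ : ∃ w : Str k D → Str k D → ℝ, w = fun u v => if W u v then (1 : ℝ) else 0 :=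
    ⟨_, rfl⟩
  have hw0 : ∀ u v, 0 ≤ w u v := by
    intro u v
    rw [hw]
    show 0 ≤ if W u v then (1 : ℝ) else 0
    split_ifs <;> norm_num
  have hw1 : ∀ u v, w u v ≤ 1 := by
    intro u v
    rw [hw]
    show (if W u v then (1 : ℝ) else 0) ≤ 1
    split_ifs <;> norm_num
  obtain ⟨R, hR⟩ : ∃ R : ℝ → Str k D → Str k D → ℝ, R = fun τ u v => ∏ l, rho k τ (u l) (v l) :=
    ⟨_, rfl⟩
  obtain ⟨Rl, hRl⟩ : ∃ Rl : ℝ → Fin D → Str k D → Str k D → ℝ,
      Rl = fun τ l u v => ∏ l' ∈ Finset.univ.erase l, rho k τ (u l') (v l') := ⟨_, rfl⟩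
  have hRRl : ∀ τ l u v, R τ u v = Rl τ l u v * rho k τ (u l) (v l) := by
    intro τ l u v
    rw [hR, hRl]
    exact (Finset.prod_erase_mul _ _ (Finset.mem_univ l)).symm
  have hRlu : ∀ τ l u v (a b : Fin k),
      Rl τ l (Function.update u l a) (Function.update v l b) = Rl τ l u v := by
    intro τ l u v a b
    rw [hRl]
    refine Finset.prod_congr rfl fun l' hl' => ?_
    have h2 := Finset.ne_of_mem_erase hl'
    rw [Function.update_of_ne h2, Function.update_of_ne h2]
  obtain ⟨N, hN⟩ : ∃ N : Fin D → Str k D → Str k D → ℝ, N = fun l u v =>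
      1 - av fun c : Fin k => w (Function.update u l c) (Function.update v l c) := ⟨_, rfl⟩
  have hNpr : ∀ l u v, N l u v =
      pr fun c : Fin k => ¬ W (Function.update u l c) (Function.update v l c) := by
    intro l u v
    rw [pr_not, hN, hw]
    rfl
  have hNu : ∀ l u v (a b : Fin k),
      N l (Function.update u l a) (Function.update v l b) = N l u v := by
    intro l u v a b
    rw [hN]
    simp only [Function.update_idem]
  -- the function and its derivative
  obtain ⟨F, hF⟩ : ∃ F : ℝ → ℝ, F = fun τ => av fun u => av fun v => w u v * R τ u v := ⟨_, rfl⟩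
  obtain ⟨F', hF'⟩ : ∃ F' : ℝ → ℝ, F' = fun τ => av fun u => av fun v =>
      w u v * ∑ l, Rl τ l u v * rhd k (u l) (v l) := ⟨_, rfl⟩
  have hder : ∀ τ, HasDerivAt F (F' τ) τ := by
    intro τ
    rw [hF, hF']
    refine it_deriv fun u => it_deriv fun v => ?_
    refine HasDerivAt.const_mul _ ?_
    rw [hR, hRl]
    exact HasDerivAt.fun_finsetProd fun l _ => rho_deriv k τ (u l) (v l)
  have hF1 : F 1 = av fun u : Str k D => pr fun v : Str k D => W u v := by
    rw [hF, hR, hw]
    refine av_congr fun u => av_congr fun v => ?_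
    have h2 : ∀ a b : Fin k, rho k 1 a b = 1 := by
      intro a b
      unfold rho
      split_ifs
      · rfl
      · exact div_self hq1.ne'
    simp only [h2, Finset.prod_const_one, mul_one]
  have hF0 : F 0 = avR (fun u v => if W u v then (1 : ℝ) else 0) := by
    rw [hF, hR, ← hw]
    unfold avR
    have h2 : ∀ u v : Str k D, w u v * ∏ l, rho k 0 (u l) (v l) =
        (if Off u v then w u v else 0) * ((k : ℝ) / (k - 1)) ^ D := by
      intro u v
      by_cases h3 : Off u v
      · rw [if_pos h3]
        congr 1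
        have h4 : ∀ l, rho k 0 (u l) (v l) = (k : ℝ) / (k - 1) := by
          intro l
          unfold rho
          rw [if_neg (h3 l), sub_zero]
        rw [Finset.prod_congr rfl fun l _ => h4 l, Finset.prod_const, Finset.card_univ,
          Fintype.card_fin]
      · rw [if_neg h3, zero_mul]
        have h4 : ∃ l, u l = v l := by
          by_contra h5
          push Not at h5
          exact h3 h5
        obtain ⟨l, hl⟩ := h4
        rw [Finset.prod_eq_zero (Finset.mem_univ l), mul_zero]
        unfold rho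
        rw [if_pos hl]
    have h3 : (av fun u => av fun v => w u v * ∏ l, rho k 0 (u l) (v l)) =
        (av fun u => av fun v => (if Off u v then w u v else 0)) * ((k : ℝ) / (k - 1)) ^ D := by
      rw [← av_mul_right]
      refine av_congr fun u => ?_
      rw [← av_mul_right]
      exact av_congr fun v => h2 u v
    refine h3.trans ?_
    unfold av
    rw [← Finset.sum_div]
    have h4 : ((Fintype.card (Str k D) : ℕ) : ℝ) = (k : ℝ) ^ D := by
      simp [Fintype.card_fin]
    rw [h4, mul_pow, div_pow]
    have h5 : (k : ℝ) ^ D ≠ 0 := pow_ne_zero _ hq0.ne'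
    have h6 : ((k : ℝ) - 1) ^ D ≠ 0 := pow_ne_zero _ hq1.ne'
    field_simp
  -- the bound for the derivative
  have hRnn : ∀ τ, 0 ≤ τ → τ ≤ 1 → ∀ u v, 0 ≤ R τ u v := by
    intro τ h2 h3 u v
    rw [hR]
    exact Finset.prod_nonneg fun l _ => rho_nonneg hk h2 h3 _ _
  have hRlnn : ∀ τ, 0 ≤ τ → τ ≤ 1 → ∀ l u v, 0 ≤ Rl τ l u v := by
    intro τ h2 h3 l u v
    rw [hRl]
    exact Finset.prod_nonneg fun l _ => rho_nonneg hk h2 h3 _ _
  have hRv : ∀ τ u, (av fun v => R τ u v) = 1 := by
    intro τ u
    rw [hR]
    have h2 := it_prod (fun (l : Fin D) (b : Fin k) => rho k τ (u l) b)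
    refine h2.trans ?_
    rw [Finset.prod_congr rfl fun l _ => rho_av hk τ (u l), Finset.prod_const_one]
  have hRu : ∀ τ v, (av fun u => R τ u v) = 1 := by
    intro τ v
    rw [← hRv τ v]
    refine av_congr fun u => ?_
    rw [hR]
    exact Finset.prod_congr rfl fun l _ => rho_symm k τ _ _
  have hbd : ∀ τ, 0 < τ → τ < 1 → -(2 / k) * (av MA + av MB) ≤ F' τ := by
    intro τ h0 h1
    have hl : ∀ l : Fin D, -(2 / k) * (av fun u => av fun v => R τ u v * w u v * N l u v) ≤
        av fun u => av fun v => w u v * (Rl τ l u v * rhd k (u l) (v l)) := by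
      intro l
      rw [← it_upd l fun u v => R τ u v * w u v * N l u v,
        ← it_upd l fun u v => w u v * (Rl τ l u v * rhd k (u l) (v l)), ← av_mul_left]
      refine av_mono fun u => ?_
      rw [← av_mul_left]
      refine av_mono fun v => ?_
      have h2 := it_pt hk h0 h1
        (fun a b => w (Function.update u l a) (Function.update v l b))
        (fun a b => hw0 _ _) (fun a b => hw1 _ _)
      have h3 := mul_le_mul_of_nonneg_left h2 (hRlnn τ h0.le h1.le l u v)
      calc -(2 / k) * (av fun a => av fun b =>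
            R τ (Function.update u l a) (Function.update v l b) *
            w (Function.update u l a) (Function.update v l b) *
            N l (Function.update u l a) (Function.update v l b)) =
          Rl τ l u v * (-(2 / k) * (av fun a => av fun b => rho k τ a b *
            w (Function.update u l a) (Function.update v l b) *
            (1 - av fun c => w (Function.update u l c) (Function.update v l c)))) := by
            rw [mul_left_comm]
            congr 1
            rw [← av_mul_left]
            refine av_congr fun a => ?_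
            rw [← av_mul_left]
            refine av_congr fun b => ?_
            rw [hNu, hRRl τ l, hRlu, Function.update_self, Function.update_self, hN]
            ring
        _ ≤ _ := h3
        _ = _ := by
            rw [← av_mul_left]
            refine av_congr fun a => ?_
            rw [← av_mul_left]
            refine av_congr fun b => ?_
            rw [hRlu, Function.update_self, Function.update_self]
            ring
    have h2 : F' τ = ∑ l, av fun u => av fun v => w u v * (Rl τ l u v * rhd k (u l) (v l)) := by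
      rw [hF', ← av_sum]
      refine av_congr fun u => ?_
      rw [← av_sum]
      refine av_congr fun v => ?_
      rw [Finset.mul_sum]
    rw [h2]
    refine le_trans ?_ (Finset.sum_le_sum fun l _ => hl l)
    rw [← Finset.mul_sum, ← av_sum]
    have h3 : (av fun u => ∑ l, av fun v => R τ u v * w u v * N l u v) ≤ av MA + av MB := by
      have h4 : av MA + av MB = av fun u => av fun v => R τ u v * (MA u + MB v) := by
        have h5 : ∀ u : Str k D, (av fun v => R τ u v * (MA u + MB v)) =
            MA u + av fun v => R τ u v * MB v := by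
          intro u
          have h6 : ∀ v, R τ u v * (MA u + MB v) = R τ u v * MA u + R τ u v * MB v :=
            fun v => mul_add _ _ _
          rw [av_congr h6, av_add, av_mul_right, hRv, one_mul]
        rw [av_congr h5, av_add, av_comm fun u v => R τ u v * MB v]
        congr 1
        refine av_congr fun v => ?_
        rw [av_mul_right, hRu, one_mul]
      rw [h4]
      refine av_mono fun u => ?_
      rw [← av_sum]
      refine av_mono fun v => ?_
      rw [← Finset.mul_sum, mul_assoc]
      refine mul_le_mul_of_nonneg_left ?_ (hRnn τ h0.le h1.le u v)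
      by_cases h5 : W u v
      · rw [hw]
        show (if W u v then (1 : ℝ) else 0) * _ ≤ _
        rw [if_pos h5, one_mul, Finset.sum_congr rfl fun l _ => hNpr l u v]
        exact h u v h5
      · rw [hw]
        show (if W u v then (1 : ℝ) else 0) * _ ≤ _
        rw [if_neg h5, zero_mul]
        exact add_nonneg (hA u) (hB v)
    have h4 : 0 ≤ 2 / (k : ℝ) := by positivity
    nlinarith [mul_le_mul_of_nonneg_left h3 h4]
  obtain ⟨τ, ⟨hτ0, hτ1⟩, hτ⟩ := exists_hasDerivAt_eq_slope F F' zero_lt_one
    (fun x _ => (hder x).continuousAt.continuousWithinAt) fun x _ => hder x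
  have h2 := hbd τ hτ0 hτ1
  rw [hτ, sub_zero, div_one, hF1, hF0] at h2
  linarith

end Pool.Agent.H58.CD
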