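import Pool.Agent.H58.CD.Net

/-! [H58 CD MARG] Marginals at one or two positions.

PROOF of `av_at`. Let `p₀ = fun q : Co n D => q.1 = p`. `Equiv.piEquivPiSubtypeProd p₀ (fun _ => X)`
splits `Co n D → X` into the functions on `{q // q.1 = p}` and those on the complement, and
`{q // q.1 = p} ≃ Fin D` (`q ↦ q.2`, inverse `k ↦ (p, k)`); then `av_equiv`, `av_prod`, `av_const`
(the average over the complement of something which does not depend on it; the function space is
nonempty). Alternatively compare the sums by counting fibres.
PROOF of `av_pos`. `pos y p u = mix J z y` with `J = univ.filter (·.1 = p)` for every `z` with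
`z (p, k) = u k`. So `av_y av_u F (pos y p u) = av_y av_z F (pos y p (fun k => z (p, k)))` (by `av_at`)
`= av_y av_z F (mix J z y) = av F` (`av_comm`, `av_mix`).
PROOF of `av_at2`. With `J = univ.filter (·.1 = p)`, by `av_mix J`:
`av_z G(z at p, z at p') = av_a av_b G((mix J a b) at p, (mix J a b) at p') =
av_a av_b G(a at p, b at p')`, and `av_at` twice. -/

set_option autoImplicit false
set_option maxHeartbeats 4000000

namespace Pool.Agent.H58.CD

open Pool.Agent.H58.OVAC Pool.Agent.H58.OVPR

/-- Replace the vector at the position `p`. -/
def pos {n D : ℕ} {X : Type} (y : Co n D → X) (p : Bool × Fin n) (u : Fin D → X) : Co n D → X :=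
  fun q => if q.1 = p then u q.2 else y q

section

variable {n D : ℕ} {X : Type} [Fintype X] [Nonempty X]

private def atEquiv (n D : ℕ) (X : Type) (p : Bool × Fin n) :
    (Co n D → X) ≃ ((Fin D → X) × ({q : Co n D // ¬ q.1 = p} → X)) where
  toFun z := (fun k => z (p, k), fun q => z q.1)
  invFun w := fun q => if h : q.1 = p then w.1 q.2 else w.2 ⟨q, h⟩
  left_inv z := by
    funext q
    by_cases h : q.1 = p
    · simp only [h, dite_true]
      rw [← h]
    · simp only [h, dite_false]
  right_inv w := by
    refine Prod.ext ?_ ?_
    · funext k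
      simp
    · funext q
      have h := q.2
      simp only [h, dite_false]

theorem av_at (p : Bool × Fin n) (G : (Fin D → X) → ℝ) :
    (av fun z : Co n D → X => G fun k => z (p, k)) = av G := by
  have h1 := av_equiv (atEquiv n D X p) (fun w => G w.1)
  have h2 := av_prod (fun (a : Fin D → X) (_ : {q : Co n D // ¬ q.1 = p} → X) => G a)
  have h3 : (av fun a : Fin D → X => av fun _ : {q : Co n D // ¬ q.1 = p} → X => G a) = av G :=
    av_congr fun a => av_const _
  exact h1.trans (h2.trans h3)

theorem av_pos (p : Bool × Fin n) (F : (Co n D → X) → ℝ) :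
    (av fun y : Co n D → X => av fun u : Fin D → X => F (pos y p u)) = av F := by
  have h1 := av_mix (Finset.univ.filter fun q : Co n D => q.1 = p) F
  rw [av_comm] at h1
  rw [← h1]
  refine av_congr fun y => ?_
  rw [← av_at p fun u => F (pos y p u)]
  refine av_congr fun z => ?_
  congr 1
  funext q
  unfold pos mix
  simp only [Finset.mem_filter, Finset.mem_univ, true_and]
  by_cases h : q.1 = p
  · rw [if_pos h, if_pos h, ← h]
  · rw [if_neg h, if_neg h]

theorem av_at2 {p p' : Bool × Fin n} (hp : p ≠ p') (G : (Fin D → X) → (Fin D → X) → ℝ) :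
    (av fun z : Co n D → X => G (fun k => z (p, k)) fun k => z (p', k)) =
      av fun u => av fun v => G u v := by
  rw [← av_mix (Finset.univ.filter fun q : Co n D => q.1 = p)
    (fun z : Co n D → X => G (fun k => z (p, k)) fun k => z (p', k))]
  have h1 : ∀ a b : Co n D → X, (fun k => mix (Finset.univ.filter fun q : Co n D => q.1 = p) a b (p, k)) =
      fun k => a (p, k) := by
    intro a b
    funext k
    unfold mix
    simp only [Finset.mem_filter, Finset.mem_univ, true_and]
    rw [if_true]
  have h2 : ∀ a b : Co n D → X, (fun k => mix (Finset.univ.filter fun q : Co n D => q.1 = p) a b (p', k)) =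
      fun k => b (p', k) := by
    intro a b
    funext k
    unfold mix
    simp only [Finset.mem_filter, Finset.mem_univ, true_and]
    rw [if_neg hp.symm]
  simp only [h1, h2]
  rw [← av_at p fun u => av fun v => G u v]
  refine av_congr fun a => ?_
  exact av_at p' fun v => G (fun k => a (p, k)) v

end

end Pool.Agent.H58.CD
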