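import Pool.Agent.H58.CD.Logic
import Pool.Agent.H58.CD.Marg
import Pool.Agent.H58.CD.Interp

/-! [H58 CD SIDE] Trouble under the planted law against trouble under the product law.

PROOF. Let `fu u = pos x (false, i) u`, `fv v = pos x (true, j) v`, `W u v = ∃ g, two g ∧
Hit N g x (fu u) (fv v)`. For a function `φ` on `Co n D → Fin k` let
`IA φ l u = pr fun c => φ (fu (update u l c)) ≠ φ (fu u)`; `∑ l, IA φ l u = infl (φ ∘ fu) u` (by
definition); in the same way `IB`. Let `BA u = ∃ g, (S:ℝ)+1 < infl (N.first g ∘ fu) u`,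
`MA u = 2 * (S+1) + D * (if BA u then 1 else 0)`, and `BB`, `MB` in the same way.
(a) If not `BA u`, then `∑ l, IA (N.first g) l u ≤ S + 1` for all `g`, and
`∑ l, IA (N.ev z) l u ≤ S + 1` for every input or gate `z`: for a gate `N.val g` is a function of
`N.first g` (`Net.first_eq_none_iff`), and an input depends on at most one coordinate `P`
(`DepOne`), so at most one `l` has a nonzero term, and it is `≤ 1`.
(b) Let `W u v`, by the gate `g`. Claim: `∑ l, pr_c ¬W(update u l c, update v l c) ≤ MA u + MB v`.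
If `BA u` or `BB v`, each term is `≤ 1` and the sum is `≤ D`. Otherwise go through the five cases
of `Hit`. In each of them there are at most three functions `φ₁ ∘ fu, φ₂ ∘ fu` and `φ₃ ∘ fv` (or
one of `fu` and two of `fv`), with `φ` among `N.first g` and `N.ev z`, such that `Hit N g x (fu u')
(fv v')` holds as soon as these three functions have the same values at `u', v'` as at `u, v`:
`val g ∘ fu`, `val g ∘ fv`; `val g ∘ fu`, `ev q ∘ fv`; `val g ∘ fv`, `ev q ∘ fu`;
`first g ∘ fu`, `ev q₀ ∘ fu`, `ev q ∘ fv`; `first g ∘ fv`, `ev q₀ ∘ fv`, `ev q ∘ fu`. So `¬W` at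
`(update u l c, update v l c)` implies that one of them changes; by `pr_or_le`, `pr_mono` and (a)
the sum over `l` is at most `3 (S + 1) ≤ MA u + MB v`.
(c) `av MA ≤ 2 (S+1) + D * (s * η)` by `pr_exists_le` (or a union bound) and `hA`; the same for `MB`.
Apply `interp`: the error is `2/k * (4 (S+1) + 2 D s η)`. -/

set_option autoImplicit false
set_option maxHeartbeats 4000000

namespace Pool.Agent.H58.CD

open Pool.Agent.H58.OVAC Pool.Agent.H58.OVPR

private theorem sd_inp {ι : Type} [Fintype ι] {n D s T k : ℕ}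
    (N : Net ι (Co n D → Fin k) s T) (hin : ∀ i, DepOne (N.inp i)) (x : Co n D → Fin k)
    (p : Bool × Fin n) (i : ι) (u : Str k D) :
    infl (fun u' : Fin D → Fin k => N.inp i (pos x p u')) u ≤ 1 := by
  classical
  obtain ⟨P, hP, hd⟩ := hin i
  unfold infl
  calc _ ≤ ∑ l : Fin D, if ((p, l) : Co n D) ∈ P then (1 : ℝ) else 0 := by
        refine Finset.sum_le_sum fun l _ => ?_
        split_ifs with h
        · exact pr_le_one _
        · refine (pr_eq_zero fun c hc => hc ?_).le
          refine hd _ _ fun q hq => ?_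
          unfold pos
          split_ifs with h1
          · rw [Function.update_of_ne]
            intro h2
            apply h
            rw [← h1, ← h2]
            exact hq
          · rfl
    _ = ((Finset.univ.filter fun l : Fin D => ((p, l) : Co n D) ∈ P).card : ℝ) := by
        rw [Finset.sum_boole]
    _ ≤ (P.card : ℝ) := by
        have h1 : (Finset.univ.filter fun l : Fin D => ((p, l) : Co n D) ∈ P).card ≤ P.card := by
          refine Finset.card_le_card_of_injOn (fun l => ((p, l) : Co n D)) (fun l hl => ?_) ?_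
          · exact (Finset.mem_filter.1 hl).2
          · intro l _ l' _ he
            exact (Prod.mk.inj he).2
        exact_mod_cast h1
    _ ≤ 1 := by exact_mod_cast hP

private theorem sd_ev {ι : Type} [Fintype ι] {n D s T k : ℕ}
    (N : Net ι (Co n D → Fin k) s T) (hin : ∀ i, DepOne (N.inp i)) (x : Co n D → Fin k)
    (p : Bool × Fin n) {S : ℕ} {u : Str k D}
    (h : ∀ g, infl (fun u' : Fin D → Fin k => N.first g (pos x p u')) u ≤ (S : ℝ) + 1)
    (z : ι ⊕ Fin s) :
    (∑ l, pr fun c : Fin k => N.ev z (pos x p (Function.update u l c)) ≠ N.ev z (pos x p u)) ≤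
      (S : ℝ) + 1 := by
  rcases z with i | g
  · have h1 := sd_inp N hin x p i u
    have h2 : (0 : ℝ) ≤ S := Nat.cast_nonneg _
    refine le_trans (le_trans (le_of_eq rfl) h1) (by linarith)
  · refine le_trans ?_ (h g)
    unfold infl
    refine Finset.sum_le_sum fun l _ => pr_mono fun c hc he => hc ?_
    have e : ∀ w, N.ev (Sum.inr g) w = (N.first g w).isNone := by
      intro w
      show N.val g w = _
      have h2 := N.first_eq_none_iff g w
      cases h3 : N.first g w with
      | none =>
        rw [h3] at h2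
        simpa using h2.1 rfl
      | some q =>
        rw [h3] at h2
        cases h4 : N.val g w with
        | false => rfl
        | true => exact absurd (h2.2 h4) (by simp)
    have he' : N.first g (pos x p (Function.update u l c)) = N.first g (pos x p u) := he
    rw [e, e, he']

open Classical in
theorem side {ι : Type} [Fintype ι] {n D s T k : ℕ} (hk : 2 ≤ k)
    (N : Net ι (Co n D → Fin k) s T) (hin : ∀ i, DepOne (N.inp i)) (x : Co n D → Fin k)
    (i j : Fin n) (two : Fin s → Prop) {S : ℕ} {η : ℝ} (hη : 0 ≤ η)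
    (hA : ∀ g, (pr fun u : Str k D => (S : ℝ) + 1 <
      infl (fun u' : Fin D → Fin k => N.first g (pos x (false, i) u')) u) ≤ η)
    (hB : ∀ g, (pr fun v : Str k D => (S : ℝ) + 1 <
      infl (fun v' : Fin D → Fin k => N.first g (pos x (true, j) v')) v) ≤ η) :
    avR (fun u v : Str k D => if ∃ g, two g ∧
        Hit N g x (pos x (false, i) u) (pos x (true, j) v) then (1 : ℝ) else 0) ≤
      (av fun u : Str k D => pr fun v : Str k D => ∃ g, two g ∧
        Hit N g x (pos x (false, i) u) (pos x (true, j) v)) +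
      2 / k * (4 * (S + 1) + 2 * (D * (s * η))) := by
  have hS : (0 : ℝ) ≤ S := Nat.cast_nonneg _
  have hne : Nonempty (Fin k) := ⟨⟨0, by omega⟩⟩
  have hq0 : (0 : ℝ) < k := by
    have : 0 < k := by omega
    exact_mod_cast this
  -- the bad sets
  obtain ⟨BB, hBB⟩ : ∃ BB : Bool × Fin n → Str k D → Prop, BB = fun p u => ∃ g : Fin s,
      (S : ℝ) + 1 < infl (fun u' : Fin D → Fin k => N.first g (pos x p u')) u := ⟨_, rfl⟩
  obtain ⟨M, hM⟩ : ∃ M : Bool × Fin n → Str k D → ℝ, M = fun p u =>
      2 * ((S : ℝ) + 1) + D * (if BB p u then (1 : ℝ) else 0) := ⟨_, rfl⟩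
  have hM1 : ∀ p u, BB p u → 2 * ((S : ℝ) + 1) + D ≤ M p u := by
    intro p u h
    rw [hM]
    show _ ≤ 2 * ((S : ℝ) + 1) + D * (if BB p u then (1 : ℝ) else 0)
    rw [if_pos h, mul_one]
  have hM2 : ∀ p u, 2 * ((S : ℝ) + 1) ≤ M p u := by
    intro p u
    rw [hM]
    show _ ≤ 2 * ((S : ℝ) + 1) + D * (if BB p u then (1 : ℝ) else 0)
    have : (0 : ℝ) ≤ D * (if BB p u then (1 : ℝ) else 0) := by
      refine mul_nonneg (Nat.cast_nonneg _) ?_
      split_ifs <;> norm_num
    linarith
  have hMav : ∀ p, (∀ g, (pr fun u : Str k D => (S : ℝ) + 1 <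
      infl (fun u' : Fin D → Fin k => N.first g (pos x p u')) u) ≤ η) →
      av (M p) ≤ 2 * ((S : ℝ) + 1) + D * (s * η) := by
    intro p hp
    have h1 : av (M p) = 2 * ((S : ℝ) + 1) + D * pr (BB p) := by
      rw [hM]
      show (av fun u => 2 * ((S : ℝ) + 1) + D * (if BB p u then (1 : ℝ) else 0)) = _
      rw [av_add, av_const, av_mul_left]
      rfl
    have h2 : pr (BB p) ≤ s * η := by
      have h3 : pr (BB p) = pr fun u : Str k D => ∃ g ∈ (Finset.univ : Finset (Fin s)),
          (S : ℝ) + 1 < infl (fun u' : Fin D → Fin k => N.first g (pos x p u')) u := by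
        refine pr_congr fun u => ?_
        rw [hBB]
        simp
      rw [h3]
      refine (pr_exists_le _ _).trans ?_
      refine (Finset.sum_le_sum fun g _ => hp g).trans ?_
      rw [Finset.sum_const, Finset.card_univ, Fintype.card_fin, nsmul_eq_mul]
    rw [h1]
    have h4 : (0 : ℝ) ≤ D := Nat.cast_nonneg _
    have := mul_le_mul_of_nonneg_left h2 h4
    linarith
  have main := interp hk (fun u v : Str k D => ∃ g, two g ∧
    Hit N g x (pos x (false, i) u) (pos x (true, j) v)) (M (false, i)) (M (true, j))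
    (fun u => le_trans (by linarith) (hM2 _ u)) (fun v => le_trans (by linarith) (hM2 _ v)) ?_
  · have e0 : ∀ Φ Ψ : Str k D → Str k D → ℝ, (∀ u v, Φ u v = Ψ u v) → avR Φ = avR Ψ :=
      fun Φ Ψ h => by rw [funext fun u => funext fun v => h u v]
    refine (e0 _ _ fun u v => ?_).trans_le (main.trans ?_)
    · by_cases h : ∃ g, two g ∧ Hit N g x (pos x (false, i) u) (pos x (true, j) v)
      · rw [if_pos h, if_pos h]
      · rw [if_neg h, if_neg h]
    have h1 := hMav _ hA
    have h2 := hMav _ hB
    have h3 : 2 / (k : ℝ) * (av (M (false, i)) + av (M (true, j))) ≤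
        2 / (k : ℝ) * (4 * (S + 1) + 2 * (D * (s * η))) := by
      refine mul_le_mul_of_nonneg_left (by linarith) (by positivity)
    linarith
  intro u v hW
  -- bad strings
  have hbad : BB (false, i) u ∨ BB (true, j) v → (∑ l : Fin D, (pr fun c : Fin k =>
      ¬ ∃ g, two g ∧ Hit N g x (pos x (false, i) (Function.update u l c))
        (pos x (true, j) (Function.update v l c)))) ≤ M (false, i) u + M (true, j) v := by
    intro h
    have h1 : (∑ l : Fin D, (pr fun c : Fin k =>
        ¬ ∃ g, two g ∧ Hit N g x (pos x (false, i) (Function.update u l c))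
          (pos x (true, j) (Function.update v l c)))) ≤ (D : ℝ) := by
      refine (Finset.sum_le_sum fun l _ => pr_le_one _).trans ?_
      simp
    rcases h with h | h
    · have h2 := hM1 _ _ h
      have h3 := hM2 (true, j) v
      linarith
    · have h2 := hM1 _ _ h
      have h3 := hM2 (false, i) u
      linarith
  by_cases hb : BB (false, i) u ∨ BB (true, j) v
  · exact hbad hb
  push Not at hb
  obtain ⟨hb1, hb2⟩ := hb
  have hfA : ∀ g, infl (fun u' : Fin D → Fin k => N.first g (pos x (false, i) u')) u ≤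
      (S : ℝ) + 1 := by
    intro g
    by_contra h
    apply hb1
    rw [hBB]
    exact ⟨g, not_le.1 h⟩
  have hfB : ∀ g, infl (fun u' : Fin D → Fin k => N.first g (pos x (true, j) u')) v ≤
      (S : ℝ) + 1 := by
    intro g
    by_contra h
    apply hb2
    rw [hBB]
    exact ⟨g, not_le.1 h⟩
  have eA := sd_ev N hin x (false, i) hfA
  have eB := sd_ev N hin x (true, j) hfB
  have key : ∀ (CA CB : Fin D → Fin k → Prop), (∑ l, pr (CA l)) ≤ 2 * ((S : ℝ) + 1) →
      (∑ l, pr (CB l)) ≤ 2 * ((S : ℝ) + 1) →
      (∀ l c, ¬ CA l c → ¬ CB l c → ∃ g, two g ∧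
        Hit N g x (pos x (false, i) (Function.update u l c))
          (pos x (true, j) (Function.update v l c))) →
      (∑ l : Fin D, (pr fun c : Fin k =>
      ¬ ∃ g, two g ∧ Hit N g x (pos x (false, i) (Function.update u l c))
        (pos x (true, j) (Function.update v l c)))) ≤ M (false, i) u + M (true, j) v := by
    intro CA CB h1 h2 h3
    have h4 : (∑ l : Fin D, (pr fun c : Fin k =>
        ¬ ∃ g, two g ∧ Hit N g x (pos x (false, i) (Function.update u l c))
          (pos x (true, j) (Function.update v l c)))) ≤ ∑ l, (pr (CA l) + pr (CB l)) := by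
      refine Finset.sum_le_sum fun l _ => ?_
      refine le_trans (pr_mono fun c hc => ?_) (pr_or_le (CA l) (CB l))
      by_contra h5
      push Not at h5
      exact hc (h3 l c h5.1 h5.2)
    rw [Finset.sum_add_distrib] at h4
    have h5 := hM2 (false, i) u
    have h6 := hM2 (true, j) v
    linarith
  have two1 : ∀ a : ℝ, a ≤ (S : ℝ) + 1 → a ≤ 2 * ((S : ℝ) + 1) := fun a ha => by linarith
  obtain ⟨g, hg, hh⟩ := hW
  rcases hh with ⟨a0, a1, a2⟩ | ⟨a0, a1, q, hq, a2, a3⟩ | ⟨a0, a1, q, hq, a2, a3⟩ |
    ⟨q₀, q, a0, a1, a2, a3⟩ | ⟨q₀, q, a0, a1, a2, a3⟩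
  · refine key _ _ (two1 _ (eA (Sum.inr g))) (two1 _ (eB (Sum.inr g))) fun l c h1 h2 => ?_
    have h1' : N.val g (pos x (false, i) (Function.update u l c)) = N.val g (pos x (false, i) u) :=
      not_not.1 h1
    have h2' : N.val g (pos x (true, j) (Function.update v l c)) = N.val g (pos x (true, j) v) :=
      not_not.1 h2
    exact ⟨g, hg, Or.inl ⟨a0, by rw [h1', a1], by rw [h2', a2]⟩⟩
  · refine key _ _ (two1 _ (eA (Sum.inr g))) (two1 _ (eB q.1)) fun l c h1 h2 => ?_
    have h1' : N.val g (pos x (false, i) (Function.update u l c)) = N.val g (pos x (false, i) u) :=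
      not_not.1 h1
    have h2' := not_not.1 h2
    exact ⟨g, hg, Or.inr (Or.inl ⟨a0, by rw [h1', a1], q, hq, a2, by rw [h2']; exact a3⟩)⟩
  · refine key _ _ (two1 _ (eA q.1)) (two1 _ (eB (Sum.inr g))) fun l c h1 h2 => ?_
    have h1' := not_not.1 h1
    have h2' : N.val g (pos x (true, j) (Function.update v l c)) = N.val g (pos x (true, j) v) :=
      not_not.1 h2
    exact ⟨g, hg, Or.inr (Or.inr (Or.inl
      ⟨a0, by rw [h2', a1], q, hq, a2, by rw [h1']; exact a3⟩))⟩
  · refine key (fun l c => (N.first g (pos x (false, i) (Function.update u l c)) ≠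
        N.first g (pos x (false, i) u)) ∨ N.ev q₀.1 (pos x (false, i) (Function.update u l c)) ≠
        N.ev q₀.1 (pos x (false, i) u)) _ ?_ (two1 _ (eB q.1)) fun l c h1 h2 => ?_
    · refine (Finset.sum_le_sum fun l _ => pr_or_le _ _).trans ?_
      rw [Finset.sum_add_distrib]
      have h1 := hfA g
      unfold infl at h1
      have h2 := eA q₀.1
      linarith
    · push Not at h1
      obtain ⟨h1, h3⟩ := h1
      have h2' := not_not.1 h2
      exact ⟨g, hg, Or.inr (Or.inr (Or.inr (Or.inl
        ⟨q₀, q, a0, by rw [h1, a1], by rw [h3, a2], by rw [h2']; exact a3⟩)))⟩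
  · refine key _ (fun l c => (N.first g (pos x (true, j) (Function.update v l c)) ≠
        N.first g (pos x (true, j) v)) ∨ N.ev q₀.1 (pos x (true, j) (Function.update v l c)) ≠
        N.ev q₀.1 (pos x (true, j) v)) (two1 _ (eA q.1)) ?_ fun l c h1 h2 => ?_
    · refine (Finset.sum_le_sum fun l _ => pr_or_le _ _).trans ?_
      rw [Finset.sum_add_distrib]
      have h1 := hfB g
      unfold infl at h1
      have h2 := eB q₀.1
      linarith
    · push Not at h2
      obtain ⟨h2, h3⟩ := h2
      have h1' := not_not.1 h1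
      exact ⟨g, hg, Or.inr (Or.inr (Or.inr (Or.inr
        ⟨q₀, q, a0, by rw [h2, a1], by rw [h3, a2], by rw [h1']; exact a3⟩)))⟩

end Pool.Agent.H58.CD
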