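import Pool.Agent.H58.CD.Plant
import Pool.Agent.H58.CD.Side
import Pool.Agent.H58.CD.Menu

/-! The number of pairs of blocks with trouble, for the null law and for the planted law. -/

set_option autoImplicit false
set_option maxHeartbeats 4000000

namespace Pool.Agent.H58.CD

open Pool.Agent.H58.OVAC Pool.Agent.H58.OVPR

section

variable {V X Y : Type} [Fintype V] [DecidableEq V] [Fintype X] [Nonempty X]

theorem pairT_sum (u : (V → X) → Y) {κ : Type} (I : Finset κ) (A B : κ → Finset V)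
    (hA : ∀ a ∈ I, ∀ a' ∈ I, a ≠ a' → Disjoint (A a) (A a'))
    (hB : ∀ b ∈ I, ∀ b' ∈ I, b ≠ b' → Disjoint (B b) (B b')) (S : ℕ) {δ : ℝ}
    (hu : (av fun y : V → X => pr fun y' : V → X =>
      S < sens (fun ρ => u (pick y y' ρ)) (fun _ => false)) ≤ δ) :
    ∑ a ∈ I, ∑ b ∈ I, ∑ i ∈ A a, ∑ j ∈ B b, pairT u i j ≤
      (S : ℝ) ^ 2 + (Fintype.card V : ℝ) ^ 2 * δ := by
  classical
  let P : (V → X) → (V → X) → V → Prop := fun y y' i =>
    u (pick y y' (Pool.Agent.H58.OVPR.flip (fun _ => false) i)) ≠ u (pick y y' fun _ => false)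
  have hT0 : ∀ i j, 0 ≤ pairT u i j := fun i j => pairT_nonneg u i j
  have h2 : ∑ a ∈ I, ∑ b ∈ I, ∑ i ∈ A a, ∑ j ∈ B b, pairT u i j ≤ ∑ i, ∑ j, pairT u i j := by
    have e1 : ∑ a ∈ I, ∑ b ∈ I, ∑ i ∈ A a, ∑ j ∈ B b, pairT u i j =
        ∑ a ∈ I, ∑ i ∈ A a, ∑ b ∈ I, ∑ j ∈ B b, pairT u i j := by
      refine Finset.sum_congr rfl fun a _ => ?_
      rw [Finset.sum_comm]
    rw [e1]
    have e2 : ∀ i, ∑ b ∈ I, ∑ j ∈ B b, pairT u i j ≤ ∑ j, pairT u i j := by
      intro i
      rw [← Finset.sum_biUnion (fun b hb b' hb' h => hB b hb b' hb' h)]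
      exact Finset.sum_le_sum_of_subset_of_nonneg (Finset.subset_univ _) fun j _ _ => hT0 i j
    have e3 : ∑ a ∈ I, ∑ i ∈ A a, ∑ b ∈ I, ∑ j ∈ B b, pairT u i j ≤
        ∑ a ∈ I, ∑ i ∈ A a, ∑ j, pairT u i j :=
      Finset.sum_le_sum fun a _ => Finset.sum_le_sum fun i _ => e2 i
    have e4 : ∑ a ∈ I, ∑ i ∈ A a, ∑ j, pairT u i j ≤ ∑ i, ∑ j, pairT u i j := by
      rw [← Finset.sum_biUnion (fun b hb b' hb' h => hA b hb b' hb' h)]
      exact Finset.sum_le_sum_of_subset_of_nonneg (Finset.subset_univ _) fun i _ _ =>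
        Finset.sum_nonneg fun j _ => hT0 i j
    linarith
  refine h2.trans ?_
  have h3 : ∑ i, ∑ j, pairT u i j = av fun y : V → X => av fun y' : V → X =>
      ((sens (fun ρ => u (pick y y' ρ)) (fun _ => false) : ℕ) : ℝ) ^ 2 := by
    have e1 : ∀ y y' : V → X, ((sens (fun ρ => u (pick y y' ρ)) (fun _ => false) : ℕ) : ℝ) ^ 2 =
        ∑ i, ∑ j, if P y y' i ∧ P y y' j then (1 : ℝ) else 0 := by
      intro y y'
      have e2 : ((sens (fun ρ => u (pick y y' ρ)) (fun _ => false) : ℕ) : ℝ) =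
          ∑ i, if P y y' i then (1 : ℝ) else 0 := by
        unfold sens
        rw [Finset.card_filter]
        push_cast
        refine Finset.sum_congr rfl fun i _ => ?_
        congr
      rw [e2, pow_two, Finset.sum_mul_sum]
      refine Finset.sum_congr rfl fun i _ => Finset.sum_congr rfl fun j _ => ?_
      by_cases hi : P y y' i <;> by_cases hj : P y y' j <;> simp [hi, hj]
    have e3 : ∀ i j, pairT u i j = av fun y : V → X => av fun y' : V → X =>
        if P y y' i ∧ P y y' j then (1 : ℝ) else 0 := by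
      intro i j
      show (av fun y : V → X => pr fun y' : V → X => P y y' i ∧ P y y' j) = _
      unfold pr
      refine av_congr fun y => av_congr fun y' => ?_
      congr
    calc ∑ i, ∑ j, pairT u i j = ∑ i, ∑ j, av fun y : V → X => av fun y' : V → X =>
        if P y y' i ∧ P y y' j then (1 : ℝ) else 0 :=
          Finset.sum_congr rfl fun i _ => Finset.sum_congr rfl fun j _ => e3 i j
      _ = av fun y : V → X => av fun y' : V → X =>
          ∑ i, ∑ j, if P y y' i ∧ P y y' j then (1 : ℝ) else 0 := by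
          simp only [av_sum]
      _ = _ := av_congr fun y => av_congr fun y' => (e1 y y').symm
  rw [h3]
  have h4 : ∀ y y' : V → X, ((sens (fun ρ => u (pick y y' ρ)) (fun _ => false) : ℕ) : ℝ) ^ 2 ≤
      (S : ℝ) ^ 2 + (Fintype.card V : ℝ) ^ 2 *
        (if S < sens (fun ρ => u (pick y y' ρ)) (fun _ => false) then (1 : ℝ) else 0) := by
    intro y y'
    have h7 : (sens (fun ρ => u (pick y y' ρ)) (fun _ => false) : ℝ) ≤ Fintype.card V := by
      exact_mod_cast Finset.card_le_univ _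
    have h0 : (0 : ℝ) ≤ (sens (fun ρ => u (pick y y' ρ)) (fun _ => false) : ℝ) :=
      Nat.cast_nonneg _
    by_cases h8 : S < sens (fun ρ => u (pick y y' ρ)) (fun _ => false)
    · rw [if_pos h8, mul_one]
      have : (0 : ℝ) ≤ (S : ℝ) ^ 2 := sq_nonneg _
      have h9 := pow_le_pow_left₀ h0 h7 2
      linarith
    · rw [if_neg h8, mul_zero, add_zero]
      have h9 : (sens (fun ρ => u (pick y y' ρ)) (fun _ => false) : ℝ) ≤ S := by
        exact_mod_cast not_lt.1 h8
      exact pow_le_pow_left₀ h0 h9 2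
  refine (av_mono fun y => av_mono fun y' => h4 y y').trans ?_
  have h5 : (av fun y : V → X => av fun y' : V → X => ((S : ℝ) ^ 2 + (Fintype.card V : ℝ) ^ 2 *
        (if S < sens (fun ρ => u (pick y y' ρ)) (fun _ => false) then (1 : ℝ) else 0))) =
      (S : ℝ) ^ 2 + (Fintype.card V : ℝ) ^ 2 * av fun y : V → X => pr fun y' : V → X =>
        S < sens (fun ρ => u (pick y y' ρ)) (fun _ => false) := by
    have e1 : ∀ y : V → X, (av fun y' : V → X => ((S : ℝ) ^ 2 + (Fintype.card V : ℝ) ^ 2 *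
        (if S < sens (fun ρ => u (pick y y' ρ)) (fun _ => false) then (1 : ℝ) else 0))) =
        (S : ℝ) ^ 2 + (Fintype.card V : ℝ) ^ 2 * pr fun y' : V → X =>
        S < sens (fun ρ => u (pick y y' ρ)) (fun _ => false) := by
      intro y
      rw [av_add, av_const, av_mul_left]
      unfold pr
      congr 2
      exact av_congr fun y' => by congr
    rw [av_congr e1, av_add, av_const, av_mul_left]
  rw [h5]
  have h6 : (0 : ℝ) ≤ (Fintype.card V : ℝ) ^ 2 := sq_nonneg _
  nlinarith [mul_le_mul_of_nonneg_left hu h6]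

end

theorem blk_disj {n D m : ℕ} (b : Bool) {a a' : ℕ} (h : a ≠ a') :
    Disjoint (blk n D m b a) (blk n D m b a') := by
  rw [Finset.disjoint_left]
  intro p h1 h2
  obtain ⟨-, h3, h4⟩ := (Finset.mem_filter.1 h1).2
  obtain ⟨-, h5, h6⟩ := (Finset.mem_filter.1 h2).2
  rcases Nat.lt_or_gt_of_ne h with h7 | h7
  · have : a * m + m ≤ a' * m := by
      calc a * m + m = (a + 1) * m := by ring
        _ ≤ a' * m := Nat.mul_le_mul_right _ h7
    omega
  · have : a' * m + m ≤ a * m := by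
      calc a' * m + m = (a' + 1) * m := by ring
        _ ≤ a * m := Nat.mul_le_mul_right _ h7
    omega

theorem blk_list {n D m : ℕ} (b : Bool) (a : ℕ) : ∀ p ∈ blk n D m b a, p.1.1 = b := fun _ hp =>
  (Finset.mem_filter.1 hp).2.1

section

variable {ι : Type} [Fintype ι] {n D k s T : ℕ}

theorem tailB_nonneg (T s₁ G : ℕ) : 0 ≤ tailB T s₁ G := by
  unfold tailB
  positivity

theorem card_Co (n D : ℕ) : (Fintype.card (Co n D) : ℝ) = 2 * n * D := by
  have h : Fintype.card (Co n D) = 2 * n * D := by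
    simp [Fintype.card_prod]
  rw [h]
  push_cast
  ring

/-- The sum over all pairs of blocks. -/
theorem sum_blocks (N : Net ι (Co n D → Fin k) s T) (hk : 2 ≤ k) (hin : ∀ i, DepOne (N.inp i))
    {s₁ G : ℕ} (hs₁ : 1 ≤ s₁)
    (hG : s * (2 * (Fintype.card ι + s)) + (Fintype.card ι + s) ≤ G) (m n' : ℕ) {G2 : ℕ}
    (hG2 : (twoS N).card ≤ G2) :
    (∑ a ∈ Finset.range n', ∑ b ∈ Finset.range n', ∑ g ∈ twoS N,
      4 * ∑ i ∈ blk n D m false a, ∑ j ∈ blk n D m true b, pairT (N.first g) i j) ≤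
      G2 * (4 * (((2 * s₁ * (32 * s₁) ^ T : ℕ) : ℝ) ^ 2 + (2 * n * D : ℝ) ^ 2 * tailB T s₁ G)) := by
  have hne : Nonempty (Fin k) := ⟨⟨0, by omega⟩⟩
  have h1 : (∑ a ∈ Finset.range n', ∑ b ∈ Finset.range n', ∑ g ∈ twoS N,
      4 * ∑ i ∈ blk n D m false a, ∑ j ∈ blk n D m true b, pairT (N.first g) i j) =
      ∑ g ∈ twoS N, 4 * ∑ a ∈ Finset.range n', ∑ b ∈ Finset.range n',
        ∑ i ∈ blk n D m false a, ∑ j ∈ blk n D m true b, pairT (N.first g) i j := by
    simp only [Finset.mul_sum]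
    rw [Finset.sum_congr rfl fun a _ => Finset.sum_comm, Finset.sum_comm]
  rw [h1]
  set Q : ℝ := 4 * (((2 * s₁ * (32 * s₁) ^ T : ℕ) : ℝ) ^ 2 +
    (2 * n * D : ℝ) ^ 2 * tailB T s₁ G) with hQ
  have hQ0 : 0 ≤ Q := by
    have := tailB_nonneg T s₁ G
    positivity
  have h2 : ∀ g ∈ twoS N, 4 * ∑ a ∈ Finset.range n', ∑ b ∈ Finset.range n',
        ∑ i ∈ blk n D m false a, ∑ j ∈ blk n D m true b, pairT (N.first g) i j ≤ Q := by
    intro g _
    have h3 := pairT_sum (N.first g) (Finset.range n') (fun a => blk n D m false a)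
      (fun b => blk n D m true b) (fun a _ a' _ h => blk_disj false h)
      (fun b _ b' _ h => blk_disj true h) (2 * s₁ * (32 * s₁) ^ T)
      (net_pick N hin hs₁ hG g)
    rw [card_Co] at h3
    linarith
  calc _ ≤ ∑ _g ∈ twoS N, Q := Finset.sum_le_sum h2
    _ = (twoS N).card * Q := by rw [Finset.sum_const, nsmul_eq_mul]
    _ ≤ G2 * Q := mul_le_mul_of_nonneg_right (by exact_mod_cast hG2) hQ0

theorem geo_null (N : Net ι (Co n D → Fin k) s T) (hk : 2 ≤ k) (hin : ∀ i, DepOne (N.inp i))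
    {s₁ G : ℕ} (hs₁ : 1 ≤ s₁)
    (hG : s * (2 * (Fintype.card ι + s)) + (Fintype.card ι + s) ≤ G) (m n' : ℕ) {G2 : ℕ}
    (hG2 : (twoS N).card ≤ G2) :
    (∑ a ∈ Finset.range n', ∑ b ∈ Finset.range n',
      av fun y : Co n D → Fin k => pr fun y' : Co n D → Fin k => Bad4 N m a b y y') ≤
      G2 * (4 * (((2 * s₁ * (32 * s₁) ^ T : ℕ) : ℝ) ^ 2 + (2 * n * D : ℝ) ^ 2 * tailB T s₁ G)) := by
  have hne : Nonempty (Fin k) := ⟨⟨0, by omega⟩⟩
  refine le_trans (Finset.sum_le_sum fun a _ => Finset.sum_le_sum fun b _ => ?_)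
    (sum_blocks N hk hin hs₁ hG m n' hG2)
  exact null_sets N hin (blk_list false a) (blk_list true b)

theorem depOne_pos {X Y : Type} {f : (Co n D → X) → Y} (hf : DepOne f) (x : Co n D → X)
    (p : Bool × Fin n) : DepOne fun u : Fin D → X => f (pos x p u) := by
  classical
  obtain ⟨P, h1, h2⟩ := hf
  refine ⟨P.image fun q => q.2, Finset.card_image_le.trans h1, fun u u' h => h2 _ _ fun q hq => ?_⟩
  unfold pos
  by_cases hqp : q.1 = p
  · rw [if_pos hqp, if_pos hqp]
    exact h _ (Finset.mem_image_of_mem _ hq)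
  · rw [if_neg hqp, if_neg hqp]

theorem first_comp {Ω Ω' : Type} (N : Net ι Ω s T) (ρ : Ω' → Ω) (g : Fin s) (x : Ω') :
    (N.comp ρ).first g x = N.first g (ρ x) := rfl

open Classical in
theorem geo_plant (N : Net ι (Co n D → Fin k) s T) (hk : 2 ≤ k) (hin : ∀ i, DepOne (N.inp i))
    {s₁ G : ℕ} (hs₁ : 1 ≤ s₁)
    (hG : s * (2 * (Fintype.card ι + s)) + (Fintype.card ι + s) ≤ G) (m n' : ℕ) {G2 : ℕ}
    (hG2 : (twoS N).card ≤ G2) (i j : ℕ → ℕ → Fin n)
    (hi : ∀ a < n', ∀ b < n', a * m ≤ i a b ∧ i a b < a * m + m)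
    (hj : ∀ a < n', ∀ b < n', b * m ≤ j a b ∧ j a b < b * m + m) :
    (∑ a ∈ Finset.range n', ∑ b ∈ Finset.range n',
      av fun y : Co n D → Fin k => av fun y' : Co n D → Fin k => avR fun u v : Str k D =>
        if Bad4 N m a b y (plant y' (i a b) (j a b) u v) then (1 : ℝ) else 0) ≤
      G2 * (4 * (((2 * s₁ * (32 * s₁) ^ T : ℕ) : ℝ) ^ 2 + (2 * n * D : ℝ) ^ 2 * tailB T s₁ G)) +
        (n' : ℝ) ^ 2 * (2 / k * (4 * (((2 * s₁ * (32 * s₁) ^ T : ℕ) : ℝ) + 1) +
          4 * D * s * (2 * n * D : ℝ) * tailB T s₁ G)) := by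
  have hne : Nonempty (Fin k) := ⟨⟨0, by omega⟩⟩
  have hk0 : (0 : ℝ) < k := by
    have : 0 < k := by omega
    exact_mod_cast this
  set S : ℕ := 2 * s₁ * (32 * s₁) ^ T with hS
  set η : ℝ := (D : ℝ) * tailB T s₁ G with hη
  have htB := tailB_nonneg T s₁ G
  have hη0 : 0 ≤ η := mul_nonneg (Nat.cast_nonneg _) htB
  set R : ℝ := 2 / k * (4 * ((S : ℝ) + 1) + 4 * D * s * (2 * n * D : ℝ) * tailB T s₁ G) with hR
  have hone : ∀ a ∈ Finset.range n', ∀ b ∈ Finset.range n',
      (av fun y : Co n D → Fin k => av fun y' : Co n D → Fin k => avR fun u v : Str k D =>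
        if Bad4 N m a b y (plant y' (i a b) (j a b) u v) then (1 : ℝ) else 0) ≤
      (∑ g ∈ twoS N, 4 * ∑ α ∈ blk n D m false a, ∑ β ∈ blk n D m true b,
        pairT (N.first g) α β) + R := by
    intro a ha b hb
    have ha' := Finset.mem_range.1 ha
    have hb' := Finset.mem_range.1 hb
    have hn1 : (1 : ℝ) ≤ n := by
      have : 0 < n := lt_of_le_of_lt (Nat.zero_le _) (i a b).2
      exact_mod_cast this
    refine plant_one hk N hin (blk_list false a) (blk_list true b) (i a b) (j a b)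
      (fun c => Finset.mem_filter.2 ⟨Finset.mem_univ _, rfl, hi a ha' b hb'⟩)
      (fun c => Finset.mem_filter.2 ⟨Finset.mem_univ _, rfl, hj a ha' b hb'⟩) fun x => ?_
    have hA : ∀ g, (pr fun u : Str k D => (S : ℝ) + 1 <
        infl (fun u' : Fin D → Fin k => N.first g (pos x (false, i a b) u')) u) ≤ η := by
      intro g
      have h1 := net_infl (N.comp fun u : Fin D → Fin k => pos x (false, i a b) u)
        (fun l => depOne_pos (hin l) x _) hs₁ hG g
      rw [Fintype.card_fin] at h1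
      exact h1
    have hB : ∀ g, (pr fun v : Str k D => (S : ℝ) + 1 <
        infl (fun v' : Fin D → Fin k => N.first g (pos x (true, j a b) v')) v) ≤ η := by
      intro g
      have h1 := net_infl (N.comp fun v : Fin D → Fin k => pos x (true, j a b) v)
        (fun l => depOne_pos (hin l) x _) hs₁ hG g
      rw [Fintype.card_fin] at h1
      exact h1
    have h1 := side hk N hin x (i a b) (j a b) (fun g => g ∈ twoS N) hη0 hA hB
    refine le_trans (le_of_eq ?_) (h1.trans ?_)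
    · congr 1
      funext u v
      by_cases h3 : HitS N (i a b) (j a b) x u v
      · rw [if_pos h3]
        exact (if_pos h3).symm
      · rw [if_neg h3]
        exact (if_neg h3).symm
    have h4 : 2 / (k : ℝ) * (4 * ((S : ℝ) + 1) + 2 * (D * (s * η))) ≤ R := by
      rw [hR]
      refine mul_le_mul_of_nonneg_left ?_ (by positivity)
      have h5 : 2 * ((D : ℝ) * (s * η)) ≤ 4 * D * s * (2 * n * D : ℝ) * tailB T s₁ G := by
        rw [hη]
        have h6 : (0 : ℝ) ≤ D * s * D * tailB T s₁ G := by positivity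
        have h7 : 2 * ((D : ℝ) * (s * (D * tailB T s₁ G))) = 2 * (D * s * D * tailB T s₁ G) := by
          ring
        have h8 : 4 * D * s * (2 * n * D : ℝ) * tailB T s₁ G =
            8 * n * (D * s * D * tailB T s₁ G) := by ring
        rw [h7, h8]
        nlinarith
      linarith
    have h9 : (av fun u : Str k D => pr fun v : Str k D => ∃ g, g ∈ twoS N ∧
        Hit N g x (pos x (false, i a b) u) (pos x (true, j a b) v)) =
        av fun u : Str k D => pr fun v : Str k D => HitS N (i a b) (j a b) x u v := rfl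
    rw [h9]
    linarith
  refine (Finset.sum_le_sum fun a ha => Finset.sum_le_sum fun b hb => hone a ha b hb).trans ?_
  simp only [Finset.sum_add_distrib, Finset.sum_const, Finset.card_range, nsmul_eq_mul]
  have h1 := sum_blocks N hk hin hs₁ hG m n' hG2
  have h2 : (n' : ℝ) * (n' * R) = (n' : ℝ) ^ 2 * R := by ring
  rw [h2]
  linarith

end

end Pool.Agent.H58.CD
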