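import Pool.Agent.H58.CD.Menu

/-! [H58 CD PAR] The parameters and the numerics.

NOTATION. `s₁ = 1024 L`, `S = 2 s₁ (32 s₁)^T`, `k = 4000 (S + 2)`, `D = k (2 l + 5)`,
`G = s (2 (2 n D k + 1 + s)) + (2 n D k + 1 + s)`; `tailB T s₁ G = T (32 s₁)^T G / 2^s₁`.
Let `b = 2^L`, `B = 2^(64 L) = b^64`, so `2^s₁ = 2^(1024 L) = B^16`.
PROOF of `num_tail` (all numbers are natural numbers; work in ℕ and cast at the end). From `hT`: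
`S ≤ (32 s₁)^(T+1) ≤ B` (`2 s₁ ≤ 32 s₁`); `k ≤ 4000 * 3 B ≤ 2^14 B`; `2 l + 5 ≤ 7 L ≤ 7 b`
(`L < 2^L`), `D ≤ 2^14 B * 7 b ≤ 2^17 B b`; `G ≤ (2 s + 1)(2 n D k + 1 + s) ≤ 2 b (2 b * 2^17 B b * 2^14 B + b)
≤ 2^34 B^2 b^3`; `2 n D ≤ 2^18 B b^2`; `T ≤ 2^T ≤ (32 s₁)^(T+1) ≤ B`, `(32 s₁)^T ≤ B`. So
`T (32 s₁)^T G ≤ 2^34 B^4 b^3`, and `(2 n D)^2 T (32 s₁)^T G ≤ 2^36 B^2 b^4 * 2^34 B^4 b^3 =
2^70 b^7 B^6 ≤ B^16 = 2^s₁` because `B^10 = 2^(640 L) ≥ 2^(70 + 7 L)`; in the same way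
`4 D s (2 n D) T (32 s₁)^T G ≤ 2^71 b^7 B^6 ≤ B^16`.
PROOF of `num_dim`. `S + 2 ≤ 2 (32 s₁)^(T+1)` and `2 l + D k = 2 l + k^2 (2 l + 5) ≤ k^2 * 9 L ≤
(8000 * (32768 L)^(T+1))^2 * 9 L ≤ (2^20 L)^(2^20 (T+1))`: with `x = 2^20 L ≥ 2^20`, `8000 ≤ x`,
`32768 L ≤ x`, `9 L ≤ x`, so the left side is at most `x^2 * x^(2 (T+1)) * x = x^(2 T + 5) ≤
x^(2^20 (T+1))` (`Nat.pow_le_pow_right`).
PROOF of `num_triv`. `(32 s₁)^(T+1) = (32768 L)^(T+1) ≤ (2^20 L)^(2^20 (T+1))`, so the right side is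
larger than `2^(64 L) ≥ 2^(2 L) = (2^L)^2 ≥ n^2`.
PROOF of `num_fin`. Let `x = 2^20 L`. `Λ = Nat.clog 2 (2 M + 1)`, `M = 100 H (J+1)`; `H ≤ n ≤ 2^L`,
`J + 1 ≤ 2^L`, `2 M + 1 ≤ 201 H (J+1) ≤ 2^8 * 2^(2L) ≤ 2^(10 L)`, so `Λ ≤ 10 L`;
`m = 40000 H Λ ≤ 400000 H L ≤ H x`. `S^2 + 1 ≤ 2 ((32768 L)^(T+1))^2 ≤ 2 x^(2(T+1))`. So
`4000 m^2 (S^2 + 1) ≤ 8000 H^2 x^2 x^(2(T+1)) ≤ H^2 x^(2 T + 5) ≤ H^2 x^(2^20 (T+1))`.
PROOF of `num_log`. `log (2 M + 1) ≤ log (2^Λ) = Λ log 2 ≤ Λ` (`Real.log_two_lt_d9`,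
`Nat.le_pow_clog`). -/

set_option autoImplicit false
set_option maxHeartbeats 4000000

namespace Pool.Agent.H58.CD

open Pool.Agent.H58.OVAC Pool.Agent.H58.OVPR

def pS₁ (L : ℕ) : ℕ := 1024 * L

def pS (T L : ℕ) : ℕ := 2 * pS₁ L * (32 * pS₁ L) ^ T

def pK (T L : ℕ) : ℕ := 4000 * (pS T L + 2)

def pD (T L l : ℕ) : ℕ := pK T L * (2 * l + 5)

def pG (n s T L l : ℕ) : ℕ :=
  s * (2 * (2 * n * pD T L l * pK T L + 1 + s)) + (2 * n * pD T L l * pK T L + 1 + s)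

def pM (H J : ℕ) : ℕ := 100 * H * (J + 1)

def pm (H J : ℕ) : ℕ := 40000 * H * Nat.clog 2 (2 * pM H J + 1)

private theorem pS_le (T L : ℕ) : pS T L ≤ (32 * pS₁ L) ^ (T + 1) := by
  unfold pS
  rw [pow_succ, mul_comm ((32 * pS₁ L) ^ T)]
  exact Nat.mul_le_mul_right _ (by omega)

private theorem one_le_B (L : ℕ) : 1 ≤ 2 ^ (64 * L) := Nat.one_le_two_pow

private theorem tail_nat {n s T L l : ℕ} (hnL : n ≤ 2 ^ L) (hs : s + 1 ≤ 2 ^ L) (hl : l ≤ L) (hL : 1 ≤ L)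
    (hT : (32 * pS₁ L) ^ (T + 1) ≤ 2 ^ (64 * L)) :
    (2 * n * pD T L l) ^ 2 * (T * (32 * pS₁ L) ^ T * pG n s T L l) ≤ 2 ^ pS₁ L ∧
    4 * pD T L l * s * (2 * n * pD T L l) * (T * (32 * pS₁ L) ^ T * pG n s T L l) ≤ 2 ^ pS₁ L := by
  obtain ⟨b, hb⟩ : ∃ b, b = 2 ^ L := ⟨_, rfl⟩
  obtain ⟨B, hB⟩ : ∃ B, B = 2 ^ (64 * L) := ⟨_, rfl⟩
  have hBb : B = b ^ 64 := by rw [hB, hb, ← pow_mul, mul_comm]
  have hb2 : 2 ≤ b := by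
    rw [hb]
    calc 2 = 2 ^ 1 := rfl
      _ ≤ 2 ^ L := Nat.pow_le_pow_right (by norm_num) hL
  have hB1 : 1 ≤ B := by rw [hB]; exact one_le_B L
  rw [← hb] at hnL hs
  rw [← hB] at hT
  have hLb : L ≤ b := by rw [hb]; exact Nat.lt_two_pow_self.le
  have hy : 1 ≤ 32 * pS₁ L := by unfold pS₁; omega
  have h1 : pS T L ≤ B := (pS_le T L).trans hT
  have h2 : pK T L ≤ 2 ^ 14 * B := by unfold pK; omega
  have h3 : 2 * l + 5 ≤ 7 * b := by omega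
  have h4 : pD T L l ≤ 2 ^ 17 * B * b := by
    unfold pD
    calc pK T L * (2 * l + 5) ≤ (2 ^ 14 * B) * (7 * b) := Nat.mul_le_mul h2 h3
      _ ≤ 2 ^ 17 * B * b := by nlinarith [Nat.zero_le (B * b)]
  have hA : 2 * n * pD T L l * pK T L + 1 + s ≤ 2 ^ 33 * B ^ 2 * b ^ 2 := by
    have e1 : 2 * n * pD T L l * pK T L ≤ 2 * b * (2 ^ 17 * B * b) * (2 ^ 14 * B) :=
      Nat.mul_le_mul (Nat.mul_le_mul (Nat.mul_le_mul_left 2 hnL) h4) h2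
    have e2 : 2 * b * (2 ^ 17 * B * b) * (2 ^ 14 * B) = 2 ^ 32 * (B ^ 2 * b ^ 2) := by ring
    have e3 : 2 ^ 33 * B ^ 2 * b ^ 2 = 2 ^ 32 * (B ^ 2 * b ^ 2) + 2 ^ 32 * (B ^ 2 * b ^ 2) := by ring
    have e4 : b ≤ 2 ^ 32 * (B ^ 2 * b ^ 2) := by
      have : 1 ≤ B ^ 2 := Nat.one_le_pow _ _ hB1
      nlinarith
    omega
  have hG : pG n s T L l ≤ 2 ^ 34 * B ^ 2 * b ^ 3 := by
    have e1 : pG n s T L l = (2 * s + 1) * (2 * n * pD T L l * pK T L + 1 + s) := by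
      unfold pG; ring
    rw [e1]
    calc (2 * s + 1) * (2 * n * pD T L l * pK T L + 1 + s) ≤ (2 * b) * (2 ^ 33 * B ^ 2 * b ^ 2) :=
          Nat.mul_le_mul (by omega) hA
      _ = 2 ^ 34 * B ^ 2 * b ^ 3 := by ring
  have hTB : T ≤ B := by
    calc T ≤ 2 ^ T := Nat.lt_two_pow_self.le
      _ ≤ (32 * pS₁ L) ^ T := Nat.pow_le_pow_left (by unfold pS₁; omega) T
      _ ≤ (32 * pS₁ L) ^ (T + 1) := Nat.pow_le_pow_right hy (Nat.le_succ T)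
      _ ≤ B := hT
  have hPB : (32 * pS₁ L) ^ T ≤ B := (Nat.pow_le_pow_right hy (Nat.le_succ T)).trans hT
  have hW : T * (32 * pS₁ L) ^ T * pG n s T L l ≤ 2 ^ 34 * B ^ 4 * b ^ 3 := by
    calc T * (32 * pS₁ L) ^ T * pG n s T L l ≤ B * B * (2 ^ 34 * B ^ 2 * b ^ 3) :=
          Nat.mul_le_mul (Nat.mul_le_mul hTB hPB) hG
      _ = 2 ^ 34 * B ^ 4 * b ^ 3 := by ring
  have hnD : 2 * n * pD T L l ≤ 2 ^ 18 * B * b ^ 2 := by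
    calc 2 * n * pD T L l ≤ 2 * b * (2 ^ 17 * B * b) := Nat.mul_le_mul (Nat.mul_le_mul_left 2 hnL) h4
      _ = 2 ^ 18 * B * b ^ 2 := by ring
  have hend : 2 ^ 71 * b ^ 7 * B ^ 6 ≤ 2 ^ pS₁ L := by
    have e1 : 2 ^ pS₁ L = B ^ 6 * B ^ 10 := by
      rw [← pow_add, hB, ← pow_mul]
      unfold pS₁
      congr 1
      ring
    rw [e1, mul_comm (B ^ 6)]
    refine Nat.mul_le_mul_right _ ?_
    have e2 : B ^ 10 = b ^ 71 * b ^ 7 * b ^ 562 := by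
      rw [hBb]; ring
    rw [e2]
    calc 2 ^ 71 * b ^ 7 ≤ b ^ 71 * b ^ 7 := Nat.mul_le_mul_right _ (Nat.pow_le_pow_left hb2 71)
      _ ≤ b ^ 71 * b ^ 7 * b ^ 562 := Nat.le_mul_of_pos_right _ (pow_pos (by omega) _)
  constructor
  · calc (2 * n * pD T L l) ^ 2 * (T * (32 * pS₁ L) ^ T * pG n s T L l) ≤
        (2 ^ 18 * B * b ^ 2) ^ 2 * (2 ^ 34 * B ^ 4 * b ^ 3) :=
          Nat.mul_le_mul (Nat.pow_le_pow_left hnD 2) hW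
      _ = 2 ^ 70 * b ^ 7 * B ^ 6 := by ring
      _ ≤ 2 ^ 71 * b ^ 7 * B ^ 6 :=
          Nat.mul_le_mul_right _ (Nat.mul_le_mul_right _ (Nat.pow_le_pow_right (by norm_num) (by norm_num)))
      _ ≤ _ := hend
  · calc 4 * pD T L l * s * (2 * n * pD T L l) * (T * (32 * pS₁ L) ^ T * pG n s T L l) ≤
        4 * (2 ^ 17 * B * b) * b * (2 ^ 18 * B * b ^ 2) * (2 ^ 34 * B ^ 4 * b ^ 3) :=
          Nat.mul_le_mul (Nat.mul_le_mul (Nat.mul_le_mul (Nat.mul_le_mul_left 4 h4) (by omega)) hnD) hW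
      _ = 2 ^ 71 * b ^ 7 * B ^ 6 := by ring
      _ ≤ _ := hend

private theorem y_le_x (L : ℕ) : 32 * pS₁ L ≤ 2 ^ 20 * L := by unfold pS₁; omega

private theorem x_pow {T L : ℕ} (hL : 1 ≤ L) : (2 ^ 20 * L) ^ (2 * T + 5) ≤ (2 ^ 20 * L) ^ (2 ^ 20 * (T + 1)) :=
  Nat.pow_le_pow_right (by omega) (by omega)

private theorem S2_le {T L : ℕ} (hL : 1 ≤ L) : pS T L + 2 ≤ 2 * (2 ^ 20 * L) ^ (T + 1) := by
  have h1 := pS_le T L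
  have h2 : (32 * pS₁ L) ^ (T + 1) ≤ (2 ^ 20 * L) ^ (T + 1) := Nat.pow_le_pow_left (y_le_x L) _
  have h3 : 2 ≤ (2 ^ 20 * L) ^ (T + 1) := by
    calc 2 ≤ 2 ^ 20 * L := by omega
      _ = (2 ^ 20 * L) ^ 1 := (pow_one _).symm
      _ ≤ (2 ^ 20 * L) ^ (T + 1) := Nat.pow_le_pow_right (by omega) (by omega)
  omega

theorem num_tail {n s T L l : ℕ} (hnL : n ≤ 2 ^ L) (hs : s + 1 ≤ 2 ^ L) (hl : l ≤ L) (hL : 1 ≤ L)
    (hT : (32 * pS₁ L) ^ (T + 1) ≤ 2 ^ (64 * L)) :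
    (2 * n * pD T L l : ℝ) ^ 2 * tailB T (pS₁ L) (pG n s T L l) ≤ 1 ∧
    4 * (pD T L l : ℝ) * s * (2 * n * pD T L l) * tailB T (pS₁ L) (pG n s T L l) ≤ 1 := by
  obtain ⟨h1, h2⟩ := tail_nat hnL hs hl hL hT
  have h1' : (2 * n * pD T L l : ℝ) ^ 2 * (T * (32 * pS₁ L) ^ T * pG n s T L l) ≤ 2 ^ pS₁ L := by
    exact_mod_cast h1
  have h2' : 4 * (pD T L l : ℝ) * s * (2 * n * pD T L l) * (T * (32 * pS₁ L) ^ T * pG n s T L l) ≤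
      2 ^ pS₁ L := by
    exact_mod_cast h2
  unfold tailB
  constructor
  · rw [mul_div_assoc', div_le_one (by positivity)]
    exact h1'
  · rw [mul_div_assoc', div_le_one (by positivity)]
    exact h2'

theorem num_dim {T L l : ℕ} (hl : l ≤ L) (hL : 1 ≤ L) :
    2 * l + pD T L l * pK T L ≤ (2 ^ 20 * L) ^ (2 ^ 20 * (T + 1)) := by
  refine le_trans ?_ (x_pow hL)
  obtain ⟨x, hx⟩ : ∃ x, x = 2 ^ 20 * L := ⟨_, rfl⟩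
  have h1 := S2_le (T := T) hL
  rw [← hx] at h1 ⊢
  have hx1 : 8000 ≤ x := by omega
  have h2 : pK T L ≤ x * x ^ (T + 1) := by
    unfold pK
    calc 4000 * (pS T L + 2) ≤ 4000 * (2 * x ^ (T + 1)) := Nat.mul_le_mul_left _ h1
      _ = 8000 * x ^ (T + 1) := by ring
      _ ≤ x * x ^ (T + 1) := Nat.mul_le_mul_right _ hx1
  have hK1 : 1 ≤ pK T L := by unfold pK; omega
  have h3 : 2 * l + pD T L l * pK T L ≤ 9 * L * pK T L ^ 2 := by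
    unfold pD
    have e1 : 2 * l ≤ 2 * L * pK T L ^ 2 := by
      calc 2 * l ≤ 2 * L * 1 := by omega
        _ ≤ 2 * L * pK T L ^ 2 := Nat.mul_le_mul_left _ (Nat.one_le_pow _ _ hK1)
    have e2 : pK T L * (2 * l + 5) * pK T L ≤ 7 * L * pK T L ^ 2 := by
      calc pK T L * (2 * l + 5) * pK T L = (2 * l + 5) * pK T L ^ 2 := by ring
        _ ≤ 7 * L * pK T L ^ 2 := Nat.mul_le_mul_right _ (by omega)
    calc _ ≤ 2 * L * pK T L ^ 2 + 7 * L * pK T L ^ 2 := Nat.add_le_add e1 e2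
      _ = 9 * L * pK T L ^ 2 := by ring
  calc 2 * l + pD T L l * pK T L ≤ 9 * L * pK T L ^ 2 := h3
    _ ≤ x * (x * x ^ (T + 1)) ^ 2 := Nat.mul_le_mul (by omega) (Nat.pow_le_pow_left h2 2)
    _ = x ^ (2 * T + 5) := by ring

theorem num_triv {n T L : ℕ} (hnL : n ≤ 2 ^ L) (hL : 1 ≤ L)
    (hT : 2 ^ (64 * L) < (32 * pS₁ L) ^ (T + 1)) :
    n ^ 2 ≤ (2 ^ 20 * L) ^ (2 ^ 20 * (T + 1)) := by
  calc n ^ 2 ≤ (2 ^ L) ^ 2 := Nat.pow_le_pow_left hnL 2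
    _ = 2 ^ (L * 2) := (pow_mul _ _ _).symm
    _ ≤ 2 ^ (64 * L) := Nat.pow_le_pow_right (by norm_num) (by omega)
    _ ≤ (32 * pS₁ L) ^ (T + 1) := hT.le
    _ ≤ (2 ^ 20 * L) ^ (T + 1) := Nat.pow_le_pow_left (y_le_x L) _
    _ ≤ (2 ^ 20 * L) ^ (2 ^ 20 * (T + 1)) := Nat.pow_le_pow_right (by omega) (by omega)

theorem num_fin {T L H J : ℕ} (hL : 1 ≤ L) (hH : 1 ≤ H) (hHL : H ≤ 2 ^ L) (hJ : J + 1 ≤ 2 ^ L) :
    4000 * pm H J ^ 2 * (pS T L ^ 2 + 1) ≤ H ^ 2 * (2 ^ 20 * L) ^ (2 ^ 20 * (T + 1)) := by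
  refine le_trans ?_ (Nat.mul_le_mul_left _ (x_pow hL))
  have hΛ : Nat.clog 2 (2 * pM H J + 1) ≤ 10 * L := by
    refine Nat.clog_le_of_le_pow ?_
    have h1 : H * (J + 1) ≤ 2 ^ L * 2 ^ L := Nat.mul_le_mul hHL hJ
    have h2 : 1 ≤ 2 ^ L * 2 ^ L := Nat.mul_pos (by positivity) (by positivity)
    have h3 : 2 * pM H J + 1 ≤ 2 ^ 8 * (2 ^ L * 2 ^ L) := by
      unfold pM
      have : 100 * H * (J + 1) = 100 * (H * (J + 1)) := by ring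
      omega
    refine h3.trans ?_
    rw [← pow_add, ← pow_add]
    exact Nat.pow_le_pow_right (by norm_num) (by omega)
  obtain ⟨x, hx⟩ : ∃ x, x = 2 ^ 20 * L := ⟨_, rfl⟩
  have h1 := S2_le (T := T) hL
  rw [← hx] at h1 ⊢
  have hm : pm H J ≤ H * x := by
    unfold pm
    calc 40000 * H * Nat.clog 2 (2 * pM H J + 1) ≤ 40000 * H * (10 * L) := Nat.mul_le_mul_left _ hΛ
      _ = H * (400000 * L) := by ring
      _ ≤ H * x := Nat.mul_le_mul_left _ (by omega)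
  have hS : pS T L ^ 2 + 1 ≤ 2 * (x ^ (T + 1)) ^ 2 := by
    have h2 : pS T L ≤ x ^ (T + 1) := by
      rw [hx]
      exact (pS_le T L).trans (Nat.pow_le_pow_left (y_le_x L) _)
    have h3 : 1 ≤ (x ^ (T + 1)) ^ 2 := Nat.one_le_pow _ _ (pow_pos (by omega) _)
    have h4 := Nat.pow_le_pow_left h2 2
    omega
  calc 4000 * pm H J ^ 2 * (pS T L ^ 2 + 1) ≤ 4000 * (H * x) ^ 2 * (2 * (x ^ (T + 1)) ^ 2) :=
        Nat.mul_le_mul (Nat.mul_le_mul_left _ (Nat.pow_le_pow_left hm 2)) hS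
    _ = 8000 * (H ^ 2 * (x ^ 2 * (x ^ (T + 1)) ^ 2)) := by ring
    _ ≤ x * (H ^ 2 * (x ^ 2 * (x ^ (T + 1)) ^ 2)) := Nat.mul_le_mul_right _ (by omega)
    _ = H ^ 2 * x ^ (2 * T + 5) := by ring

theorem num_log {H J : ℕ} (hH : 1 ≤ H) :
    Real.log (2 * (pM H J : ℝ) + 1) ≤ Nat.clog 2 (2 * pM H J + 1) := by
  have h1 : 2 * pM H J + 1 ≤ 2 ^ Nat.clog 2 (2 * pM H J + 1) := Nat.le_pow_clog (by norm_num) _
  have h2 : (2 * (pM H J : ℝ) + 1) ≤ 2 ^ Nat.clog 2 (2 * pM H J + 1) := by exact_mod_cast h1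
  have h3 := Real.log_le_log (by positivity) h2
  rw [Real.log_pow] at h3
  have h4 := Real.log_two_lt_d9
  have h5 : (0 : ℝ) ≤ (Nat.clog 2 (2 * pM H J + 1) : ℝ) := Nat.cast_nonneg _
  nlinarith

end Pool.Agent.H58.CD
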