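import Pool.Agent.H58.CD.Net
import Pool.Agent.H58.OVPR.Yao
import Pool.Agent.H58.OVPR.Det

/-! [H58 CD RAND] Random inputs rarely have an orthogonal pair; the space of the planted tests.

PROOF of `pr_off_le`. Copy the proof of `hp0` in
`Pool/Agent/Results/MP_0f984e_lc/ParallelRounds.lean` (theorem `lower`, and theorem `pr_off` there),
for strings `Bool × Fin n → Str k D`; the present space `Co n D → Fin k` is the same by
`Equiv.curry` (`pr_equiv`). Union bound over `i, j`: each pair is `Off` with probability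
`((k-1)/k)^D ≤ (1/2)^(2 l + 5)` (as `D = k (2 l + 5)` and `(1 - 1/k)^k ≤ 1/2`, `OVPR` has
`one_sub_inv_pow_le`, otherwise: Bernoulli `(1 + 1/(k-1))^k ≥ 2`), and `n^2 ≤ 2^(2 l)`.
PROOF of `pr_ptest`. As `OVPR.pr_test` (file `OVPR/Det.lean`): `pr_prod` three times, `avR_eq`, and
for the uniform average over the finite type `(Fin n' × Fin n') × (Fin m × Fin m)` of size
`(n' m)^2`: `av` unfolds to the sum divided by the size; exchange sums and `av` with `av_sum`. -/

set_option autoImplicit false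
set_option maxHeartbeats 4000000

namespace Pool.Agent.H58.CD

open Pool.Agent.H58.OVAC Pool.Agent.H58.OVPR

private theorem pr_off1 {n k D : ℕ} (hk : 2 ≤ k) (i j : Fin n) :
    pr (fun y : Bool × Fin n → Str k D => Off (y (false, i)) (y (true, j))) =
      (((k : ℝ) - 1) / k) ^ D := by
  classical
  have hne : Nonempty (Str k D) := ⟨fun _ => ⟨0, by omega⟩⟩
  rw [← pr_mix {(false, i)} fun y : Bool × Fin n → Str k D =>
    Off (y (false, i)) (y (true, j))]
  have h1 : ∀ u : Bool × Fin n → Str k D, (pr fun v : Bool × Fin n → Str k D =>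
      Off (mix {(false, i)} u v (false, i)) (mix {(false, i)} u v (true, j))) =
      (((k : ℝ) - 1) / k) ^ D := by
    intro u
    have h2 : (pr fun v : Bool × Fin n → Str k D =>
        Off (mix {(false, i)} u v (false, i)) (mix {(false, i)} u v (true, j))) =
        pr fun v : Bool × Fin n → Str k D => Off (u (false, i)) (v (true, j)) := by
      refine pr_congr fun v => ?_
      simp [mix]
    rw [h2, OVPR.pr_coord (true, j) fun s : Str k D => Off (u (false, i)) s]
    unfold pr av
    have h3 := count_off' (k := k) (D := D) (by omega) (u (false, i))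
    have h4 : (∑ s : Str k D, @ite ℝ (Off (u (false, i)) s)
        (Classical.propDecidable _) 1 0) = ((k : ℝ) - 1) ^ D := by
      rw [← h3]
      refine Finset.sum_congr rfl fun s _ => ?_
      by_cases h : Off (u (false, i)) s
      · rw [if_pos h, if_pos h]
      · rw [if_neg h, if_neg h]
    rw [h4, div_pow]
    simp
  rw [av_congr h1]
  exact av_const _

theorem pr_off_le {n k D l : ℕ} (hk : 2 ≤ k) (hD : D = k * (2 * l + 5)) (hn : n ≤ 2 ^ l) :
    pr (fun y : Co n D → Fin k => ∃ i j : Fin n, Off (fun c => y ((false, i), c))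
      (fun c => y ((true, j), c))) ≤ 1 / 32 := by
  have hk' : (2 : ℝ) ≤ k := by exact_mod_cast hk
  have hk0 : (0 : ℝ) < k := by linarith
  have hnl : (n : ℝ) ≤ 2 ^ l := by exact_mod_cast hn
  have h0 : pr (fun y : Co n D → Fin k => ∃ i j : Fin n, Off (fun c => y ((false, i), c))
      (fun c => y ((true, j), c))) = pr (fun y : Bool × Fin n → Str k D =>
        ∃ i j, Off (y (false, i)) (y (true, j))) :=
    pr_equiv (Equiv.curry (Bool × Fin n) (Fin D) (Fin k))
      (fun y : Bool × Fin n → Str k D => ∃ i j, Off (y (false, i)) (y (true, j)))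
  rw [h0]
  have h1 : pr (fun y : Bool × Fin n → Str k D =>
      ∃ i j, Off (y (false, i)) (y (true, j))) ≤
      ∑ z ∈ (Finset.univ : Finset (Fin n × Fin n)),
        pr (fun y : Bool × Fin n → Str k D => Off (y (false, z.1)) (y (true, z.2))) := by
    refine le_trans (pr_mono fun y hy => ?_) (pr_exists_le _ _)
    obtain ⟨i, j, hij⟩ := hy
    exact ⟨(i, j), Finset.mem_univ _, hij⟩
  refine h1.trans ?_
  simp only [pr_off1 hk]
  rw [Finset.sum_const, Finset.card_univ, Fintype.card_prod, Fintype.card_fin, nsmul_eq_mul]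
  have h2 : (((k : ℝ) - 1) / k) ^ k ≤ 1 / 2 := by
    have := one_sub_inv_pow_le k (by omega)
    have h3 : ((k : ℝ) - 1) / k = 1 - 1 / k := by field_simp
    rw [h3]
    exact this
  have h3 : (((k : ℝ) - 1) / k) ^ D ≤ (1 / 2) ^ (2 * l + 5) := by
    rw [hD, pow_mul]
    exact pow_le_pow_left₀ (pow_nonneg (div_nonneg (by linarith) hk0.le) _) h2 _
  have h4 : (n : ℝ) ^ 2 ≤ 2 ^ (2 * l) := by
    calc (n : ℝ) ^ 2 ≤ (2 ^ l) ^ 2 := pow_le_pow_left₀ (Nat.cast_nonneg n) hnl 2
      _ = 2 ^ (2 * l) := by rw [← pow_mul, mul_comm]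
  calc ((n * n : ℕ) : ℝ) * (((k : ℝ) - 1) / k) ^ D ≤ 2 ^ (2 * l) * (1 / 2) ^ (2 * l + 5) := by
        apply mul_le_mul _ h3 (pow_nonneg (div_nonneg (by linarith) hk0.le) _) (by positivity)
        push_cast
        rw [← sq]
        exact h4
    _ = (2 * (1 / 2)) ^ (2 * l) * (1 / 32) := by
        rw [pow_add, mul_pow]
        ring
    _ = 1 / 32 := by norm_num

/-- The tests with a planted pair. -/
abbrev PTest (n k D n' m : ℕ) : Type :=
  (Co n D → Fin k) × ((Fin n' × Fin n') × (Fin m × Fin m)) ×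
    {ab : Str k D × Str k D // Off ab.1 ab.2}

/-- The input of a test. -/
def PTest.y {n k D n' m : ℕ} (pos : Fin n' → Fin m → Fin n) (τ : PTest n k D n' m) :
    Co n D → Fin k :=
  plant τ.1 (pos τ.2.1.1.1 τ.2.1.2.1) (pos τ.2.1.1.2 τ.2.1.2.2) τ.2.2.1.1 τ.2.2.1.2

private theorem avR_sum1 {k D : ℕ} {ι : Type} [Fintype ι] (Φ : ι → Str k D → Str k D → ℝ) :
    avR (fun u v => ∑ i, Φ i u v) = ∑ i, avR (Φ i) := by
  exact avR_sum Finset.univ Φ

open Classical in
theorem pr_ptest {n k D n' m : ℕ} (hn' : 1 ≤ n') (hm : 1 ≤ m) (hk : 2 ≤ k)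
    (pos : Fin n' → Fin m → Fin n) (G : (Co n D → Fin k) → Prop) :
    ((n' * m : ℕ) : ℝ) ^ 2 * pr (fun τ : PTest n k D n' m => G (τ.y pos)) =
    ∑ a : Fin n', ∑ b : Fin n', ∑ t : Fin m, ∑ t' : Fin m,
      av fun y : Co n D → Fin k => avR fun u v : Str k D =>
        if G (plant y (pos a t) (pos b t') u v) then (1 : ℝ) else 0 := by
  have hnm : (0 : ℝ) < ((n' * m : ℕ) : ℝ) := by
    exact_mod_cast Nat.mul_pos (by omega) (by omega)
  have h1 : pr (fun τ : PTest n k D n' m => G (τ.y pos)) = av fun y : Co n D → Fin k =>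
      av fun z : (Fin n' × Fin n') × (Fin m × Fin m) => avR fun u v =>
        (if G (plant y (pos z.1.1 z.2.1) (pos z.1.2 z.2.2) u v) then (1 : ℝ) else 0) := by
    refine Eq.trans (pr_prod fun (y : Co n D → Fin k)
      (r : ((Fin n' × Fin n') × (Fin m × Fin m)) × {ab : Str k D × Str k D // Off ab.1 ab.2}) =>
      G (plant y (pos r.1.1.1 r.1.2.1) (pos r.1.1.2 r.1.2.2) r.2.1.1 r.2.1.2)) ?_
    refine av_congr fun y => ?_
    refine Eq.trans (pr_prod fun (z : (Fin n' × Fin n') × (Fin m × Fin m))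
      (w : {ab : Str k D × Str k D // Off ab.1 ab.2}) =>
      G (plant y (pos z.1.1 z.2.1) (pos z.1.2 z.2.2) w.1.1 w.1.2)) ?_
    refine av_congr fun z => ?_
    rw [avR_eq hk]
    rfl
  rw [h1, ← av_mul_left]
  have h2 : ∀ y : Co n D → Fin k, ((n' * m : ℕ) : ℝ) ^ 2 *
      (av fun z : (Fin n' × Fin n') × (Fin m × Fin m) => avR fun u v =>
        (if G (plant y (pos z.1.1 z.2.1) (pos z.1.2 z.2.2) u v) then (1 : ℝ) else 0)) =
      ∑ a : Fin n', ∑ b : Fin n', ∑ t : Fin m, ∑ t' : Fin m, avR fun u v : Str k D =>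
        if G (plant y (pos a t) (pos b t') u v) then (1 : ℝ) else 0 := by
    intro y
    have h3 : (av fun z : (Fin n' × Fin n') × (Fin m × Fin m) => avR fun u v : Str k D =>
        (if G (plant y (pos z.1.1 z.2.1) (pos z.1.2 z.2.2) u v) then (1 : ℝ) else 0)) =
        (∑ z : (Fin n' × Fin n') × (Fin m × Fin m), avR fun u v : Str k D =>
        (if G (plant y (pos z.1.1 z.2.1) (pos z.1.2 z.2.2) u v) then (1 : ℝ) else 0)) /
          ((n' * m : ℕ) : ℝ) ^ 2 := by
      unfold av
      simp only [Fintype.card_prod, Fintype.card_fin]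
      congr 1
      push_cast
      ring
    rw [h3, mul_div_cancel₀ _ (by positivity)]
    simp only [Fintype.sum_prod_type]
  rw [av_congr h2, av_sum]
  refine Finset.sum_congr rfl fun a _ => ?_
  rw [av_sum]
  refine Finset.sum_congr rfl fun b _ => ?_
  rw [av_sum]
  refine Finset.sum_congr rfl fun t _ => ?_
  rw [av_sum]

end Pool.Agent.H58.CD
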