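import Pool.Agent.H58.CD.Top
import Pool.Agent.H58.CD.Emb
import Pool.Agent.H58.CD.Rand
import Pool.Agent.H58.CD.Par
import Pool.Agent.H58.CD.Geo

/-! [H58 CD DET] A circuit with few two-sided gates does not see the planted pair.

(Import `Pool.Agent.H58.CD.Geo`, theorems `geo_null`, `geo_plant` by helper42.)
PROOF. Let `N` be the net of `embed_net code C hC`; its inputs are `DepOne`,
`card (Option (Co n D × Fin k)) = 2 n D k + 1`, `card (Co n D) = 2 n D`. Let
`S = 2 s₁ (32 s₁)^T`, `δ = tailB T s₁ G`, `V = 2 n D`.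
`net_pick` and `net_infl` give the hypotheses of `geo_null`, `geo_plant` for all gates. If `C.val g` is
one-sided in the sense of `hG2`, then `N.val g` is `OneSided` (if `y, y'` agree on the list `b`, so do
`code₁ code y`, `code₁ code y'`), so the number of not one-sided gates of `N` is `≤ G2`. Thus
`geo_null`: `Σ_{a,b} av pr Bad4 ≤ G2 * 4 (S^2 + V^2 δ) =: E`, and `geo_plant` gives
`E' = E + n'^2 (2/k)(4 (S+1) + 4 D s V δ)`.
Let `fr' r b y = fr r b (fun i => code₁ code y (b, i))`; it depends only on the list `b`; and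
`wsum N w fr' r y` is the sum in `hacc` for `z = code₁ code y`. Apply `top` (with `l := x`) and
`pr_ptest` with `G y = acc (code₁ code y)`: `(n' m)^2 pr (planted acc) ≤ (n' m)^2 (pr acc + H J / M +
(4 x / m + H log (2M+1) / x)) + m^2 (E + E')`. Divide by `(n' m)^2 > 0`. -/

set_option autoImplicit false
set_option maxHeartbeats 4000000

namespace Pool.Agent.H58.CD

open Pool.Agent.H58.OVAC Pool.Agent.H58.OVPR

open Classical in
theorem det {α : Type} {n d D k l s T H J M m n' s₁ G : ℕ} (hk : 2 ≤ k) (hm : 1 ≤ m)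
    (hn' : 1 ≤ n') (hn : n' * m ≤ n) (hM : 1 ≤ M) (hs₁ : 1 ≤ s₁)
    (hG : s * (2 * (2 * n * D * k + 1 + s)) + (2 * n * D * k + 1 + s) ≤ G)
    (code : Fin n → Fin l → Bool)
    (C : Net (OVAC.Pos n × Fin d) (OVAC.Input n d) s T) (hC : ∀ q x, C.inp q x = x q.1 q.2)
    (w : Fin H → Fin s → ℝ) (fr : Fin H → Bool → (Fin n → OVAC.Vec d) → ℝ)
    (f : Fin H → ℝ → α) (hf : ∀ r, IsStep J (f r)) (dec : (Fin H → α) → Bool)
    {x : ℝ} (hx : 0 < x) (hxm : 2 * x ≤ m) (pos : Fin n' → Fin m → Fin n)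
    (hpos : ∀ a t, (pos a t : ℕ) = a * m + t) (acc : OVAC.Input n d → Prop)
    (hacc : ∀ z, acc z ↔ dec (fun r => f r ((∑ g, w r g * (if C.val g z = true then (1 : ℝ) else 0)) +
      fr r false (fun i => z (false, i)) + fr r true (fun i => z (true, i)))) = true)
    (G2 : ℕ) (hG2 : (Finset.univ.filter fun g : Fin s => ¬ ∃ b : Bool, ∀ z z' : OVAC.Input n d,
      (∀ i, z (b, i) = z' (b, i)) → C.val g z = C.val g z').card ≤ G2) :
    pr (fun τ : PTest n k D n' m => acc (code₁ code (τ.y pos))) ≤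
      pr (fun y : Co n D → Fin k => acc (code₁ code y)) + H * (J / M) +
      (4 * x / m + H * Real.log (2 * M + 1) / x) +
      G2 * (8 * (((2 * s₁ * (32 * s₁) ^ T : ℕ) : ℝ) ^ 2 +
        (2 * n * D : ℝ) ^ 2 * tailB T s₁ G)) / n' ^ 2 +
      2 / k * (4 * (((2 * s₁ * (32 * s₁) ^ T : ℕ) : ℝ) + 1) +
        4 * D * s * (2 * n * D : ℝ) * tailB T s₁ G) := by
  classical
  obtain ⟨N, hin, hval⟩ := embed_net (k := k) code C hC
  have hk0 : (0 : ℝ) < k := by exact_mod_cast (by omega : 0 < k)
  have hne : Nonempty (Fin k) := ⟨⟨0, by omega⟩⟩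
  have hcard : Fintype.card (Option (Co n D × Fin k)) = 2 * n * D * k + 1 := by
    simp [Fintype.card_prod]
  have hG' : s * (2 * (Fintype.card (Option (Co n D × Fin k)) + s)) +
      (Fintype.card (Option (Co n D × Fin k)) + s) ≤ G := by
    rw [hcard]
    exact hG
  -- the two-sided gates
  have hcode : ∀ (b : Bool) (y y' : Co n D → Fin k), (∀ p, p.1.1 = b → y p = y' p) → ∀ i,
      code₁ (d := d) code y (b, i) = code₁ code y' (b, i) := by
    intro b y y' h i
    unfold code₁
    congr 1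
    funext c
    exact h _ rfl
  have htwo : (twoS N).card ≤ G2 := by
    refine le_trans (Finset.card_le_card fun g hg => ?_) hG2
    rw [mem_twoS] at hg
    refine Finset.mem_filter.2 ⟨Finset.mem_univ _, fun hcon => hg ?_⟩
    obtain ⟨b, hb⟩ := hcon
    refine ⟨b, fun y y' h => ?_⟩
    rw [hval, hval]
    exact hb _ _ fun i => hcode b y y' h i
  set S : ℝ := ((2 * s₁ * (32 * s₁) ^ T : ℕ) : ℝ) with hS
  set Q : ℝ := 4 * (S ^ 2 + (2 * n * D : ℝ) ^ 2 * tailB T s₁ G) with hQ
  set R : ℝ := 2 / k * (4 * (S + 1) + 4 * D * s * (2 * n * D : ℝ) * tailB T s₁ G) with hR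
  have hnull := geo_null N hk hin hs₁ hG' m n' htwo
  have hplant := fun (i j : ℕ → ℕ → Fin n)
      (hi : ∀ a < n', ∀ b < n', a * m ≤ i a b ∧ i a b < a * m + m)
      (hj : ∀ a < n', ∀ b < n', b * m ≤ j a b ∧ j a b < b * m + m) =>
    geo_plant N hk hin hs₁ hG' m n' htwo i j hi hj
  have hn1 : 1 ≤ n := by
    have h1 : 1 * 1 ≤ n' * m := Nat.mul_le_mul hn' hm
    omega
  have hfr' : ∀ (r : Fin H) (b : Bool) (y y' : Co n D → Fin k), (∀ p, p.1.1 = b → y p = y' p) →
      (fun (r : Fin H) (b : Bool) (y : Co n D → Fin k) => fr r b (fun i => code₁ code y (b, i)))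
        r b y =
      (fun (r : Fin H) (b : Bool) (y : Co n D → Fin k) => fr r b (fun i => code₁ code y (b, i)))
        r b y' := by
    intro r b y y' h
    show fr r b _ = fr r b _
    congr 1
    funext i
    exact hcode b y y' h i
  have htop := top (α := α) (J := J) (M := M) hk N hm hn1 hn hM w
    (fun r b y => fr r b (fun i => code₁ code y (b, i))) hfr'
    f hf dec hx hxm hnull hplant pos hpos
  have hw : ∀ (r : Fin H) (y : Co n D → Fin k),
      wsum N w (fun r b y => fr r b (fun i => code₁ code y (b, i))) r y =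
      (∑ g, w r g * (if C.val g (code₁ code y) = true then (1 : ℝ) else 0)) +
      fr r false (fun i => code₁ code y (false, i)) + fr r true (fun i => code₁ code y (true, i)) := by
    intro r y
    unfold wsum
    simp only [hval]
  have hacc' : ∀ y : Co n D → Fin k, acc (code₁ code y) ↔
      dec (fun r => f r (wsum N w (fun r b y => fr r b (fun i => code₁ code y (b, i))) r y)) =
        true := by
    intro y
    rw [hacc]
    simp only [hw]
  have hpt := pr_ptest (n := n) (k := k) (D := D) hn' hm hk pos fun y => acc (code₁ code y)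
  have e1 : (∑ a : Fin n', ∑ b : Fin n', ∑ t : Fin m, ∑ t' : Fin m,
      av fun y : Co n D → Fin k => avR fun u v : Str k D =>
        if dec (fun r => f r (wsum N w (fun r b y => fr r b (fun i => code₁ code y (b, i))) r
          (plant y (pos a t) (pos b t') u v))) = true then (1 : ℝ) else 0) =
      ∑ a : Fin n', ∑ b : Fin n', ∑ t : Fin m, ∑ t' : Fin m,
      av fun y : Co n D → Fin k => avR fun u v : Str k D =>
        if acc (code₁ code (plant y (pos a t) (pos b t') u v)) then (1 : ℝ) else 0 := by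
    refine Finset.sum_congr rfl fun a _ => Finset.sum_congr rfl fun b _ =>
      Finset.sum_congr rfl fun t _ => Finset.sum_congr rfl fun t' _ => av_congr fun y => ?_
    congr 1
    funext u v
    by_cases h : acc (code₁ code (plant y (pos a t) (pos b t') u v))
    · rw [if_pos h, if_pos ((hacc' _).1 h)]
    · rw [if_neg h, if_neg fun h' => h ((hacc' _).2 h')]
  have e2 : pr (fun y : Co n D → Fin k => dec (fun r => f r (wsum N w
      (fun r b y => fr r b (fun i => code₁ code y (b, i))) r y)) = true) =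
      pr (fun y : Co n D → Fin k => acc (code₁ code y)) :=
    pr_congr fun y => (hacc' y).symm
  rw [e1, e2, ← hpt] at htop
  have hn'0 : (0 : ℝ) < n' := by exact_mod_cast hn'
  have hm0 : (0 : ℝ) < m := by exact_mod_cast hm
  have hnm : (0 : ℝ) < ((n' * m : ℕ) : ℝ) ^ 2 := by
    push_cast
    positivity
  have e3 : (m : ℝ) ^ 2 * (G2 * Q + (G2 * Q + (n' : ℝ) ^ 2 * R)) =
      ((n' * m : ℕ) : ℝ) ^ 2 * (G2 * (2 * Q) / n' ^ 2 + R) := by
    push_cast
    field_simp
    ring
  rw [e3] at htop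
  have e4 : ((n' * m : ℕ) : ℝ) ^ 2 * pr (fun τ : PTest n k D n' m => acc (code₁ code (τ.y pos))) ≤
      ((n' * m : ℕ) : ℝ) ^ 2 * (pr (fun y : Co n D → Fin k => acc (code₁ code y)) + H * (J / M) +
      (4 * x / m + H * Real.log (2 * M + 1) / x) + (G2 * (2 * Q) / n' ^ 2 + R)) := by
    refine htop.trans (le_of_eq ?_)
    ring
  have e5 := le_of_mul_le_mul_left e4 hnm
  have e6 : (G2 : ℝ) * (2 * Q) / n' ^ 2 =
      G2 * (8 * (S ^ 2 + (2 * n * D : ℝ) ^ 2 * tailB T s₁ G)) / n' ^ 2 := by
    rw [hQ]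
    ring
  rw [e6] at e5
  linarith

end Pool.Agent.H58.CD
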