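import Pool.Agent.H58.OVAC.Avg

/-! [H58 CD QUANT] Quantile classes and step functions. (Mathlib only in substance.)

PROOF of `quant`. Let `F x = pr (X < x)`, `F' x = pr (X ≤ x)`, `F ≤ F'`, both monotone with values in
`[0,1]`, and for `x < x'`: `F' x ≤ F x'`. Let `lab x = ⌊M F x⌋₊ + ⌊M F' x⌋₊ ∈ {0, ..., 2M}`;
monotone. Let `a < b`, `lab a = lab b`. By monotonicity `⌊M F a⌋ = ⌊M F b⌋` and
`⌊M F' a⌋ = ⌊M F' b⌋`, and `⌊M F a⌋ ≤ ⌊M F' a⌋ ≤ ⌊M F b⌋ = ⌊M F a⌋`: all four floors are equal to one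
number `j`. For every `x` with `lab x = lab a`: comparing `x` with `a` and `b` in the same way (at
least one of them is different from `x`; take the pair `(x, b)` if `x < b`, the pair `(a, x)` if
`a < x`) gives `⌊M F x⌋ = ⌊M F' x⌋ = j`. If no `ω` has `lab (X ω) = lab a` the probability is `0`.
Otherwise let `x₁ ≤ x₂` be the least and the largest value of `X ω` with `lab (X ω) = lab a`
(`Finset.exists_min_image`, `exists_max_image`). The event implies `x₁ ≤ X ω ≤ x₂`, so its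
probability is at most `F' x₂ - F x₁`, and `M F' x₂ < j + 1`, `M F x₁ ≥ j`.
PROOF of `bad_class`. Let `D` be the set of jumps. If `lab (X ω') = lab (X ω)` and
`f (X ω' + Y) ≠ f (X ω + Y)`, then `X ω' ≠ X ω`; let `lo < hi` be these two numbers. By `IsStep` for
`lo + Y ≤ hi + Y` there is `θ ∈ D` with `lo + Y ≤ θ ≤ hi + Y`, so `lo ≤ θ - Y ≤ hi`, and by
monotonicity `lab (θ - Y) = lab lo = lab hi = lab (X ω)`. So the event is contained in the union over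
`θ ∈ D` of the events `lab (X ω) = lab (θ - Y) ∧ ∃ lo < hi, lab lo = lab hi ∧ lab lo = lab (θ - Y)`,
each of which has probability at most `1 / M` by `hmass` (`pr_exists_le`). -/

set_option autoImplicit false
set_option maxHeartbeats 4000000

namespace Pool.Agent.H58.CD

open Pool.Agent.H58.OVAC

/-- A step function: constant off and between at most `J` points. -/
def IsStep {α : Type} (J : ℕ) (f : ℝ → α) : Prop :=
  ∃ D : Finset ℝ, D.card ≤ J ∧ ∀ a b : ℝ, a ≤ b → (∀ y ∈ D, y < a ∨ b < y) → f a = f b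

private theorem quant_floor {Ω : Type} [Fintype Ω] [Nonempty Ω] (X : Ω → ℝ) {M : ℕ} {a b : ℝ}
    (hab : a < b)
    (hlab : ⌊(M : ℝ) * pr (fun ω => X ω < a)⌋₊ + ⌊(M : ℝ) * pr (fun ω => X ω ≤ a)⌋₊ =
      ⌊(M : ℝ) * pr (fun ω => X ω < b)⌋₊ + ⌊(M : ℝ) * pr (fun ω => X ω ≤ b)⌋₊) :
    ⌊(M : ℝ) * pr (fun ω => X ω < a)⌋₊ = ⌊(M : ℝ) * pr (fun ω => X ω ≤ a)⌋₊ ∧
    ⌊(M : ℝ) * pr (fun ω => X ω < b)⌋₊ = ⌊(M : ℝ) * pr (fun ω => X ω ≤ a)⌋₊ ∧
    ⌊(M : ℝ) * pr (fun ω => X ω ≤ b)⌋₊ = ⌊(M : ℝ) * pr (fun ω => X ω ≤ a)⌋₊ := by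
  have m1 : ⌊(M : ℝ) * pr (fun ω => X ω < a)⌋₊ ≤ ⌊(M : ℝ) * pr (fun ω => X ω ≤ a)⌋₊ :=
    Nat.floor_le_floor (mul_le_mul_of_nonneg_left (pr_mono fun ω h => le_of_lt h)
      (Nat.cast_nonneg M))
  have m2 : ⌊(M : ℝ) * pr (fun ω => X ω ≤ a)⌋₊ ≤ ⌊(M : ℝ) * pr (fun ω => X ω < b)⌋₊ :=
    Nat.floor_le_floor (mul_le_mul_of_nonneg_left (pr_mono fun ω h => lt_of_le_of_lt h hab)
      (Nat.cast_nonneg M))
  have m3 : ⌊(M : ℝ) * pr (fun ω => X ω < b)⌋₊ ≤ ⌊(M : ℝ) * pr (fun ω => X ω ≤ b)⌋₊ :=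
    Nat.floor_le_floor (mul_le_mul_of_nonneg_left (pr_mono fun ω h => le_of_lt h)
      (Nat.cast_nonneg M))
  omega

theorem quant {Ω : Type} [Fintype Ω] [Nonempty Ω] (X : Ω → ℝ) {M : ℕ} (hM : 1 ≤ M) :
    ∃ lab : ℝ → Fin (2 * M + 1), Monotone lab ∧ ∀ a b, a < b → lab a = lab b →
      pr (fun ω => lab (X ω) = lab a) ≤ 1 / M := by
  classical
  have hM0 : (0 : ℝ) < M := by exact_mod_cast hM
  have hle : ∀ s : Ω → Prop, ⌊(M : ℝ) * pr s⌋₊ ≤ M := by
    intro s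
    have h1 : (M : ℝ) * pr s ≤ M := by
      have := mul_le_mul_of_nonneg_left (pr_le_one s) hM0.le
      linarith
    calc ⌊(M : ℝ) * pr s⌋₊ ≤ ⌊(M : ℝ)⌋₊ := Nat.floor_le_floor h1
      _ = M := Nat.floor_natCast M
  obtain ⟨L, hL⟩ : ∃ L : ℝ → ℕ, ∀ x, L x =
      ⌊(M : ℝ) * pr (fun ω => X ω < x)⌋₊ + ⌊(M : ℝ) * pr (fun ω => X ω ≤ x)⌋₊ := ⟨_, fun _ => rfl⟩
  have hLlt : ∀ x, L x < 2 * M + 1 := by
    intro x
    rw [hL]
    have h1 := hle (fun ω => X ω < x)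
    have h2 := hle (fun ω => X ω ≤ x)
    omega
  have hLmono : Monotone L := by
    intro x y hxy
    rw [hL, hL]
    refine Nat.add_le_add (Nat.floor_le_floor ?_) (Nat.floor_le_floor ?_)
    · exact mul_le_mul_of_nonneg_left (pr_mono fun ω h => lt_of_lt_of_le h hxy) hM0.le
    · exact mul_le_mul_of_nonneg_left (pr_mono fun ω h => le_trans h hxy) hM0.le
  refine ⟨fun x => ⟨L x, hLlt x⟩, fun x y hxy => hLmono hxy, fun a b hab hlab => ?_⟩
  have hlab' : L a = L b := congrArg Fin.val hlab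
  obtain ⟨j, hj⟩ : ∃ j, j = ⌊(M : ℝ) * pr (fun ω => X ω ≤ a)⌋₊ := ⟨_, rfl⟩
  have hab' := hlab'
  rw [hL, hL] at hab'
  obtain ⟨f1, f2, f3⟩ := quant_floor X hab hab'
  rw [← hj] at f1 f2 f3
  have hx : ∀ x, L x = L a → ⌊(M : ℝ) * pr (fun ω => X ω < x)⌋₊ = j ∧
      ⌊(M : ℝ) * pr (fun ω => X ω ≤ x)⌋₊ = j := by
    intro x hx
    rcases lt_or_ge x b with h | h
    · have h1 : L x = L b := hx.trans hlab'
      rw [hL, hL] at h1
      obtain ⟨g1, g2, g3⟩ := quant_floor X h h1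
      constructor
      · rw [g1, ← g2, f2]
      · rw [← g2, f2]
    · have h1 : L a = L x := hx.symm
      rw [hL, hL] at h1
      obtain ⟨g1, g2, g3⟩ := quant_floor X (lt_of_lt_of_le hab h) h1
      rw [← hj] at g2 g3
      exact ⟨g2, g3⟩
  by_cases hne : (Finset.univ.filter fun ω : Ω => L (X ω) = L a).Nonempty
  swap
  · rw [Finset.not_nonempty_iff_eq_empty, Finset.filter_eq_empty_iff] at hne
    rw [pr_eq_zero fun ω h => hne (Finset.mem_univ ω) (congrArg Fin.val h)]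
    positivity
  · obtain ⟨ω1, hω1, hmin⟩ := Finset.exists_min_image _ X hne
    obtain ⟨ω2, hω2, hmax⟩ := Finset.exists_max_image _ X hne
    rw [Finset.mem_filter] at hω1 hω2
    obtain ⟨p1, p2⟩ := hx _ hω1.2
    obtain ⟨q1, q2⟩ := hx _ hω2.2
    have h1 : pr (fun ω => (⟨L (X ω), hLlt (X ω)⟩ : Fin (2 * M + 1)) = ⟨L a, hLlt a⟩) +
        pr (fun ω => X ω < X ω1) ≤ pr (fun ω => X ω ≤ X ω2) := by
      unfold pr
      rw [← av_add]
      refine av_mono fun ω => ?_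
      by_cases e1 : L (X ω) = L a
      · have e2 : ω ∈ Finset.univ.filter fun ω : Ω => L (X ω) = L a := by
          rw [Finset.mem_filter]
          exact ⟨Finset.mem_univ _, e1⟩
        have e3 := hmin ω e2
        have e4 := hmax ω e2
        rw [if_pos (Fin.ext e1), if_neg (not_lt.2 e3), if_pos e4]
        norm_num
      · have e2 : ¬ (⟨L (X ω), hLlt (X ω)⟩ : Fin (2 * M + 1)) = ⟨L a, hLlt a⟩ := by
          intro e3
          exact e1 (congrArg Fin.val e3)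
        rw [if_neg e2, zero_add]
        by_cases e3 : X ω < X ω1
        · have e4 := hmax ω1 (by rw [Finset.mem_filter]; exact hω1)
          rw [if_pos e3, if_pos (by linarith)]
        · rw [if_neg e3]
          split_ifs <;> norm_num
    have h2 : (M : ℝ) * pr (fun ω => X ω ≤ X ω2) < (j : ℝ) + 1 := by
      rw [← q2]
      exact Nat.lt_floor_add_one _
    have h3 : (j : ℝ) ≤ (M : ℝ) * pr (fun ω => X ω < X ω1) := by
      rw [← p1]
      exact Nat.floor_le (mul_nonneg hM0.le (pr_nonneg _))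
    rw [le_div_iff₀ hM0]
    have h4 := mul_le_mul_of_nonneg_left h1 hM0.le
    rw [mul_add] at h4
    rw [mul_comm]
    linarith

theorem bad_class {Ω α : Type} [Fintype Ω] [Nonempty Ω] (X : Ω → ℝ) {M J : ℕ} (hM : 1 ≤ M)
    (lab : ℝ → Fin (2 * M + 1)) (hmono : Monotone lab)
    (hmass : ∀ a b, a < b → lab a = lab b → pr (fun ω => lab (X ω) = lab a) ≤ 1 / M)
    (f : ℝ → α) (hf : IsStep J f) (Y : ℝ) :
    pr (fun ω => ∃ ω', lab (X ω') = lab (X ω) ∧ f (X ω' + Y) ≠ f (X ω + Y)) ≤ J / M := by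
  obtain ⟨D, hD, hDf⟩ := hf
  have hM0 : (0 : ℝ) < M := by exact_mod_cast hM
  have h1 : pr (fun ω => ∃ ω', lab (X ω') = lab (X ω) ∧ f (X ω' + Y) ≠ f (X ω + Y)) ≤
      pr (fun ω => ∃ θ ∈ D, lab (X ω) = lab (θ - Y) ∧
        ∃ lo hi : ℝ, lo < hi ∧ lab lo = lab hi ∧ lab lo = lab (θ - Y)) := by
    refine pr_mono fun ω => ?_
    rintro ⟨ω', h2, h3⟩
    have key : ∀ lo hi : ℝ, lo < hi → lab lo = lab hi → lab lo = lab (X ω) →
        f (lo + Y) ≠ f (hi + Y) → ∃ θ ∈ D, lab (X ω) = lab (θ - Y) ∧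
        ∃ lo hi : ℝ, lo < hi ∧ lab lo = lab hi ∧ lab lo = lab (θ - Y) := by
      intro lo hi hlt hl1 hl2 hne
      have h4 : ¬ ∀ y ∈ D, y < lo + Y ∨ hi + Y < y := fun h5 =>
        hne (hDf _ _ (by linarith) h5)
      push Not at h4
      obtain ⟨θ, hθ, h5, h6⟩ := h4
      have h7 : lab lo = lab (θ - Y) := by
        refine le_antisymm (hmono (by linarith)) ?_
        rw [hl1]
        exact hmono (by linarith)
      exact ⟨θ, hθ, by rw [← hl2, h7], lo, hi, hlt, hl1, h7⟩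
    rcases lt_trichotomy (X ω') (X ω) with h | h | h
    · exact key _ _ h h2 h2 h3
    · exfalso
      rw [h] at h3
      exact h3 rfl
    · exact key _ _ h h2.symm rfl h3.symm
  refine h1.trans ((pr_exists_le D _).trans ?_)
  have h2 : ∀ θ ∈ D, pr (fun ω => lab (X ω) = lab (θ - Y) ∧
      ∃ lo hi : ℝ, lo < hi ∧ lab lo = lab hi ∧ lab lo = lab (θ - Y)) ≤ 1 / M := by
    intro θ _
    by_cases h3 : ∃ lo hi : ℝ, lo < hi ∧ lab lo = lab hi ∧ lab lo = lab (θ - Y)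
    · obtain ⟨lo, hi, h4, h5, h6⟩ := h3
      refine le_trans (pr_mono fun ω h7 => ?_) (hmass lo hi h4 h5)
      rw [h6]
      exact h7.1
    · rw [pr_eq_zero fun ω h7 => h3 h7.2]
      positivity
  refine (Finset.sum_le_sum h2).trans ?_
  rw [Finset.sum_const, nsmul_eq_mul, mul_one_div]
  refine div_le_div_of_nonneg_right ?_ hM0.le
  exact_mod_cast hD

end Pool.Agent.H58.CD
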