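import Pool.Agent.H58.CD.Smooth
import Pool.Agent.H58.CD.Quant
import Pool.Agent.H58.OVPR.Yao

/-! [H58 CD GAP] A function of few step functions of sums `X r a + Y r b` does not see the planted
pair.

PROOF of `tv`. Exchange the averages (`avR` is a finite weighted sum; use `avR_eq` of `OVPR.Yao` to
write it as an average if convenient): the left side is
`avR_{u,v} av_b Σ_σ pr_a (c (update a t u) = σ) * 1[G σ (update b t' v)]` (partition according to
`σ = c (update a t u)`), at most
`avR_{u,v} av_b Σ_σ (pr_a (c a = σ) * 1[G σ (update b t' v)] + |pr (c (update a t u) = σ) - pr (c = σ)|)`.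
The first part depends only on `v`: `avR_right` makes it `av_v av_b Σ_σ pr (c = σ) 1[G σ (update b t' v)]`,
which is `av_b Σ_σ pr (c = σ) 1[G σ b]` by `av_update`, which is `av_a pr_b (G (c a) b)`. The second
part depends only on `u`: `avR_left`.
PROOF of `gap`. For each `r` take `lab r` from `quant (X r)`, and let
`c a = fun r => lab r (X r a) : S := Fin H → Fin (2M+1)`, `card S = (2M+1)^H`. Let
`K a b := dec (fun r => f r (X r a + Y r b)) = true` and `G σ b := ∃ a, c a = σ ∧ K a b`. Then
`K a b → G (c a) b`, so the left side is at most (by `tv`, for each `t`, and `smooth`)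
`m * av_a pr_b (G (c a) b) + m (4 l / m + log card S / l)`. If `G (c a) b` and not `K a b`, there is `a'`
with `c a' = c a` and `K a' b`, so for some `r`, `f r (X r a' + Y r b) ≠ f r (X r a + Y r b)` and
`lab r (X r a') = lab r (X r a)`. So
`av_a pr_b (G (c a) b) ≤ av_a pr_b (K a b) + Σ_r av_b pr_a (bad event of r) ≤ ... + H * (J / M)` by
`bad_class` for every fixed `b` (exchange the averages by `av_comm`). `log card S = H log (2M+1)`. -/

set_option autoImplicit false
set_option maxHeartbeats 4000000

namespace Pool.Agent.H58.CD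

open Pool.Agent.H58.OVAC Pool.Agent.H58.OVPR

open Classical in
private theorem gap_fiber {A S : Type} [Fintype A] [Fintype S] (c : A → S) (g : S → ℝ) :
    (av fun a => g (c a)) = ∑ σ : S, pr (fun a => c a = σ) * g σ := by
  unfold pr
  have h1 : ∀ σ : S, (av fun a => if c a = σ then (1 : ℝ) else 0) * g σ =
      av fun a => (if c a = σ then (1 : ℝ) else 0) * g σ := fun σ => (av_mul_right _ _).symm
  rw [Finset.sum_congr rfl fun σ _ => h1 σ, ← av_sum]
  refine av_congr fun a => ?_
  simp only [ite_mul, one_mul, zero_mul]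
  rw [Finset.sum_ite_eq]
  simp

private theorem gap_one {A S : Type} [Fintype A] [Fintype S] (c' c : A → S) (g : S → ℝ)
    (h0 : ∀ σ, 0 ≤ g σ) (h1 : ∀ σ, g σ ≤ 1) :
    (av fun a => g (c' a)) ≤ (av fun a => g (c a)) +
      ∑ σ : S, |pr (fun a => c' a = σ) - pr (fun a => c a = σ)| := by
  rw [gap_fiber, gap_fiber, ← Finset.sum_add_distrib]
  refine Finset.sum_le_sum fun σ _ => ?_
  have h2 : (pr (fun a => c' a = σ) - pr (fun a => c a = σ)) * g σ ≤
      |pr (fun a => c' a = σ) - pr (fun a => c a = σ)| := by
    refine (le_abs_self _).trans ?_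
    rw [abs_mul, abs_of_nonneg (h0 σ)]
    exact mul_le_of_le_one_right (abs_nonneg _) (h1 σ)
  linarith

open Classical in
theorem tv {k D m : ℕ} (hk : 2 ≤ k) {S : Type} [Fintype S] (c : (Fin m → Str k D) → S)
    (G : S → (Fin m → Str k D) → Prop) (t t' : Fin m) :
    (av fun a : Fin m → Str k D => av fun b : Fin m → Str k D => avR fun u v =>
      if G (c (Function.update a t u)) (Function.update b t' v) then (1 : ℝ) else 0) ≤
      (av fun a : Fin m → Str k D => pr fun b : Fin m → Str k D => G (c a) b) +
      av fun u : Str k D => ∑ σ : S,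
        |pr (fun a : Fin m → Str k D => c (Function.update a t u) = σ) - pr (fun a => c a = σ)| := by
  have : Nonempty (Fin k) := ⟨⟨0, by omega⟩⟩
  obtain ⟨R, hR⟩ : ∃ R : Str k D → ℝ, ∀ u, R u = ∑ σ : S,
        |pr (fun a : Fin m → Str k D => c (Function.update a t u) = σ) - pr (fun a => c a = σ)| :=
    ⟨_, fun _ => rfl⟩
  obtain ⟨Ψ, hΨ⟩ : ∃ Ψ : (Fin m → Str k D) → ℝ, ∀ b, Ψ b =
      av fun a : Fin m → Str k D => if G (c a) b then (1 : ℝ) else 0 := ⟨_, fun _ => rfl⟩
  -- exchange of the averages
  have h1 : (av fun a : Fin m → Str k D => av fun b : Fin m → Str k D => avR fun u v =>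
      if G (c (Function.update a t u)) (Function.update b t' v) then (1 : ℝ) else 0) =
      avR fun u v => av fun b : Fin m → Str k D => av fun a : Fin m → Str k D =>
      if G (c (Function.update a t u)) (Function.update b t' v) then (1 : ℝ) else 0 := by
    rw [avR_eq hk, av_comm]
    have e1 : ∀ b : Fin m → Str k D, (av fun a : Fin m → Str k D => avR fun u v =>
        if G (c (Function.update a t u)) (Function.update b t' v) then (1 : ℝ) else 0) =
        av fun z : {ab : Str k D × Str k D // Off ab.1 ab.2} => av fun a : Fin m → Str k D =>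
        if G (c (Function.update a t z.1.1)) (Function.update b t' z.1.2) then (1 : ℝ) else 0 := by
      intro b
      rw [av_comm]
      refine av_congr fun a => ?_
      rw [avR_eq hk]
    rw [av_congr e1, av_comm]
  rw [h1]
  have h2 : (avR fun u v => av fun b : Fin m → Str k D => av fun a : Fin m → Str k D =>
      if G (c (Function.update a t u)) (Function.update b t' v) then (1 : ℝ) else 0) ≤
      avR fun u v => (av fun b : Fin m → Str k D => Ψ (Function.update b t' v)) + R u := by
    refine avR_mono hk fun u v _ => ?_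
    have e1 : ∀ b : Fin m → Str k D, (av fun a : Fin m → Str k D =>
        if G (c (Function.update a t u)) (Function.update b t' v) then (1 : ℝ) else 0) ≤
        Ψ (Function.update b t' v) + R u := by
      intro b
      rw [hΨ, hR]
      exact gap_one (fun a : Fin m → Str k D => c (Function.update a t u)) c
        (fun σ => if G σ (Function.update b t' v) then (1 : ℝ) else 0)
        (fun σ => by split_ifs <;> norm_num) (fun σ => by split_ifs <;> norm_num)
    refine (av_mono e1).trans ?_
    rw [av_add, av_const]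
  refine h2.trans ?_
  rw [avR_add, avR_left hk, avR_right hk (fun v => av fun b : Fin m → Str k D =>
    Ψ (Function.update b t' v)), av_comm, av_update]
  have h3 : av Ψ = av fun a : Fin m → Str k D => pr fun b : Fin m → Str k D => G (c a) b := by
    unfold pr
    rw [av_comm]
    exact av_congr fun b => hΨ b
  rw [h3]
  refine add_le_add le_rfl (le_of_eq ?_)
  exact av_congr fun u => hR u

private theorem gap_bad {A B : Type} [Fintype A] [Nonempty A] [Fintype B] [Nonempty B]
    {H J M : ℕ} (hM : 1 ≤ M) {α : Type} (X : Fin H → A → ℝ) (Y : Fin H → B → ℝ)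
    (f : Fin H → ℝ → α) (hf : ∀ r, IsStep J (f r)) (dec : (Fin H → α) → Bool)
    (lab : Fin H → ℝ → Fin (2 * M + 1)) (hmono : ∀ r, Monotone (lab r))
    (hmass : ∀ r a b, a < b → lab r a = lab r b →
      pr (fun ω => lab r (X r ω) = lab r a) ≤ 1 / M) :
    (av fun a : A => pr fun b : B => ∃ a' : A, (fun r => lab r (X r a')) = (fun r => lab r (X r a)) ∧
      dec (fun r => f r (X r a' + Y r b)) = true) ≤
    (av fun a : A => pr fun b : B => dec (fun r => f r (X r a + Y r b)) = true) + H * (J / M) := by
  classical
  have h1 : ∀ a : A, (pr fun b : B => ∃ a' : A,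
      (fun r => lab r (X r a')) = (fun r => lab r (X r a)) ∧
      dec (fun r => f r (X r a' + Y r b)) = true) ≤
      (pr fun b : B => dec (fun r => f r (X r a + Y r b)) = true) +
      ∑ r : Fin H, pr fun b : B => ∃ a' : A, lab r (X r a') = lab r (X r a) ∧
        f r (X r a' + Y r b) ≠ f r (X r a + Y r b) := by
    intro a
    refine le_trans ?_ (add_le_add le_rfl (pr_exists_le Finset.univ
      fun (r : Fin H) (b : B) => ∃ a' : A, lab r (X r a') = lab r (X r a) ∧
        f r (X r a' + Y r b) ≠ f r (X r a + Y r b)))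
    refine le_trans (pr_mono fun b => ?_) (pr_or_le _ _)
    rintro ⟨a', h2, h3⟩
    by_cases h4 : ∃ r, f r (X r a' + Y r b) ≠ f r (X r a + Y r b)
    · obtain ⟨r, hr⟩ := h4
      exact Or.inr ⟨r, Finset.mem_univ r, a', congrFun h2 r, hr⟩
    · push Not at h4
      left
      rw [← h3]
      congr 1
      funext r
      exact (h4 r).symm
  refine (av_mono h1).trans ?_
  rw [av_add, av_sum]
  refine add_le_add le_rfl ?_
  have h2 : ∀ r ∈ (Finset.univ : Finset (Fin H)), (av fun a : A => pr fun b : B => ∃ a' : A,
      lab r (X r a') = lab r (X r a) ∧ f r (X r a' + Y r b) ≠ f r (X r a + Y r b)) ≤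
      (J : ℝ) / M := by
    intro r _
    have e1 : (av fun a : A => pr fun b : B => ∃ a' : A,
      lab r (X r a') = lab r (X r a) ∧ f r (X r a' + Y r b) ≠ f r (X r a + Y r b)) =
      av fun b : B => pr fun a : A => ∃ a' : A,
      lab r (X r a') = lab r (X r a) ∧ f r (X r a' + Y r b) ≠ f r (X r a + Y r b) := by
      unfold pr
      exact av_comm _
    rw [e1]
    exact av_le fun b => bad_class (X r) hM (lab r) (hmono r) (hmass r) (f r) (hf r) (Y r b)
  refine (Finset.sum_le_sum h2).trans (le_of_eq ?_)
  rw [Finset.sum_const, Finset.card_univ, Fintype.card_fin, nsmul_eq_mul]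

open Classical in
theorem gap {k D m H J M : ℕ} (hk : 2 ≤ k) (hm : 1 ≤ m) (hM : 1 ≤ M) {α : Type}
    (X Y : Fin H → (Fin m → Str k D) → ℝ) (f : Fin H → ℝ → α) (hf : ∀ r, IsStep J (f r))
    (dec : (Fin H → α) → Bool) {l : ℝ} (hl : 0 < l) (hlm : 2 * l ≤ m) (t' : Fin m) :
    (∑ t : Fin m, av fun a : Fin m → Str k D => av fun b : Fin m → Str k D => avR fun u v =>
      if dec (fun r => f r (X r (Function.update a t u) + Y r (Function.update b t' v))) = true
        then (1 : ℝ) else 0) ≤
      m * ((av fun a : Fin m → Str k D => pr fun b : Fin m → Str k D =>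
        dec (fun r => f r (X r a + Y r b)) = true) + H * (J / M)) +
      m * (4 * l / m + H * Real.log (2 * M + 1) / l) := by
  have : Nonempty (Fin k) := ⟨⟨0, by omega⟩⟩
  choose lab hmono hmass using fun r : Fin H => quant (X r) hM
  obtain ⟨c, hc⟩ : ∃ c : (Fin m → Str k D) → (Fin H → Fin (2 * M + 1)), ∀ a,
    c a = fun r => lab r (X r a) := ⟨_, fun _ => rfl⟩
  obtain ⟨G, hG⟩ : ∃ G : (Fin H → Fin (2 * M + 1)) → (Fin m → Str k D) → Prop, ∀ σ b,
    (G σ b ↔ ∃ a, c a = σ ∧ dec (fun r => f r (X r a + Y r b)) = true) := ⟨_, fun _ _ => Iff.rfl⟩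
  have h1 : ∀ t ∈ (Finset.univ : Finset (Fin m)),
      (av fun a : Fin m → Str k D => av fun b : Fin m → Str k D => avR fun u v =>
      if dec (fun r => f r (X r (Function.update a t u) + Y r (Function.update b t' v))) = true
        then (1 : ℝ) else 0) ≤
      (av fun a : Fin m → Str k D => pr fun b : Fin m → Str k D => G (c a) b) +
      av fun u : Str k D => ∑ σ : Fin H → Fin (2 * M + 1),
        |pr (fun a : Fin m → Str k D => c (Function.update a t u) = σ) -
          pr (fun a => c a = σ)| := by
    intro t _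
    refine le_trans ?_ (tv hk c G t t')
    refine av_mono fun a => av_mono fun b => avR_mono hk fun u v _ => ?_
    by_cases h2 : dec (fun r => f r (X r (Function.update a t u) +
        Y r (Function.update b t' v))) = true
    · rw [if_pos h2, if_pos ((hG _ _).2 ⟨_, rfl, h2⟩)]
    · rw [if_neg h2]
      split_ifs <;> norm_num
  refine (Finset.sum_le_sum h1).trans ?_
  rw [Finset.sum_add_distrib, Finset.sum_const, Finset.card_univ, Fintype.card_fin, nsmul_eq_mul]
  refine add_le_add (mul_le_mul_of_nonneg_left ?_ (Nat.cast_nonneg m)) ?_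
  · refine le_trans (le_of_eq ?_) (gap_bad hM X Y f hf dec lab hmono hmass)
    refine av_congr fun a => pr_congr fun b => ?_
    rw [hG]
    simp only [hc]
  · refine (smooth hm c hl hlm).trans (le_of_eq ?_)
    rw [Fintype.card_fun, Fintype.card_fin, Fintype.card_fin]
    push_cast
    rw [Real.log_pow]

end Pool.Agent.H58.CD
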