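import Pool.Agent.H58.CD.Net

/-! [H58 CD GRID] Squares in a grid. (Independent of everything else; only `Uni4` is used.)

PROOF of `grid`. Call the edge `(k,l)-(k+1,l)` (`k < K`, `l ≤ L`) horizontal and `(k,l)-(k,l+1)`
vertical. `Uni4` of an elementary square says: both horizontal edges are constant, or both vertical
edges are constant. If the horizontal edge at `(k,l)` is not constant, then the squares above and
below it have constant vertical edges, so the horizontal edges at `(k,l+1)`, `(k,l-1)` are not
constant either and `F k l = F k (l±1)`, `F (k+1) l = F (k+1) (l±1)`; by induction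
`F k l' = F k l` for all `l' ≤ L`. In the same way, if the vertical edge at `(k',l')` is not constant,
then `F k'' l' = F k' l'` and `F k'' (l'+1) = F k' (l'+1)` for all `k'' ≤ K`. Both together: column
`k` is constant, but `F k l' = F k' l' ≠ F k' (l'+1) = F k (l'+1)`, contradiction. So all horizontal
edges are constant (then `F 0 0 = F K 0` and `F 0 L = F K L`) or all vertical edges are constant
(then `F 0 0 = F 0 L`, `F K 0 = F K L`).
PROOF of `corner`. Suppose `f ≠ fu`. If `f ≠ fv` take the corner `f`. If `f = fv` then `fu ≠ fuv`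
(otherwise the second alternative of `Uni4` holds), take the corner `fu`. Suppose `f = fu`; then
`fv ≠ fuv`; if `fv ≠ f` take the corner `fv`; otherwise `fuv ≠ fv`, `fuv ≠ fu`, take `fuv`. -/

set_option autoImplicit false
set_option maxHeartbeats 4000000

namespace Pool.Agent.H58.CD

open Pool.Agent.H58.OVAC Pool.Agent.H58.OVPR

private theorem grid' {Y : Type} (F : ℕ → ℕ → Y) (a b : ℕ)
    (h : ∀ s < a, ∀ t < b, (F (s + 1) t = F s t ∧ F (s + 1) (t + 1) = F s (t + 1)) ∨
      (F s (t + 1) = F s t ∧ F (s + 1) (t + 1) = F (s + 1) t)) :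
    (F a 0 = F 0 0 ∧ F a b = F 0 b) ∨ (F 0 b = F 0 0 ∧ F a b = F a 0) := by
  -- a horizontal edge which is not constant propagates
  by_cases hH : ∃ s < a, ∃ t ≤ b, F (s + 1) t ≠ F s t
  · obtain ⟨s, hs, t, ht, hst⟩ := hH
    -- in the strip `s` all vertical edges are constant
    have hstep : ∀ t' < b, F (s + 1) t' ≠ F s t' →
        F s (t' + 1) = F s t' ∧ F (s + 1) (t' + 1) = F (s + 1) t' := by
      intro t' ht' h1
      rcases h s hs t' ht' with ⟨h2, -⟩ | ⟨h2, h3⟩
      · exact absurd h2 h1
      · exact ⟨h2, h3⟩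
    have hstep' : ∀ t' < b, F (s + 1) (t' + 1) ≠ F s (t' + 1) →
        F s (t' + 1) = F s t' ∧ F (s + 1) (t' + 1) = F (s + 1) t' := by
      intro t' ht' h1
      rcases h s hs t' ht' with ⟨h2, h3⟩ | ⟨h2, h3⟩
      · exact absurd h3 h1
      · exact ⟨h2, h3⟩
    have hup : ∀ k, t + k ≤ b → F (s + 1) (t + k) ≠ F s (t + k) := by
      intro k
      induction k with
      | zero => intro _; exact hst
      | succ k ih =>
        intro hk
        have h1 := ih (by omega)
        obtain ⟨h2, h3⟩ := hstep (t + k) (by omega) h1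
        rw [← Nat.add_assoc, h2, h3]
        exact h1
    have hdown : ∀ k, k ≤ t → F (s + 1) (t - k) ≠ F s (t - k) := by
      intro k
      induction k with
      | zero => intro _; exact hst
      | succ k ih =>
        intro hk
        have h1 := ih (by omega)
        have h4 : t - k = (t - (k + 1)) + 1 := by omega
        rw [h4] at h1
        obtain ⟨h2, h3⟩ := hstep' (t - (k + 1)) (by omega) h1
        rw [h2, h3] at h1
        exact h1
    have hall : ∀ t' ≤ b, F (s + 1) t' ≠ F s t' := by
      intro t' ht'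
      rcases le_total t t' with h1 | h1
      · obtain ⟨k, rfl⟩ := Nat.exists_eq_add_of_le h1
        exact hup k ht'
      · have := hdown (t - t') (by omega)
        have h2 : t - (t - t') = t' := by omega
        rwa [h2] at this
    -- so no vertical edge at all reacts
    have hV : ∀ s' ≤ a, ∀ t' < b, F s' (t' + 1) = F s' t' := by
      intro s' hs' t' ht'
      by_contra hcon
      -- propagate horizontally to column `s`
      have hr : ∀ k, s' + k ≤ a → F (s' + k) (t' + 1) ≠ F (s' + k) t' := by
        intro k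
        induction k with
        | zero => intro _; exact hcon
        | succ k ih =>
          intro hk
          have h1 := ih (by omega)
          rcases h (s' + k) (by omega) t' ht' with ⟨h2, h3⟩ | ⟨h2, h3⟩
          · rw [← Nat.add_assoc, h2, h3]
            exact h1
          · exact absurd h2 h1
      have hl : ∀ k, k ≤ s' → F (s' - k) (t' + 1) ≠ F (s' - k) t' := by
        intro k
        induction k with
        | zero => intro _; exact hcon
        | succ k ih =>
          intro hk
          have h1 := ih (by omega)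
          have h4 : s' - k = (s' - (k + 1)) + 1 := by omega
          rw [h4] at h1
          rcases h (s' - (k + 1)) (by omega) t' ht' with ⟨h2, h3⟩ | ⟨h2, h3⟩
          · rw [h2, h3] at h1
            exact h1
          · exact absurd h3 h1
      have hs'' : F s (t' + 1) ≠ F s t' := by
        rcases le_total s s' with h1 | h1
        · have := hl (s' - s) (by omega)
          have h2 : s' - (s' - s) = s := by omega
          rwa [h2] at this
        · obtain ⟨k, rfl⟩ := Nat.exists_eq_add_of_le h1
          exact hr k (by omega)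
      exact hs'' (hstep t' ht' (hall t' ht'.le)).1
    have hV' : ∀ s' ≤ a, ∀ t' ≤ b, F s' t' = F s' 0 := by
      intro s' hs' t'
      induction t' with
      | zero => intro _; rfl
      | succ t' ih =>
        intro ht'
        rw [hV s' hs' t' (by omega), ih (by omega)]
    exact Or.inr ⟨hV' 0 (Nat.zero_le _) b le_rfl, hV' a le_rfl b le_rfl⟩
  · push Not at hH
    have hH' : ∀ t ≤ b, ∀ s ≤ a, F s t = F 0 t := by
      intro t ht s
      induction s with
      | zero => intro _; rfl
      | succ s ih =>
        intro hs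
        rw [hH s (by omega) t ht, ih (by omega)]
    exact Or.inl ⟨hH' 0 (Nat.zero_le _) a le_rfl, hH' b le_rfl a le_rfl⟩

theorem grid {Y : Type} (F : ℕ → ℕ → Y) (K L : ℕ)
    (h : ∀ k < K, ∀ l < L, Uni4 (F k l) (F (k + 1) l) (F k (l + 1)) (F (k + 1) (l + 1))) :
    Uni4 (F 0 0) (F K 0) (F 0 L) (F K L) := by
  rcases grid' F K L (fun k hk l hl => by
    rcases h k hk l hl with ⟨h1, h2⟩ | ⟨h1, h2⟩
    · exact Or.inl ⟨h1.symm, h2.symm⟩
    · exact Or.inr ⟨h1.symm, h2.symm⟩) with ⟨h1, h2⟩ | ⟨h1, h2⟩
  · exact Or.inl ⟨h1.symm, h2.symm⟩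
  · exact Or.inr ⟨h1.symm, h2.symm⟩

theorem corner {Y : Type} {f fu fv fuv : Y} (h : ¬ Uni4 f fu fv fuv) :
    (f ≠ fu ∧ f ≠ fv) ∨ (fu ≠ f ∧ fu ≠ fuv) ∨ (fv ≠ fuv ∧ fv ≠ f) ∨ (fuv ≠ fv ∧ fuv ≠ fu) := by
  by_cases h1 : f = fu
  · have h2 : fv ≠ fuv := fun h3 => h (Or.inl ⟨h1, h3⟩)
    by_cases h3 : fv = f
    · exact Or.inr (Or.inr (Or.inr ⟨h2.symm, fun h4 => h2 (by rw [h3, h4, h1])⟩))
    · exact Or.inr (Or.inr (Or.inl ⟨h2, h3⟩))
  · by_cases h2 : f = fv
    · have h3 : fu ≠ fuv := fun h4 => h (Or.inr ⟨h2, h4⟩)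
      exact Or.inr (Or.inl ⟨fun h4 => h1 h4.symm, h3⟩)
    · exact Or.inl ⟨h1, h2⟩

end Pool.Agent.H58.CD
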