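import Pool.Agent.H58.CD.First

/-! The first gate which depends on both moves. -/

set_option autoImplicit false
set_option maxHeartbeats 4000000

namespace Pool.Agent.H58.CD

open Pool.Agent.H58.OVAC Pool.Agent.H58.OVPR

variable {ι Ω : Type} {s T : ℕ}

theorem Uni4.comp {Y Z : Type} {a b c d : Y} (h : Uni4 a b c d) (f : Y → Z) :
    Uni4 (f a) (f b) (f c) (f d) := by
  rcases h with ⟨h1, h2⟩ | ⟨h1, h2⟩
  · exact Or.inl ⟨congrArg f h1, congrArg f h2⟩
  · exact Or.inr ⟨congrArg f h1, congrArg f h2⟩

theorem ev_uni (N : Net ι Ω s T) {x xu xv xuv : Ω} (hin : ∀ i, Uni (N.inp i) x xu xv xuv)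
    (hv : ∀ g, Uni (N.val g) x xu xv xuv) (z : ι ⊕ Fin s) : Uni (N.ev z) x xu xv xuv := by
  rcases z with i | g
  · exact hin i
  · exact hv g

/-- The case analysis: a gate which depends on both moves although its literals do not. -/
theorem hit_of_not_uni [Fintype ι] (N : Net ι Ω s T) {x xu xv xuv : Ω} (g : Fin s)
    (hl : ∀ q ∈ N.lits g, Uni (N.ev q.1) x xu xv xuv) (hg : ¬ Uni (N.val g) x xu xv xuv) :
    Hit N g x xu xv := by
  have ht : ∀ w, N.val g w = true ↔ ∀ q ∈ N.lits g, N.ev q.1 w = q.2 := N.val_iff g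
  have hf : ∀ w, N.val g w = false → ∃ q ∈ N.lits g, N.ev q.1 w ≠ q.2 := by
    intro w hw
    by_contra hcon
    push Not at hcon
    rw [(ht w).2 hcon] at hw
    exact absurd hw (by decide)
  have hbool : ∀ a b c : Bool, a ≠ c → b ≠ c → a = b := by decide
  cases g0 : N.val g x with
  | true =>
    have t0 := (ht x).1 g0
    cases g1 : N.val g xu with
    | true =>
      have t1 := (ht xu).1 g1
      cases g2 : N.val g xv with
      | true =>
        have t2 := (ht xv).1 g2
        exfalso
        apply hg
        have g3 : N.val g xuv = true := by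
          rw [ht]
          intro q hq
          rcases hl q hq with ⟨h1, h2⟩ | ⟨h1, h2⟩
          · rw [← h2]; exact t2 q hq
          · rw [← h2]; exact t1 q hq
        exact Or.inl ⟨by rw [g0, g1], by rw [g2, g3]⟩
      | false =>
        exfalso
        apply hg
        have g3 : N.val g xuv = false := by
          obtain ⟨q, hq, h3⟩ := hf xv g2
          rw [Bool.eq_false_iff]
          intro h4
          have h5 := (ht xuv).1 h4 q hq
          rcases hl q hq with ⟨h1, h2⟩ | ⟨h1, h2⟩
          · exact h3 (by rw [h2]; exact h5)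
          · exact h3 (by rw [← h1]; exact t0 q hq)
        exact Or.inl ⟨by rw [g0, g1], by rw [g2, g3]⟩
    | false =>
      cases g2 : N.val g xv with
      | true =>
        have t2 := (ht xv).1 g2
        exfalso
        apply hg
        have g3 : N.val g xuv = false := by
          obtain ⟨q, hq, h3⟩ := hf xu g1
          rw [Bool.eq_false_iff]
          intro h4
          have h5 := (ht xuv).1 h4 q hq
          rcases hl q hq with ⟨h1, h2⟩ | ⟨h1, h2⟩
          · exact h3 (by rw [← h1]; exact t0 q hq)
          · exact h3 (by rw [h2]; exact h5)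
        exact Or.inr ⟨by rw [g0, g2], by rw [g1, g3]⟩
      | false => exact Or.inl ⟨g0, g1, g2⟩
  | false =>
    cases g1 : N.val g xu with
    | true =>
      have t1 := (ht xu).1 g1
      cases g2 : N.val g xv with
      | true =>
        have t2 := (ht xv).1 g2
        exfalso
        obtain ⟨q, hq, h3⟩ := hf x g0
        rcases hl q hq with ⟨h1, h2⟩ | ⟨h1, h2⟩
        · exact h3 (by rw [h1]; exact t1 q hq)
        · exact h3 (by rw [h1]; exact t2 q hq)
      | false =>
        cases g3 : N.val g xuv with
        | true =>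
          exfalso
          exact hg (Or.inr ⟨by rw [g0, g2], by rw [g1, g3]⟩)
        | false =>
          obtain ⟨q, hq, h3⟩ := hf xuv g3
          refine Or.inr (Or.inl ⟨g0, g1, q, hq, ?_⟩)
          rcases hl q hq with ⟨h1, h2⟩ | ⟨h1, h2⟩
          · exact ⟨by rw [h1]; exact t1 q hq, by rw [h2]; exact h3⟩
          · exact absurd (by rw [← h2]; exact t1 q hq) h3
    | false =>
      cases g2 : N.val g xv with
      | true =>
        have t2 := (ht xv).1 g2
        cases g3 : N.val g xuv with
        | true =>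
          exfalso
          exact hg (Or.inl ⟨by rw [g0, g1], by rw [g2, g3]⟩)
        | false =>
          obtain ⟨q, hq, h3⟩ := hf xuv g3
          refine Or.inr (Or.inr (Or.inl ⟨g0, g2, q, hq, ?_⟩))
          rcases hl q hq with ⟨h1, h2⟩ | ⟨h1, h2⟩
          · exact absurd (by rw [← h2]; exact t2 q hq) h3
          · exact ⟨by rw [h1]; exact t2 q hq, by rw [h2]; exact h3⟩
      | false =>
        cases g3 : N.val g xuv with
        | false =>
          exfalso
          exact hg (Or.inl ⟨by rw [g0, g1], by rw [g2, g3]⟩)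
        | true =>
          have t3 := (ht xuv).1 g3
          have hfirst : ∀ w, N.val g w = false → ∃ q, N.first g w = some q ∧
              q ∈ N.lits g ∧ N.ev q.1 w ≠ q.2 := by
            intro w hw
            cases hq : N.first g w with
            | none =>
              rw [N.first_eq_none_iff, hw] at hq
              exact absurd hq (by decide)
            | some q => exact ⟨q, rfl, ((first_eq_some_iff N g w q).1 hq).1⟩
          obtain ⟨q₀, e0, m0, n0⟩ := hfirst x g0
          rcases hl q₀ m0 with ⟨h1, h2⟩ | ⟨h1, h2⟩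
          · -- `q₀` depends on the second move
            obtain ⟨q, e1, m1, n1⟩ := hfirst xv g2
            refine Or.inr (Or.inr (Or.inr (Or.inr ⟨q₀, q, e0, e1, ?_, ?_⟩)))
            · rw [h2]; exact t3 q₀ m0
            · rcases hl q m1 with ⟨h3, h4⟩ | ⟨h3, h4⟩
              · exact absurd (by rw [h4]; exact t3 q m1) n1
              · rw [h4, h3, t3 q m1]
                exact n1.symm
          · obtain ⟨q, e1, m1, n1⟩ := hfirst xu g1
            refine Or.inr (Or.inr (Or.inr (Or.inl ⟨q₀, q, e0, e1, ?_, ?_⟩)))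
            · rw [h2]; exact t3 q₀ m0
            · rcases hl q m1 with ⟨h3, h4⟩ | ⟨h3, h4⟩
              · rw [h4, h3, t3 q m1]
                exact n1.symm
              · exact absurd (by rw [h4]; exact t3 q m1) n1

/-- (U1) If some gate depends on both moves, then some two-sided gate causes trouble. -/
theorem exists_hit [Fintype ι] (N : Net ι Ω s T) {x xu xv xuv : Ω} (two : Fin s → Prop)
    (hin : ∀ i, Uni (N.inp i) x xu xv xuv) (htwo : ∀ g, ¬ two g → Uni (N.val g) x xu xv xuv)
    (h : ∃ g, ¬ Uni (N.val g) x xu xv xuv) : ∃ g, two g ∧ Hit N g x xu xv := by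
  classical
  obtain ⟨g, hg, hmin⟩ := Finset.exists_min_image
    (Finset.univ.filter fun g => ¬ Uni (N.val g) x xu xv xuv) (fun g => N.layer g) (by
      obtain ⟨g, hg⟩ := h
      exact ⟨g, Finset.mem_filter.2 ⟨Finset.mem_univ _, hg⟩⟩)
  have hg' := (Finset.mem_filter.1 hg).2
  refine ⟨g, by_contra fun h1 => hg' (htwo g h1), hit_of_not_uni N g (fun q hq => ?_) hg'⟩
  obtain ⟨z, b⟩ := q
  rcases z with i | k
  · exact hin i
  · by_contra hcon
    have h1 := hmin k (Finset.mem_filter.2 ⟨Finset.mem_univ _, hcon⟩)
    exact absurd (N.lower g _ hq k rfl) (not_lt.2 h1)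

/-- (U2) If some two-sided gate causes trouble, then the first false literal of some two-sided
gate depends on both moves. -/
theorem exists_first_of_hit [Fintype ι] (N : Net ι Ω s T) {x xu xv xuv : Ω} (two : Fin s → Prop)
    (hin : ∀ i, Uni (N.inp i) x xu xv xuv) (htwo : ∀ g, ¬ two g → Uni (N.val g) x xu xv xuv)
    (h : ∃ g, two g ∧ Hit N g x xu xv) : ∃ g, two g ∧ ¬ Uni (N.first g) x xu xv xuv := by
  classical
  by_contra hcon
  push Not at hcon
  obtain ⟨g, hg, hh⟩ := h
  have hv : ∀ g, Uni (N.val g) x xu xv xuv := by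
    intro k
    by_cases hk : two k
    · have h1 := hcon k hk
      have e : ∀ w, N.val k w = (N.first k w).isNone := by
        intro w
        have h2 := N.first_eq_none_iff k w
        cases h3 : N.first k w with
        | none =>
          rw [h3] at h2
          simpa using h2.1 rfl
        | some q =>
          rw [h3] at h2
          cases h4 : N.val k w with
          | false => rfl
          | true => exact absurd (h2.2 h4) (by simp)
      have h2 : Uni4 ((N.first k x).isNone) ((N.first k xu).isNone) ((N.first k xv).isNone)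
        ((N.first k xuv).isNone) := Uni4.comp h1 fun o => o.isNone
      unfold Uni
      rw [e, e, e, e]
      exact h2
    · exact htwo k hk
  have hev := ev_uni N hin hv
  have hvg := hv g
  have hfg := hcon g hg
  have ht : ∀ w, N.val g w = true ↔ ∀ q ∈ N.lits g, N.ev q.1 w = q.2 := N.val_iff g
  rcases hh with ⟨a0, a1, a2⟩ | ⟨a0, a1, q, hq, a2, a3⟩ | ⟨a0, a1, q, hq, a2, a3⟩ |
    ⟨q₀, q, a0, a1, a2, a3⟩ | ⟨q₀, q, a0, a1, a2, a3⟩
  · rcases hvg with ⟨h1, h2⟩ | ⟨h1, h2⟩
    · rw [a0, a1] at h1
      exact absurd h1 (by decide)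
    · rw [a0, a2] at h1
      exact absurd h1 (by decide)
  · have b3 : N.ev q.1 xuv ≠ q.2 := by
      rcases hev q.1 with ⟨h1, h2⟩ | ⟨h1, h2⟩
      · rw [← h2]; exact a3
      · exact absurd (by rw [← h1]; exact a2) a3
    have b4 : N.val g xuv = false := by
      rw [Bool.eq_false_iff]
      intro h4
      exact b3 ((ht xuv).1 h4 q hq)
    rcases hvg with ⟨h1, h2⟩ | ⟨h1, h2⟩
    · rw [a0, a1] at h1
      exact absurd h1 (by decide)
    · rw [a1, b4] at h2
      exact absurd h2 (by decide)
  · have b3 : N.ev q.1 xuv ≠ q.2 := by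
      rcases hev q.1 with ⟨h1, h2⟩ | ⟨h1, h2⟩
      · exact absurd (by rw [← h1]; exact a2) a3
      · rw [← h2]; exact a3
    have b4 : N.val g xuv = false := by
      rw [Bool.eq_false_iff]
      intro h4
      exact b3 ((ht xuv).1 h4 q hq)
    rcases hvg with ⟨h1, h2⟩ | ⟨h1, h2⟩
    · rw [a1, b4] at h2
      exact absurd h2 (by decide)
    · rw [a0, a1] at h1
      exact absurd h1 (by decide)
  · obtain ⟨⟨m1, n1⟩, -⟩ := (first_eq_some_iff N g xu q).1 a1
    rcases hev q.1 with ⟨h1, h2⟩ | ⟨h1, h2⟩
    · have c1 : N.first g xuv ≠ some q := by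
        intro h3
        obtain ⟨⟨-, n2⟩, -⟩ := (first_eq_some_iff N g xuv q).1 h3
        rw [← h2] at n2
        rw [h1] at a3
        revert n1 n2 a3
        cases N.ev q.1 xv <;> cases N.ev q.1 xu <;> cases q.2 <;> decide
      rcases hfg with ⟨h3, h4⟩ | ⟨h3, h4⟩
      · rw [a0, a1] at h3
        have h5 : q₀ = q := Option.some.inj h3
        rw [h5] at a2
        exact n1 a2
      · exact c1 (by rw [← h4, a1])
    · exact a3 h1.symm
  · obtain ⟨⟨m1, n1⟩, -⟩ := (first_eq_some_iff N g xv q).1 a1
    rcases hev q.1 with ⟨h1, h2⟩ | ⟨h1, h2⟩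
    · exact a3 h1.symm
    · have c1 : N.first g xuv ≠ some q := by
        intro h3
        obtain ⟨⟨-, n2⟩, -⟩ := (first_eq_some_iff N g xuv q).1 h3
        rw [← h2] at n2
        rw [h1] at a3
        revert n1 n2 a3
        cases N.ev q.1 xv <;> cases N.ev q.1 xu <;> cases q.2 <;> decide
      rcases hfg with ⟨h3, h4⟩ | ⟨h3, h4⟩
      · exact c1 (by rw [← h4, a1])
      · rw [a0, a1] at h3
        have h5 : q₀ = q := Option.some.inj h3
        rw [h5] at a2
        exact n1 a2

end Pool.Agent.H58.CD
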