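import Pool.Agent.H58.OVAC.Avg

/-! [H58 CD MGF] Sub-Gaussian sums on a finite product space, and the entropy inequality.
(Mathlib only in substance: `av` is the average over a finite type, `pr` the probability.)

PROOF of `av_prod_fun`: `Σ_a Π_t f t (a t) = Π_t Σ_u f t u` (`Finset.prod_univ_sum`, `Fintype.piFinset_univ`)
and `card (Fin m → Z) = (card Z)^m`.
PROOF of `mgf`: `exp (x Σ_t h t (a t)) = Π_t exp (x h t (a t))`, so the average is
`Π_t av (exp (x h t))`. With `w = x h t u`, `|w| ≤ 1`, we have `exp w ≤ 1 + w + w^2`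
(`Real.abs_exp_sub_one_sub_id_le` or `Real.exp_bound'`), so `av (exp (x h t)) ≤ 1 + x * 0 + 4 x^2 ≤
exp (4 x^2)`. (If `Z` is empty then `m = 0` or `av = 0`; `Nonempty Z` is assumed.)
PROOF of `ent_step`: let `p = pr s`. If `p = 0` then the left side is `0`. Otherwise by convexity of
`exp` (Jensen, `convexOn_exp.map_sum_le` with the weights `1_s(ω) / (card Ω * p)`, or: for every real
`c`, `exp z ≥ exp c (1 + (z - c))`, multiplied by `1_s` and averaged, with
`c = λ E[1_s Z] / p`): `p exp (λ E[1_s Z] / p) ≤ E[1_s exp (λ Z)] ≤ E[exp (λ Z)] ≤ exp B`. Take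
logarithms: `λ E[1_s Z] / p ≤ B - log p`, and multiply by `p / λ`.
`Real.negMulLog p = - p * log p`.
PROOF of `ent_sum`: `negMulLog p_σ = p_σ log (1/p_σ)`; for `p > 0`,
`p log (1 / (p N)) ≤ p (1 / (p N) - 1) = 1/N - p` (`Real.log_le_sub_one_of_pos`), for `p = 0` the same
inequality holds; the sum over `σ` with `N = card Σ` gives `Σ negMulLog p_σ - log N * 1 ≤ 0`. -/

set_option autoImplicit false
set_option maxHeartbeats 4000000

namespace Pool.Agent.H58.CD

open Pool.Agent.H58.OVAC

theorem av_prod_fun {Z : Type} [Fintype Z] {m : ℕ} (f : Fin m → Z → ℝ) :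
    (av fun a : Fin m → Z => ∏ t, f t (a t)) = ∏ t, av (f t) := by
  classical
  unfold av
  have h1 : ∑ a : Fin m → Z, ∏ t, f t (a t) = ∏ t, ∑ u, f t u := by
    rw [Finset.prod_univ_sum, Fintype.piFinset_univ]
  rw [h1, Finset.prod_div_distrib, Finset.prod_const, Finset.card_univ, Fintype.card_fin,
    Fintype.card_fun, Fintype.card_fin]
  push_cast
  rfl

theorem mgf {Z : Type} [Fintype Z] [Nonempty Z] {m : ℕ} (h : Fin m → Z → ℝ)
    (h0 : ∀ t, av (h t) = 0) (h2 : ∀ t u, |h t u| ≤ 2) {x : ℝ} (hx0 : 0 ≤ x) (hx : 2 * x ≤ 1) :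
    (av fun a : Fin m → Z => Real.exp (x * ∑ t, h t (a t))) ≤ Real.exp (4 * x ^ 2 * m) := by
  have e1 : (fun a : Fin m → Z => Real.exp (x * ∑ t, h t (a t))) =
      fun a : Fin m → Z => ∏ t, (fun t u => Real.exp (x * h t u)) t (a t) := by
    funext a
    rw [Finset.mul_sum, Real.exp_sum]
  rw [e1, av_prod_fun (fun t u => Real.exp (x * h t u))]
  have e2 : ∀ t ∈ (Finset.univ : Finset (Fin m)),
      av ((fun t u => Real.exp (x * h t u)) t) ≤ Real.exp (4 * x ^ 2) := by
    intro t _
    have e3 : av ((fun t u => Real.exp (x * h t u)) t) ≤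
        av (fun u => (1 + x * h t u) + 4 * x ^ 2) := by
      refine av_mono fun u => ?_
      have hw : |x * h t u| ≤ 2 * x := by
        rw [abs_mul, abs_of_nonneg hx0]
        nlinarith [h2 t u]
      have h4 := (abs_le.mp (Real.abs_exp_sub_one_sub_id_le (hw.trans hx))).2
      have h5 : (x * h t u) ^ 2 ≤ (2 * x) ^ 2 := by
        rw [← sq_abs (x * h t u)]
        exact pow_le_pow_left₀ (abs_nonneg _) hw 2
      show Real.exp (x * h t u) ≤ (1 + x * h t u) + 4 * x ^ 2
      nlinarith
    have e4 : av (fun u => (1 + x * h t u) + 4 * x ^ 2) = 1 + 4 * x ^ 2 := by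
      rw [av_add, av_add, av_const, av_const, av_mul_left, h0 t]
      ring
    rw [e4] at e3
    refine e3.trans ?_
    have := Real.add_one_le_exp (4 * x ^ 2)
    linarith
  refine (Finset.prod_le_prod (fun t _ => av_nonneg fun u => (Real.exp_pos _).le) e2).trans ?_
  rw [Finset.prod_const, Finset.card_univ, Fintype.card_fin, ← Real.exp_nat_mul]
  refine Real.exp_le_exp.mpr (le_of_eq ?_)
  ring

open Classical in
theorem ent_step {Ω : Type} [Fintype Ω] [Nonempty Ω] (s : Ω → Prop) (Z : Ω → ℝ) {l B : ℝ}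
    (hl : 0 < l) (hB : (av fun ω => Real.exp (l * Z ω)) ≤ Real.exp B) :
    (av fun ω => (if s ω then (1 : ℝ) else 0) * Z ω) ≤ (pr s * B + Real.negMulLog (pr s)) / l := by
  have hp0 : 0 ≤ pr s := av_nonneg fun ω => by split_ifs <;> norm_num
  rcases hp0.eq_or_lt with hp | hp
  · have hsum : ∑ ω : Ω, (if s ω then (1 : ℝ) else 0) = 0 := by
      have h1 : (∑ ω : Ω, (if s ω then (1 : ℝ) else 0)) / (Fintype.card Ω : ℝ) = 0 := hp.symm
      have h2 : (Fintype.card Ω : ℝ) ≠ 0 := by
        exact_mod_cast Fintype.card_ne_zero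
      rcases div_eq_zero_iff.mp h1 with h | h
      · exact h
      · exact absurd h h2
    have hz : ∀ ω : Ω, (if s ω then (1 : ℝ) else 0) = 0 := by
      intro ω
      exact (Finset.sum_eq_zero_iff_of_nonneg (fun ω _ => by split_ifs <;> norm_num)).mp hsum ω
        (Finset.mem_univ ω)
    have hz2 : (av fun ω => (if s ω then (1 : ℝ) else 0) * Z ω) = 0 := by
      have : (fun ω => (if s ω then (1 : ℝ) else 0) * Z ω) = fun _ : Ω => (0 : ℝ) := by
        funext ω
        rw [hz ω, zero_mul]
      rw [this, av_const]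
    rw [hz2, ← hp]
    simp
  · set E := av fun ω => (if s ω then (1 : ℝ) else 0) * Z ω with hE
    set c := l * E / pr s with hc
    have h1 : av (fun ω => (if s ω then (1 : ℝ) else 0) * (Real.exp c * (1 + (l * Z ω - c)))) ≤
        Real.exp B := by
      refine le_trans (av_mono fun ω => ?_) hB
      have h3 : Real.exp c * (1 + (l * Z ω - c)) ≤ Real.exp (l * Z ω) := by
        have h4 := Real.add_one_le_exp (l * Z ω - c)
        have h5 : Real.exp (l * Z ω) = Real.exp c * Real.exp (l * Z ω - c) := by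
          rw [← Real.exp_add]
          congr 1
          ring
        rw [h5]
        refine mul_le_mul_of_nonneg_left ?_ (Real.exp_pos c).le
        linarith
      split_ifs
      · rw [one_mul]
        exact h3
      · rw [zero_mul]
        exact (Real.exp_pos _).le
    have h2 : av (fun ω => (if s ω then (1 : ℝ) else 0) * (Real.exp c * (1 + (l * Z ω - c)))) =
        Real.exp c * pr s := by
      have h3 : (fun ω => (if s ω then (1 : ℝ) else 0) * (Real.exp c * (1 + (l * Z ω - c)))) =
          fun ω => (Real.exp c * (1 - c)) * (if s ω then (1 : ℝ) else 0) +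
            (Real.exp c * l) * ((if s ω then (1 : ℝ) else 0) * Z ω) := by
        funext ω
        ring
      rw [h3, av_add, av_mul_left, av_mul_left]
      have h4 : (av fun ω => (if s ω then (1 : ℝ) else 0)) = pr s := rfl
      rw [h4, ← hE]
      have h5 : l * E = c * pr s := by
        rw [hc]
        field_simp
      linear_combination (Real.exp c) * h5
    rw [h2] at h1
    have h6 : c + Real.log (pr s) ≤ B := by
      have h7 := Real.log_le_log (mul_pos (Real.exp_pos c) hp) h1
      rwa [Real.log_mul (Real.exp_pos c).ne' hp.ne', Real.log_exp, Real.log_exp] at h7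
    rw [le_div_iff₀ hl, Real.negMulLog]
    have h8 : l * E = c * pr s := by
      rw [hc]
      field_simp
    nlinarith [mul_le_mul_of_nonneg_right h6 hp.le]

theorem ent_sum {S : Type} [Fintype S] [Nonempty S] (p : S → ℝ) (h0 : ∀ σ, 0 ≤ p σ)
    (h1 : ∑ σ, p σ = 1) : ∑ σ, Real.negMulLog (p σ) ≤ Real.log (Fintype.card S) := by
  have hN : (0 : ℝ) < (Fintype.card S : ℝ) := by
    exact_mod_cast Fintype.card_pos
  have h2 : ∀ σ ∈ (Finset.univ : Finset S), Real.negMulLog (p σ) ≤
      p σ * Real.log (Fintype.card S) + (1 / (Fintype.card S : ℝ) - p σ) := by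
    intro σ _
    rcases (h0 σ).eq_or_lt with h | h
    · rw [← h]
      simp
    · have h3 := Real.log_le_sub_one_of_pos
        (show (0 : ℝ) < 1 / (p σ * (Fintype.card S : ℝ)) by positivity)
      rw [one_div, Real.log_inv, Real.log_mul h.ne' hN.ne'] at h3
      have h4 := mul_le_mul_of_nonneg_left h3 h.le
      have h5 : p σ * ((p σ * (Fintype.card S : ℝ))⁻¹ - 1) = 1 / (Fintype.card S : ℝ) - p σ := by
        field_simp
      rw [h5] at h4
      rw [Real.negMulLog]
      nlinarith
  refine (Finset.sum_le_sum h2).trans ?_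
  rw [Finset.sum_add_distrib, ← Finset.sum_mul, h1, Finset.sum_sub_distrib, h1, Finset.sum_const,
    Finset.card_univ, nsmul_eq_mul]
  have h3 : (Fintype.card S : ℝ) * (1 / (Fintype.card S : ℝ)) = 1 := by
    field_simp
  rw [h3]
  linarith

end Pool.Agent.H58.CD
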