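import Pool.Agent.H58.OVPR.Menu

/-! Circuits of AND gates with negations as families of functions of the input, the first false
literal of a gate, four points. -/

set_option autoImplicit false
set_option maxHeartbeats 4000000

namespace Pool.Agent.H58.CD

open Pool.Agent.H58.OVAC Pool.Agent.H58.OVPR

/-- A circuit on the input space `Ω`, with the input functions `inp` and the gates `Fin s` in `T`
layers. A gate is the AND of its literals `(z, b)` (meaning: the value of `z` is `b`), where `z` is
an input or a gate of a lower layer. -/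
structure Net (ι Ω : Type) (s T : ℕ) where
  inp : ι → Ω → Bool
  lits : Fin s → Finset ((ι ⊕ Fin s) × Bool)
  layer : Fin s → Fin T
  lower : ∀ g, ∀ q ∈ lits g, ∀ h, q.1 = Sum.inr h → layer h < layer g
  val : Fin s → Ω → Bool
  val_iff : ∀ g x, val g x = true ↔ ∀ q ∈ lits g, Sum.elim (fun i => inp i x) (fun h => val h x) q.1 = q.2

namespace Net

variable {ι Ω Ω' : Type} {s T : ℕ}

/-- The value of an input or a gate. -/
def ev (N : Net ι Ω s T) (z : ι ⊕ Fin s) (x : Ω) : Bool :=
  Sum.elim (fun i => N.inp i x) (fun h => N.val h x) z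

/-- Change of the input space. -/
def comp (N : Net ι Ω s T) (ρ : Ω' → Ω) : Net ι Ω' s T where
  inp i x := N.inp i (ρ x)
  lits := N.lits
  layer := N.layer
  lower := N.lower
  val g x := N.val g (ρ x)
  val_iff g x := N.val_iff g (ρ x)

variable [Fintype ι]

/-- An enumeration of the literals. -/
noncomputable def enum (ι : Type) [Fintype ι] (s : ℕ) :
    ((ι ⊕ Fin s) × Bool) ≃ Fin (Fintype.card ((ι ⊕ Fin s) × Bool)) :=
  Fintype.equivFin _

open Classical in
/-- The first false literal of a gate, if any. -/
noncomputable def first (N : Net ι Ω s T) (g : Fin s) (x : Ω) : Option ((ι ⊕ Fin s) × Bool) :=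
  ((List.finRange (Fintype.card ((ι ⊕ Fin s) × Bool))).find? fun k =>
    decide ((enum ι s).symm k ∈ N.lits g ∧
      N.ev ((enum ι s).symm k).1 x ≠ ((enum ι s).symm k).2)).map (enum ι s).symm

end Net

/-- The function with the values `f, fu, fv, fuv` at the four points `x, xu, xv, xuv` depends on
one of the two moves only. -/
def Uni4 {Y : Type} (f fu fv fuv : Y) : Prop := (f = fu ∧ fv = fuv) ∨ (f = fv ∧ fu = fuv)

/-- `f` depends on one of the two moves only. -/
def Uni {Ω Y : Type} (f : Ω → Y) (x xu xv xuv : Ω) : Prop := Uni4 (f x) (f xu) (f xv) (f xuv)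

/-- The four ways in which a gate causes trouble; each of them is the conjunction of a condition on
`xu` and a condition on `xv`. -/
def Hit {ι Ω : Type} {s T : ℕ} [Fintype ι] (N : Net ι Ω s T) (g : Fin s) (x xu xv : Ω) : Prop :=
  (N.val g x = true ∧ N.val g xu = false ∧ N.val g xv = false) ∨
  (N.val g x = false ∧ N.val g xu = true ∧ ∃ q ∈ N.lits g, N.ev q.1 x = q.2 ∧ N.ev q.1 xv ≠ q.2) ∨
  (N.val g x = false ∧ N.val g xv = true ∧ ∃ q ∈ N.lits g, N.ev q.1 x = q.2 ∧ N.ev q.1 xu ≠ q.2) ∨
  (∃ q₀ q, N.first g x = some q₀ ∧ N.first g xu = some q ∧ N.ev q₀.1 xu = q₀.2 ∧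
    N.ev q.1 xv ≠ N.ev q.1 x) ∨
  (∃ q₀ q, N.first g x = some q₀ ∧ N.first g xv = some q ∧ N.ev q₀.1 xv = q₀.2 ∧
    N.ev q.1 xu ≠ N.ev q.1 x)

/-- The positions of the coordinates: the list, the index of the vector, the coordinate. -/
abbrev Co (n D : ℕ) : Type := (Bool × Fin n) × Fin D

/-- `f` depends only on one of the two lists. -/
def OneSided {n D : ℕ} {X Y : Type} (f : (Co n D → X) → Y) : Prop :=
  ∃ b : Bool, ∀ x x' : Co n D → X, (∀ p, p.1.1 = b → x p = x' p) → f x = f x'

/-- The coordinates of the block `a` of the list `b`: the vectors `a m, ..., a m + m - 1`. -/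
def blk (n D m : ℕ) (b : Bool) (a : ℕ) : Finset (Co n D) :=
  Finset.univ.filter fun p => p.1.1 = b ∧ a * m ≤ p.1.2.1 ∧ p.1.2.1 < a * m + m

/-- Replace the vectors at the positions `i` of the list `A` and `j` of the list `B`. -/
def plant {n D : ℕ} {X : Type} (y : Co n D → X) (i j : Fin n) (u v : Fin D → X) : Co n D → X :=
  fun p => if p.1 = (false, i) then u p.2 else if p.1 = (true, j) then v p.2 else y p

/-- Some gate depends on both moves on the four points given by the base point `y`, the new values
`y'` and the blocks `a` of `A` and `b` of `B`. -/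
def Bad4 {ι X : Type} {n D s T : ℕ} (N : Net ι (Co n D → X) s T) (m : ℕ) (a b : ℕ)
    (y y' : Co n D → X) : Prop :=
  ∃ g, ¬ Uni (N.val g) y (mix (blk n D m false a) y' y) (mix (blk n D m true b) y' y)
    (mix (blk n D m false a ∪ blk n D m true b) y' y)

section

variable {ι Ω : Type} {s T : ℕ} [Fintype ι]

/-- Properties of the first false literal. -/
theorem Net.first_eq_none_iff (N : Net ι Ω s T) (g : Fin s) (x : Ω) :
    N.first g x = none ↔ N.val g x = true := by
  classical
  unfold Net.first
  rw [Option.map_eq_none_iff, List.find?_eq_none, N.val_iff]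
  constructor
  · intro h q hq
    have h1 := h (Net.enum ι s q) (List.mem_finRange _)
    simp only [Equiv.symm_apply_apply, decide_eq_true_eq, not_and, not_not] at h1
    exact h1 hq
  · intro h k _
    simp only [decide_eq_true_eq, not_and, not_not]
    intro hk
    exact h _ hk

end

end Pool.Agent.H58.CD
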