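import Pool.Agent.H58.CD.Sets
import Pool.Agent.H58.CD.Marg
import Pool.Agent.H58.OVPR.Main

/-! Trouble under the planted law, one pair of blocks. -/

set_option autoImplicit false
set_option maxHeartbeats 4000000

namespace Pool.Agent.H58.CD

open Pool.Agent.H58.OVAC Pool.Agent.H58.OVPR

/-- Some two-sided gate causes trouble when the two vectors are replaced. -/
def HitS {ι X : Type} {n D s T : ℕ} [Fintype ι] (N : Net ι (Co n D → X) s T) (i j : Fin n)
    (x : Co n D → X) (u v : Fin D → X) : Prop :=
  ∃ g, g ∈ twoS N ∧ Hit N g x (pos x (false, i) u) (pos x (true, j) v)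

section

variable {ι X : Type} {n D s T : ℕ}

private theorem mix_two_left (i : Fin n) (z x : Co n D → X) :
    mix (Finset.univ.filter fun q : Co n D => q.1 = (false, i)) z x =
      pos x (false, i) fun k => z ((false, i), k) := by
  funext q
  unfold mix pos
  by_cases hq : q.1 = (false, i)
  · have h1 : q ∈ Finset.univ.filter fun q : Co n D => q.1 = (false, i) :=
      Finset.mem_filter.2 ⟨Finset.mem_univ _, hq⟩
    simp only [if_pos h1, if_pos hq]
    rw [← hq]
  · have h1 : q ∉ Finset.univ.filter fun q : Co n D => q.1 = (false, i) :=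
      fun h => hq (Finset.mem_filter.1 h).2
    simp only [if_neg h1, if_neg hq]

private theorem mix_two_right (j : Fin n) (z x : Co n D → X) :
    mix (Finset.univ.filter fun q : Co n D => q.1 = (true, j)) z x =
      pos x (true, j) fun k => z ((true, j), k) := by
  funext q
  unfold mix pos
  by_cases hq : q.1 = (true, j)
  · have h1 : q ∈ Finset.univ.filter fun q : Co n D => q.1 = (true, j) :=
      Finset.mem_filter.2 ⟨Finset.mem_univ _, hq⟩
    simp only [if_pos h1, if_pos hq]
    rw [← hq]
  · have h1 : q ∉ Finset.univ.filter fun q : Co n D => q.1 = (true, j) :=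
      fun h => hq (Finset.mem_filter.1 h).2
    simp only [if_neg h1, if_neg hq]

private theorem mix_two_both (i j : Fin n) (z x : Co n D → X) :
    mix ((Finset.univ.filter fun q : Co n D => q.1 = (false, i)) ∪
      (Finset.univ.filter fun q : Co n D => q.1 = (true, j))) z x =
      plant x i j (fun k => z ((false, i), k)) fun k => z ((true, j), k) := by
  rw [← mix_mix_union, mix_two_left, mix_two_right]
  funext q
  unfold pos plant
  by_cases h1 : q.1 = (false, i)
  · have h2 : q.1 ≠ (true, j) := by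
      rw [h1]
      simp
    rw [if_neg h2, if_pos h1]
    simp only [h1, if_true]
  · by_cases h2 : q.1 = (true, j)
    · rw [if_pos h2, if_neg h1, if_pos h2]
    · rw [if_neg h2, if_neg h1, if_neg h1, if_neg h2]

private theorem plant_left (y : Co n D → X) (i j : Fin n) (u v : Fin D → X) (q : Co n D)
    (hq : q.1 = (false, i)) : plant y i j u v q = u q.2 := by
  unfold plant
  rw [if_pos hq]

private theorem plant_right (y : Co n D → X) (i j : Fin n) (u v : Fin D → X) (q : Co n D)
    (hq : q.1 = (true, j)) : plant y i j u v q = v q.2 := by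
  unfold plant
  rw [if_neg (by rw [hq]; simp), if_pos hq]

private theorem plant_other (y : Co n D → X) (i j : Fin n) (u v : Fin D → X) (q : Co n D)
    (h1 : q.1 ≠ (false, i)) (h2 : q.1 ≠ (true, j)) : plant y i j u v q = y q := by
  unfold plant
  rw [if_neg h1, if_neg h2]

private theorem pos_at (y : Co n D → X) (p : Bool × Fin n) (u : Fin D → X) (q : Co n D)
    (hq : q.1 = p) : pos y p u q = u q.2 := by
  unfold pos
  rw [if_pos hq]

private theorem pos_off (y : Co n D → X) (p : Bool × Fin n) (u : Fin D → X) (q : Co n D)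
    (hq : q.1 ≠ p) : pos y p u q = y q := by
  unfold pos
  rw [if_neg hq]

end

open Classical in
theorem plant_one {ι : Type} [Fintype ι] {n D s T k : ℕ} (hk : 2 ≤ k)
    (N : Net ι (Co n D → Fin k) s T) (hin : ∀ i, DepOne (N.inp i)) {A B : Finset (Co n D)}
    (hA : ∀ p ∈ A, p.1.1 = false) (hB : ∀ p ∈ B, p.1.1 = true) (i j : Fin n)
    (hi : ∀ c, ((false, i), c) ∈ A) (hj : ∀ c, ((true, j), c) ∈ B) {R : ℝ}
    (hR : ∀ x : Co n D → Fin k,
      avR (fun u v : Str k D => if HitS N i j x u v then (1 : ℝ) else 0) ≤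
        (av fun u : Str k D => pr fun v : Str k D => HitS N i j x u v) + R) :
    (av fun y : Co n D → Fin k => av fun y' : Co n D → Fin k => avR fun u v : Str k D =>
      if BadS N A B y (plant y' i j u v) then (1 : ℝ) else 0) ≤
      (∑ g ∈ twoS N, 4 * ∑ α ∈ A, ∑ β ∈ B, pairT (N.first g) α β) + R := by
  have hne : Nonempty (Fin k) := ⟨⟨0, by omega⟩⟩
  set A₂ : Finset (Co n D) := Finset.univ.filter fun q : Co n D => q.1 = (false, i) with hA₂
  set B₂ : Finset (Co n D) := Finset.univ.filter fun q : Co n D => q.1 = (true, j) with hB₂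
  set A₁ := A \ A₂ with hA₁
  set B₁ := B \ B₂ with hB₁
  have mA₂ : ∀ q, q ∈ A₂ ↔ q.1 = (false, i) := fun q =>
    ⟨fun h => (Finset.mem_filter.1 h).2, fun h => Finset.mem_filter.2 ⟨Finset.mem_univ _, h⟩⟩
  have mB₂ : ∀ q, q ∈ B₂ ↔ q.1 = (true, j) := fun q =>
    ⟨fun h => (Finset.mem_filter.1 h).2, fun h => Finset.mem_filter.2 ⟨Finset.mem_univ _, h⟩⟩
  have sA : A₂ ⊆ A := by
    intro q hq
    have h1 := (mA₂ q).1 hq
    have h2 := hi q.2
    rw [← h1] at h2
    exact h2
  have sB : B₂ ⊆ B := by
    intro q hq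
    have h1 := (mB₂ q).1 hq
    have h2 := hj q.2
    rw [← h1] at h2
    exact h2
  have eA : A = A₁ ∪ A₂ := (Finset.sdiff_union_of_subset sA).symm
  have eB : B = B₁ ∪ B₂ := (Finset.sdiff_union_of_subset sB).symm
  have dA : Disjoint A₁ A₂ := Finset.sdiff_disjoint
  have dB : Disjoint B₁ B₂ := Finset.sdiff_disjoint
  have lA₁ : ∀ p ∈ A₁, p.1.1 = false := fun p hp => hA p (Finset.mem_sdiff.1 hp).1
  have lB₁ : ∀ p ∈ B₁, p.1.1 = true := fun p hp => hB p (Finset.mem_sdiff.1 hp).1
  have lA₂ : ∀ p ∈ A₂, p.1.1 = false := fun p hp => hA p (sA hp)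
  have lB₂ : ∀ p ∈ B₂, p.1.1 = true := fun p hp => hB p (sB hp)
  have nA₁ : ∀ p ∈ A₁, p.1 ≠ (false, i) := fun p hp h => (Finset.mem_sdiff.1 hp).2 ((mA₂ p).2 h)
  have nA₁' : ∀ p ∈ A₁, p.1 ≠ (true, j) := fun p hp h => by
    have := lA₁ p hp
    rw [h] at this
    exact absurd this (by simp)
  have nB₁ : ∀ p ∈ B₁, p.1 ≠ (true, j) := fun p hp h => (Finset.mem_sdiff.1 hp).2 ((mB₂ p).2 h)
  have nB₁' : ∀ p ∈ B₁, p.1 ≠ (false, i) := fun p hp h => by
    have := lB₁ p hp
    rw [h] at this
    exact absurd this (by simp)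
  -- the values of the planted input
  have zA₁ : ∀ (y' : Co n D → Fin k) (u v : Str k D), ∀ p ∈ A₁, plant y' i j u v p = y' p :=
    fun y' u v p hp => plant_other y' i j u v p (nA₁ p hp) (nA₁' p hp)
  have zB₁ : ∀ (y' : Co n D → Fin k) (u v : Str k D), ∀ p ∈ B₁, plant y' i j u v p = y' p :=
    fun y' u v p hp => plant_other y' i j u v p (nB₁' p hp) (nB₁ p hp)
  have mixc : ∀ (J : Finset (Co n D)) (z z' y : Co n D → Fin k), (∀ p ∈ J, z p = z' p) →
      mix J z y = mix J z' y := by
    intro J z z' y h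
    funext p
    unfold mix
    by_cases hp : p ∈ J
    · rw [if_pos hp, if_pos hp, h p hp]
    · rw [if_neg hp, if_neg hp]
  let E₁ : (Co n D → Fin k) → (Co n D → Fin k) → ℝ := fun y y' =>
    if BadS N A₁ B₁ y y' then 1 else 0
  let E₂ : (Co n D → Fin k) → (Co n D → Fin k) → ℝ := fun x z =>
    if BadS N A₂ B₁ x z then 1 else 0
  let E₃ : (Co n D → Fin k) → (Co n D → Fin k) → ℝ := fun x z =>
    if BadS N A₁ B₂ x z then 1 else 0
  let E₄ : (Co n D → Fin k) → (Co n D → Fin k) → ℝ := fun x z =>
    if BadS N A₂ B₂ x z then 1 else 0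
  have e1 : ∀ (y y' : Co n D → Fin k) (u v : Str k D),
      E₁ y (plant y' i j u v) = E₁ y y' := by
    intro y y' u v
    have := badS_congr N (A := A₁) (B := B₁) y (zA₁ y' u v) (zB₁ y' u v)
    simp only [E₁, this]
  have e2 : ∀ (y y' : Co n D → Fin k) (u v : Str k D),
      E₂ (mix A₁ (plant y' i j u v) y) (plant y' i j u v) =
        E₂ (mix A₁ y' y) (pos (mix A₁ y y') (false, i) u) := by
    intro y y' u v
    have h1 := badS_congr N (A := A₂) (B := B₁) (mix A₁ y' y) (z := plant y' i j u v)
      (z' := pos (mix A₁ y y') (false, i) u)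
      (fun p hp => by
        rw [plant_left y' i j u v p ((mA₂ p).1 hp), pos_at _ _ _ _ ((mA₂ p).1 hp)])
      (fun p hp => by
        rw [zB₁ y' u v p hp, pos_off _ _ _ _ (nB₁' p hp)]
        unfold mix
        rw [if_neg]
        intro h
        have h1 := lA₁ p h
        rw [lB₁ p hp] at h1
        exact absurd h1 (by decide))
    simp only [E₂, mixc A₁ _ _ y (zA₁ y' u v), h1]
  have e3 : ∀ (y y' : Co n D → Fin k) (u v : Str k D),
      E₃ (mix B₁ (plant y' i j u v) y) (plant y' i j u v) =
        E₃ (mix B₁ y' y) (pos (mix B₁ y y') (true, j) v) := by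
    intro y y' u v
    have h1 := badS_congr N (A := A₁) (B := B₂) (mix B₁ y' y) (z := plant y' i j u v)
      (z' := pos (mix B₁ y y') (true, j) v)
      (fun p hp => by
        rw [zA₁ y' u v p hp, pos_off _ _ _ _ (nA₁' p hp)]
        unfold mix
        rw [if_neg]
        intro h
        have h1 := lB₁ p h
        rw [lA₁ p hp] at h1
        exact absurd h1 (by decide))
      (fun p hp => by
        rw [plant_right y' i j u v p ((mB₂ p).1 hp), pos_at _ _ _ _ ((mB₂ p).1 hp)])
    simp only [E₃, mixc B₁ _ _ y (zB₁ y' u v), h1]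
  have e4 : ∀ (y y' : Co n D → Fin k) (u v : Str k D),
      E₄ (mix (A₁ ∪ B₁) (plant y' i j u v) y) (plant y' i j u v) =
        E₄ (mix (A₁ ∪ B₁) y' y) (plant (mix (A₁ ∪ B₁) y' y) i j u v) := by
    intro y y' u v
    have h1 := badS_congr N (A := A₂) (B := B₂) (mix (A₁ ∪ B₁) y' y) (z := plant y' i j u v)
      (z' := plant (mix (A₁ ∪ B₁) y' y) i j u v)
      (fun p hp => by
        rw [plant_left _ i j u v p ((mA₂ p).1 hp), plant_left _ i j u v p ((mA₂ p).1 hp)])
      (fun p hp => by
        rw [plant_right _ i j u v p ((mB₂ p).1 hp), plant_right _ i j u v p ((mB₂ p).1 hp)])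
    have h2 : mix (A₁ ∪ B₁) (plant y' i j u v) y = mix (A₁ ∪ B₁) y' y :=
      mixc _ _ _ y fun p hp => by
        rcases Finset.mem_union.1 hp with h | h
        · exact zA₁ y' u v p h
        · exact zB₁ y' u v p h
    simp only [E₄, h2, h1]
  -- the pointwise bound
  have h1 : ∀ (y y' : Co n D → Fin k) (u v : Str k D),
      (if BadS N A B y (plant y' i j u v) then (1 : ℝ) else 0) ≤
        E₁ y y' + E₂ (mix A₁ y' y) (pos (mix A₁ y y') (false, i) u) +
        E₃ (mix B₁ y' y) (pos (mix B₁ y y') (true, j) v) +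
        E₄ (mix (A₁ ∪ B₁) y' y) (plant (mix (A₁ ∪ B₁) y' y) i j u v) := by
    intro y y' u v
    rw [← e1 y y' u v, ← e2 y y' u v, ← e3 y y' u v, ← e4 y y' u v]
    have p1 : 0 ≤ E₁ y (plant y' i j u v) := by simp only [E₁]; split_ifs <;> norm_num
    have p2 : 0 ≤ E₂ (mix A₁ (plant y' i j u v) y) (plant y' i j u v) := by
      simp only [E₂]; split_ifs <;> norm_num
    have p3 : 0 ≤ E₃ (mix B₁ (plant y' i j u v) y) (plant y' i j u v) := by
      simp only [E₃]; split_ifs <;> norm_num
    have p4 : 0 ≤ E₄ (mix (A₁ ∪ B₁) (plant y' i j u v) y) (plant y' i j u v) := by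
      simp only [E₄]; split_ifs <;> norm_num
    by_cases hbad : BadS N A B y (plant y' i j u v)
    · rw [if_pos hbad]
      rw [eA, eB] at hbad
      rcases four N A₁ A₂ B₁ B₂ y _ hbad with h | h | h | h
      · have : E₁ y (plant y' i j u v) = 1 := if_pos h
        linarith
      · have : E₂ (mix A₁ (plant y' i j u v) y) (plant y' i j u v) = 1 := if_pos h
        linarith
      · have : E₃ (mix B₁ (plant y' i j u v) y) (plant y' i j u v) = 1 := if_pos h
        linarith
      · have : E₄ (mix (A₁ ∪ B₁) (plant y' i j u v) y) (plant y' i j u v) = 1 := if_pos h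
        linarith
    · rw [if_neg hbad]
      linarith
  -- the four averages
  have b1 : (av fun y => av fun y' => E₁ y y') ≤
      ∑ g ∈ twoS N, 4 * ∑ α ∈ A₁, ∑ β ∈ B₁, pairT (N.first g) α β := by
    have := null_sets N hin lA₁ lB₁
    unfold pr at this
    exact this
  have b2 : (av fun y => av fun y' => av fun u : Str k D =>
      E₂ (mix A₁ y' y) (pos (mix A₁ y y') (false, i) u)) ≤
      ∑ g ∈ twoS N, 4 * ∑ α ∈ A₂, ∑ β ∈ B₁, pairT (N.first g) α β := by
    rw [av_comm, av_mix₂ A₁ fun x z' => av fun u : Str k D => E₂ x (pos z' (false, i) u)]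
    have := null_sets N hin lA₂ lB₁
    unfold pr at this
    refine le_trans (le_of_eq (av_congr fun x => ?_)) this
    exact av_pos (false, i) fun z => E₂ x z
  have b3 : (av fun y => av fun y' => av fun v : Str k D =>
      E₃ (mix B₁ y' y) (pos (mix B₁ y y') (true, j) v)) ≤
      ∑ g ∈ twoS N, 4 * ∑ α ∈ A₁, ∑ β ∈ B₂, pairT (N.first g) α β := by
    rw [av_comm, av_mix₂ B₁ fun x z' => av fun v : Str k D => E₃ x (pos z' (true, j) v)]
    have := null_sets N hin lA₁ lB₂
    unfold pr at this
    refine le_trans (le_of_eq (av_congr fun x => ?_)) this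
    exact av_pos (true, j) fun z => E₃ x z
  have b4 : (av fun y => av fun y' => avR fun u v : Str k D =>
      E₄ (mix (A₁ ∪ B₁) y' y) (plant (mix (A₁ ∪ B₁) y' y) i j u v)) ≤
      (∑ g ∈ twoS N, 4 * ∑ α ∈ A₂, ∑ β ∈ B₂, pairT (N.first g) α β) + R := by
    rw [av_comm, av_mix (A₁ ∪ B₁) fun x => avR fun u v : Str k D => E₄ x (plant x i j u v)]
    have hx : ∀ x : Co n D → Fin k, (avR fun u v : Str k D => E₄ x (plant x i j u v)) ≤
        (pr fun z : Co n D → Fin k => ∃ g, g ∈ twoS N ∧
          ¬ Uni (N.first g) x (mix A₂ z x) (mix B₂ z x) (mix (A₂ ∪ B₂) z x)) + R := by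
      intro x
      have q1 : ∀ u v : Str k D, mix A₂ (plant x i j u v) x = pos x (false, i) u := by
        intro u v
        rw [hA₂, mix_two_left]
        congr 1
        funext c
        exact plant_left x i j u v _ rfl
      have q2 : ∀ u v : Str k D, mix B₂ (plant x i j u v) x = pos x (true, j) v := by
        intro u v
        rw [hB₂, mix_two_right]
        congr 1
        funext c
        exact plant_right x i j u v _ rfl
      have q3 : ∀ u v : Str k D, mix (A₂ ∪ B₂) (plant x i j u v) x = plant x i j u v := by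
        intro u v
        rw [hA₂, hB₂, mix_two_both]
        congr 1
        · funext c
          exact plant_left x i j u v _ rfl
        · funext c
          exact plant_right x i j u v _ rfl
      have u1 : ∀ u v : Str k D, ∀ l, Uni (N.inp l) x (pos x (false, i) u) (pos x (true, j) v)
          (plant x i j u v) := by
        intro u v l
        have := uni_of_depOne (hin l) (disj_lists lA₂ lB₂) x (plant x i j u v)
        rwa [q1, q2, q3] at this
      have u2 : ∀ u v : Str k D, ∀ g, ¬ g ∈ twoS N → Uni (N.val g) x (pos x (false, i) u)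
          (pos x (true, j) v) (plant x i j u v) := by
        intro u v g hg
        rw [mem_twoS, not_not] at hg
        have := uni_of_oneSided hg lA₂ lB₂ x (plant x i j u v)
        rwa [q1, q2, q3] at this
      have r1 : (avR fun u v : Str k D => E₄ x (plant x i j u v)) ≤
          avR (fun u v : Str k D => if HitS N i j x u v then (1 : ℝ) else 0) := by
        refine avR_mono hk fun u v _ => ?_
        by_cases hb : BadS N A₂ B₂ x (plant x i j u v)
        · have h3 : HitS N i j x u v := by
            obtain ⟨g, hg⟩ := hb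
            rw [q1, q2, q3] at hg
            exact exists_hit N (fun g => g ∈ twoS N) (u1 u v) (u2 u v) ⟨g, hg⟩
          rw [if_pos h3]
          simp only [E₄]
          split_ifs <;> norm_num
        · have : E₄ x (plant x i j u v) = 0 := if_neg hb
          rw [this]
          split_ifs <;> norm_num
      have r2 : (av fun u : Str k D => pr fun v : Str k D => HitS N i j x u v) ≤
          av fun u : Str k D => pr fun v : Str k D => ∃ g, g ∈ twoS N ∧
            ¬ Uni (N.first g) x (pos x (false, i) u) (pos x (true, j) v) (plant x i j u v) := by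
        refine av_mono fun u => pr_mono fun v h => ?_
        exact exists_first_of_hit N (fun g => g ∈ twoS N) (u1 u v) (u2 u v) h
      have r3 : (av fun u : Str k D => pr fun v : Str k D => ∃ g, g ∈ twoS N ∧
            ¬ Uni (N.first g) x (pos x (false, i) u) (pos x (true, j) v) (plant x i j u v)) =
          pr fun z : Co n D → Fin k => ∃ g, g ∈ twoS N ∧
          ¬ Uni (N.first g) x (mix A₂ z x) (mix B₂ z x) (mix (A₂ ∪ B₂) z x) := by
        have h3 := av_at2 (X := Fin k) (p := (false, i)) (p' := (true, j)) (by simp)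
          fun u v : Str k D => @ite ℝ (∃ g, g ∈ twoS N ∧
            ¬ Uni (N.first g) x (pos x (false, i) u) (pos x (true, j) v) (plant x i j u v))
            (Classical.propDecidable _) 1 0
        unfold pr
        rw [← h3]
        refine av_congr fun z => ?_
        simp only [hA₂, hB₂, mix_two_left, mix_two_right, mix_two_both]
        congr
      exact r1.trans ((hR x).trans (by rw [← r3]; linarith))
    refine (av_mono hx).trans ?_
    rw [av_add, av_const]
    have := first_sets N (disj_lists lA₂ lB₂) (twoS N)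
    linarith
  -- the sum
  have hsum : (∑ g ∈ twoS N, 4 * ∑ α ∈ A, ∑ β ∈ B, pairT (N.first g) α β) =
      (∑ g ∈ twoS N, 4 * ∑ α ∈ A₁, ∑ β ∈ B₁, pairT (N.first g) α β) +
      (∑ g ∈ twoS N, 4 * ∑ α ∈ A₂, ∑ β ∈ B₁, pairT (N.first g) α β) +
      (∑ g ∈ twoS N, 4 * ∑ α ∈ A₁, ∑ β ∈ B₂, pairT (N.first g) α β) +
      (∑ g ∈ twoS N, 4 * ∑ α ∈ A₂, ∑ β ∈ B₂, pairT (N.first g) α β) := by
    rw [← Finset.sum_add_distrib, ← Finset.sum_add_distrib, ← Finset.sum_add_distrib]
    refine Finset.sum_congr rfl fun g _ => ?_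
    conv_lhs => rw [eA, eB]
    rw [Finset.sum_union dA]
    simp only [Finset.sum_union dB, Finset.sum_add_distrib]
    ring
  rw [hsum]
  have hmain : (av fun y : Co n D → Fin k => av fun y' : Co n D → Fin k =>
      avR fun u v : Str k D => if BadS N A B y (plant y' i j u v) then (1 : ℝ) else 0) ≤
      (av fun y => av fun y' => E₁ y y') +
      (av fun y => av fun y' => av fun u : Str k D =>
        E₂ (mix A₁ y' y) (pos (mix A₁ y y') (false, i) u)) +
      (av fun y => av fun y' => av fun v : Str k D =>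
        E₃ (mix B₁ y' y) (pos (mix B₁ y y') (true, j) v)) +
      (av fun y => av fun y' => avR fun u v : Str k D =>
        E₄ (mix (A₁ ∪ B₁) y' y) (plant (mix (A₁ ∪ B₁) y' y) i j u v)) := by
    rw [← av_add, ← av_add, ← av_add]
    refine av_mono fun y => ?_
    rw [← av_add, ← av_add, ← av_add]
    refine av_mono fun y' => ?_
    refine (avR_mono hk fun u v _ => h1 y y' u v).trans (le_of_eq ?_)
    rw [avR_add, avR_add, avR_add, avR_const hk, avR_left hk, avR_right hk]
  linarith

end Pool.Agent.H58.CD
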