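import Pool.Agent.H58.CD.Net
import Pool.Agent.H58.OVPR.Main

/-! [H58 CD PUT] Blocks of vectors.

PROOF. `mix J y' y p = if p ∈ J then y' p else y p`; `p ∈ blk n D m b a` iff `p.1.1 = b ∧ a m ≤ p.1.2 < a m + m`.
`mix_blk`, `mix_both`, `get_plant_left`, `get_plant_right`, `mix_plant`: `funext` and case distinctions
(for a position `p` in the block, `p.1 = (b, ⟨a m + (p.1.2 - a m), _⟩)`; for `mix_both` the blocks of the
lists `false` and `true` are disjoint). In `mix_plant` the positions `(false, i)` and `(true, j)` are in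
`J` with all their coordinates.
`av_inj`: for injective `φ : I → V` the average of `F (y ∘ φ)` over `y : V → X` is the average of `F`
over `I → X`: `V → X ≃ (range φ → X) × (complement → X)` (`Equiv.piEquivPiSubtypeProd (· ∈ Set.range φ)`)
and `Equiv.ofInjective φ`, `Equiv.arrowCongr`; then `av_equiv`, `av_prod`, `av_const` (`X` nonempty). Or: the
fibres of `y ↦ y ∘ φ` all have `card X ^ (card V - card I)` elements.
`av_get`: `av_inj` for `φ : (Fin m × Fin D) ⊕ (Fin m × Fin D) → Co n D`,
`inl (t, c) ↦ ((false, a m + t), c)`, `inr (t, c) ↦ ((true, b m + t), c)`, and the equivalence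
`((Fin m × Fin D) ⊕ (Fin m × Fin D) → X) ≃ (Fin m → Fin D → X) × (Fin m → Fin D → X)` with
`av_equiv`, `av_prod`. -/

set_option autoImplicit false
set_option maxHeartbeats 4000000

namespace Pool.Agent.H58.CD

open Pool.Agent.H58.OVAC Pool.Agent.H58.OVPR

variable {n D m : ℕ} {X : Type}

/-- Put the vectors `z` into the block `a` of the list `b`. -/
def put (y : Co n D → X) (b : Bool) (a : ℕ) (z : Fin m → Fin D → X) : Co n D → X :=
  fun p => if h : p.1.1 = b ∧ a * m ≤ p.1.2.1 ∧ p.1.2.1 < a * m + m then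
    z ⟨p.1.2.1 - a * m, by omega⟩ p.2 else y p

/-- The vectors of the block `a` of the list `b`. -/
def get (m : ℕ) (y' : Co n D → X) (b : Bool) (a : ℕ) (ha : a * m + m ≤ n) : Fin m → Fin D → X :=
  fun t c => y' ((b, ⟨a * m + t, by omega⟩), c)

theorem mix_blk (y y' : Co n D → X) (b : Bool) (a : ℕ) (ha : a * m + m ≤ n) :
    mix (blk n D m b a) y' y = put y b a (get m y' b a ha) := by
  funext p
  obtain ⟨⟨b', i⟩, c⟩ := p
  unfold mix put get
  by_cases h : b' = b ∧ a * m ≤ i.1 ∧ i.1 < a * m + m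
  · have h0 : ((b', i), c) ∈ blk n D m b a := by
      unfold blk
      rw [Finset.mem_filter]
      exact ⟨Finset.mem_univ _, h⟩
    rw [if_pos h0, dif_pos h]
    obtain ⟨rfl, h1, h2⟩ := h
    congr 3
    apply Fin.ext
    show i.1 = a * m + (i.1 - a * m)
    omega
  · have h0 : ¬ ((b', i), c) ∈ blk n D m b a := by
      unfold blk
      rw [Finset.mem_filter]
      exact fun h1 => h h1.2
    rw [if_neg h0, dif_neg h]

theorem mix_both (y y' : Co n D → X) (a b : ℕ) (ha : a * m + m ≤ n) (hb : b * m + m ≤ n) :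
    mix (blk n D m false a ∪ blk n D m true b) y' y =
      put (put y false a (get m y' false a ha)) true b (get m y' true b hb) := by
  rw [← mix_blk y y' false a ha, ← mix_blk _ y' true b hb]
  funext p
  unfold mix
  by_cases h1 : p ∈ blk n D m true b
  · rw [if_pos (Finset.mem_union_right _ h1), if_pos h1]
  · by_cases h2 : p ∈ blk n D m false a
    · rw [if_pos (Finset.mem_union_left _ h2), if_neg h1, if_pos h2]
    · rw [if_neg (fun h3 => (Finset.mem_union.1 h3).elim h2 h1), if_neg h1, if_neg h2]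

theorem get_plant_left (y' : Co n D → X) (a : ℕ) (ha : a * m + m ≤ n) (t : Fin m) (j : Fin n)
    (u v : Fin D → X) :
    get m (plant y' ⟨a * m + t, by omega⟩ j u v) false a ha =
      Function.update (get m y' false a ha) t u := by
  funext t' c
  by_cases h : t' = t
  · subst h
    rw [Function.update_self]
    unfold get plant
    simp
  · rw [Function.update_of_ne h]
    unfold get plant
    have h1 : ¬ ((t' : ℕ) = t) := fun h2 => h (Fin.ext h2)
    simp [h1]

theorem get_plant_right (y' : Co n D → X) (b : ℕ) (hb : b * m + m ≤ n) (t : Fin m) (i : Fin n)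
    (u v : Fin D → X) :
    get m (plant y' i ⟨b * m + t, by omega⟩ u v) true b hb =
      Function.update (get m y' true b hb) t v := by
  funext t' c
  by_cases h : t' = t
  · subst h
    rw [Function.update_self]
    unfold get plant
    simp
  · rw [Function.update_of_ne h]
    unfold get plant
    have h1 : ¬ ((t' : ℕ) = t) := fun h2 => h (Fin.ext h2)
    simp [h1]

theorem mix_plant (y y' : Co n D → X) (J : Finset (Co n D)) (i j : Fin n) (u v : Fin D → X)
    (hi : ∀ c, ((false, i), c) ∈ J) (hj : ∀ c, ((true, j), c) ∈ J) :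
    mix J (plant y' i j u v) y = plant (mix J y' y) i j u v := by
  funext p
  obtain ⟨q, c⟩ := p
  unfold mix plant
  by_cases h1 : q = (false, i)
  · subst h1
    rw [if_pos (hi c), if_pos rfl, if_pos rfl]
  · by_cases h2 : q = (true, j)
    · subst h2
      rw [if_pos (hj c), if_neg h1, if_pos rfl, if_neg h1, if_pos rfl]
    · by_cases h3 : (q, c) ∈ J
      · simp [h1, h2, h3]
      · simp [h1, h2, h3]

theorem av_inj {I V X : Type} [Fintype I] [DecidableEq I] [Fintype V] [DecidableEq V] [Fintype X]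
    [Nonempty X] (φ : I → V) (hφ : Function.Injective φ) (F : (I → X) → ℝ) :
    (av fun y : V → X => F fun i => y (φ i)) = av F := by
  classical
  have e1 := av_equiv (Equiv.piEquivPiSubtypeProd (fun v => v ∈ Set.range φ) (fun _ : V => X))
    (fun z => F fun i => z.1 ⟨φ i, i, rfl⟩)
  have e2 : (fun y : V → X => F fun i => y (φ i)) = fun y : V → X =>
      (fun z : ((v : {v // v ∈ Set.range φ}) → X) × ((v : {v // ¬ v ∈ Set.range φ}) → X) =>
        F fun i => z.1 ⟨φ i, i, rfl⟩)
      (Equiv.piEquivPiSubtypeProd (fun v => v ∈ Set.range φ) (fun _ : V => X) y) := rfl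
  rw [e2, e1]
  rw [av_prod (fun (a : (v : {v // v ∈ Set.range φ}) → X) (_ : (v : {v // ¬ v ∈ Set.range φ}) → X) =>
    F fun i => a ⟨φ i, i, rfl⟩)]
  have e3 : (fun a : (v : {v // v ∈ Set.range φ}) → X => av fun _ : (v : {v // ¬ v ∈ Set.range φ}) → X =>
      F fun i => a ⟨φ i, i, rfl⟩) = fun a => F fun i => a ⟨φ i, i, rfl⟩ := by
    funext a
    exact av_const _
  rw [e3]
  have e4 := av_equiv (Equiv.arrowCongr (Equiv.ofInjective φ hφ) (Equiv.refl X)) (fun a : (v : {v // v ∈ Set.range φ}) → X =>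
    F fun i => a ⟨φ i, i, rfl⟩)
  rw [← e4]
  refine av_congr fun g => ?_
  congr 1
  funext i
  show g ((Equiv.ofInjective φ hφ).symm ⟨φ i, i, rfl⟩) = g i
  congr 1
  exact Equiv.ofInjective_symm_apply hφ i

theorem av_get [Fintype X] [Nonempty X] (a b : ℕ) (ha : a * m + m ≤ n) (hb : b * m + m ≤ n)
    (F : (Fin m → Fin D → X) → (Fin m → Fin D → X) → ℝ) :
    (av fun y' : Co n D → X => F (get m y' false a ha) (get m y' true b hb)) =
      av fun z : Fin m → Fin D → X => av fun w : Fin m → Fin D → X => F z w := by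
  classical
  obtain ⟨φ, hφ⟩ : ∃ φ : (Fin m × Fin D) ⊕ (Fin m × Fin D) → Co n D, φ = Sum.elim
      (fun z => ((false, ⟨a * m + z.1, by omega⟩), z.2)) (fun z => ((true, ⟨b * m + z.1, by omega⟩), z.2)) :=
    ⟨_, rfl⟩
  have hinj : Function.Injective φ := by
    rw [hφ]
    rintro (⟨t, c⟩ | ⟨t, c⟩) (⟨t', c'⟩ | ⟨t', c'⟩) h
    · simp only [Sum.elim_inl, Prod.mk.injEq, Fin.mk.injEq, true_and] at h
      have h1 : t = t' := Fin.ext (by omega)
      rw [h1, h.2]
    · simp at h
    · simp at h
    · simp only [Sum.elim_inr, Prod.mk.injEq, Fin.mk.injEq, true_and] at h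
      have h1 : t = t' := Fin.ext (by omega)
      rw [h1, h.2]
  have e1 := av_inj (X := X) φ hinj (fun g => F (fun t c => g (Sum.inl (t, c))) (fun t c => g (Sum.inr (t, c))))
  have e2 : (fun y' : Co n D → X => F (get m y' false a ha) (get m y' true b hb)) =
      fun y' : Co n D → X => F (fun t c => y' (φ (Sum.inl (t, c)))) (fun t c => y' (φ (Sum.inr (t, c)))) := by
    funext y'
    rw [hφ]
    rfl
  rw [e2, e1]
  rw [← av_prod F]
  have e3 := av_equiv ((Equiv.sumArrowEquivProdArrow (Fin m × Fin D) (Fin m × Fin D) X).trans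
    (Equiv.prodCongr (Equiv.curry (Fin m) (Fin D) X) (Equiv.curry (Fin m) (Fin D) X)))
    (fun z : (Fin m → Fin D → X) × (Fin m → Fin D → X) => F z.1 z.2)
  rw [← e3]
  rfl

end Pool.Agent.H58.CD
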