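import Pool.Agent.H58.CD.Grid
import Pool.Agent.H58.OVPR.Menu

/-! [H58 CD SQ] A function with small sensitivity depends on one of the two moves only, for most
pairs of blocks.

PROOF of `sq_one`. Let `e : V ≃ Fin N` (`Fintype.equivFin V`, `N = card V`), and for `k, l ≤ N` let
`pt k l : V → Bool`, `p ↦ decide ((p ∈ A ∧ e p < k) ∨ (p ∈ B ∧ e p < l))`, and
`F k l = u (pick y y' (pt k l))` (`pick y y' σ` takes `y'` where `σ` is true). `F 0 0 = u y`,
`F N 0 = u (mix A y' y)`, `F 0 N = u (mix B y' y)`, `F N N = u (mix (A ∪ B) y' y)`. If `Uni` fails,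
then by `grid` some elementary square fails, for `k, l < N`. Let `i = e.symm k`, `j = e.symm l`.
If `i ∉ A`, then `pt (k+1) l' = pt k l'` for all `l'` and the square satisfies `Uni4` (first
alternative); the same if `j ∉ B`. So `i ∈ A`, `j ∈ B`, `i ≠ j` and the four points of the square are
`ρ, flip ρ i, flip ρ j, flip (flip ρ i) j` with `ρ = pt k l` (false at `i` and `j`). By `corner`, at one
of these four points, call it `τ` (it depends on `i, j` and a number in `Fin 4` only, not on
`y, y'`), both `u (pick y y' (flip τ i)) ≠ u (pick y y' τ)` and the same for `j`. Union bound over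
`(i, j) ∈ A × B` and the four corners: the probability of the failure is at most
`Σ_{i∈A} Σ_{j∈B} Σ_{4 corners} av_y pr_y' (both)`, and by `av_mix₂` (with the set of the `p` with
`τ p = true`, exactly as in the proof of `OVPR.sens_mix` and `OVPR.infl_tail`) each term equals
`av_y pr_y' (u (pick y y' (flip 0 i)) ≠ u (pick y y' 0) ∧ the same for j)`.
PROOF of `sq`. Sum `sq_one` over all pairs `(a, b)`. The sets `A a` are pairwise disjoint, so are
the `B b`, hence the sum is at most `4 Σ_{i,j : V} av pr (i sensitive at 0 and j sensitive at 0) =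
4 av av (sens at 0)^2`, and `(sens)^2 ≤ S^2 + (card V)^2 * (if S < sens then 1 else 0)`. -/

set_option autoImplicit false
set_option maxHeartbeats 4000000

namespace Pool.Agent.H58.CD

open Pool.Agent.H58.OVAC Pool.Agent.H58.OVPR

section

variable {V X Y : Type} [DecidableEq V]

/-- The indicator of a set. -/
private def ind (S : Finset V) : V → Bool := fun v => decide (v ∈ S)

private theorem flip_flip' (σ : V → Bool) (i : V) :
    Pool.Agent.H58.OVPR.flip (Pool.Agent.H58.OVPR.flip σ i) i = σ := by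
  classical
  funext k
  by_cases hk : k = i
  · subst hk
    simp [Pool.Agent.H58.OVPR.flip]
  · simp [Pool.Agent.H58.OVPR.flip, hk]

/-- The crossing lemma. -/
private theorem cross_points (A B : Finset V) (hAB : Disjoint A B) :
    ∃ w : V → V → Fin 4 → (V → Bool), ∀ (Y : Type) (f : (V → Bool) → Y),
      ¬ Uni4 (f (ind ∅)) (f (ind A)) (f (ind B)) (f (ind (A ∪ B))) →
      ∃ α ∈ A, ∃ β ∈ B, ∃ k, f (Pool.Agent.H58.OVPR.flip (w α β k) α) ≠ f (w α β k) ∧
        f (Pool.Agent.H58.OVPR.flip (w α β k) β) ≠ f (w α β k) := by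
  classical
  have hrank : ∀ S : Finset V, ∃ ρ : V → ℕ, (∀ v ∈ S, ρ v < S.card) ∧
      (∀ v ∈ S, ∀ v' ∈ S, ρ v = ρ v' → v = v') ∧ ∀ s < S.card, ∃ v ∈ S, ρ v = s := by
    intro S
    refine ⟨fun v => if h : v ∈ S then (S.equivFin ⟨v, h⟩).1 else 0, ?_, ?_, ?_⟩
    · intro v hv
      simp only [hv, dif_pos]
      exact (S.equivFin ⟨v, hv⟩).2
    · intro v hv v' hv' h
      simp only [hv, hv', dif_pos] at h
      have h1 := S.equivFin.injective (Fin.ext h)
      exact congrArg Subtype.val h1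
    · intro s hs
      refine ⟨(S.equivFin.symm ⟨s, hs⟩).1, (S.equivFin.symm ⟨s, hs⟩).2, ?_⟩
      simp
  obtain ⟨ρ, hρ1, hρ2, hρ3⟩ := hrank A
  obtain ⟨ρ', hρ1', hρ2', hρ3'⟩ := hrank B
  let pts : ℕ → ℕ → (V → Bool) := fun s t v =>
    decide ((v ∈ A ∧ ρ v < s) ∨ (v ∈ B ∧ ρ' v < t))
  have hflipA : ∀ α ∈ A, ∀ t, Pool.Agent.H58.OVPR.flip (pts (ρ α) t) α = pts (ρ α + 1) t := by
    intro α hα t
    have hαB : α ∉ B := Finset.disjoint_left.1 hAB hα
    funext v
    by_cases hv : v = α
    · subst hv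
      simp [Pool.Agent.H58.OVPR.flip, pts, hα, hαB]
    · have h1 : (v ∈ A ∧ ρ v < ρ α + 1) ↔ (v ∈ A ∧ ρ v < ρ α) := by
        constructor
        · rintro ⟨h2, h3⟩
          refine ⟨h2, ?_⟩
          have h4 : ρ v ≠ ρ α := fun h => hv (hρ2 v h2 α hα h)
          omega
        · rintro ⟨h2, h3⟩
          exact ⟨h2, by omega⟩
      have h5 : Pool.Agent.H58.OVPR.flip (pts (ρ α) t) α v = pts (ρ α) t v := by simp [Pool.Agent.H58.OVPR.flip, hv]
      rw [h5]
      exact decide_eq_decide.2 (or_congr h1.symm Iff.rfl)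
  have hflipB : ∀ β ∈ B, ∀ s, Pool.Agent.H58.OVPR.flip (pts s (ρ' β)) β = pts s (ρ' β + 1) := by
    intro β hβ s
    have hβA : β ∉ A := Finset.disjoint_right.1 hAB hβ
    funext v
    by_cases hv : v = β
    · subst hv
      simp [Pool.Agent.H58.OVPR.flip, pts, hβ, hβA]
    · have h1 : (v ∈ B ∧ ρ' v < ρ' β + 1) ↔ (v ∈ B ∧ ρ' v < ρ' β) := by
        constructor
        · rintro ⟨h2, h3⟩
          refine ⟨h2, ?_⟩
          have h4 : ρ' v ≠ ρ' β := fun h => hv (hρ2' v h2 β hβ h)
          omega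
        · rintro ⟨h2, h3⟩
          exact ⟨h2, by omega⟩
      have h5 : Pool.Agent.H58.OVPR.flip (pts s (ρ' β)) β v = pts s (ρ' β) v := by simp [Pool.Agent.H58.OVPR.flip, hv]
      rw [h5]
      exact decide_eq_decide.2 (or_congr Iff.rfl h1.symm)
  refine ⟨fun α β k => if k = 0 then pts (ρ α) (ρ' β) else if k = 1 then pts (ρ α + 1) (ρ' β)
    else if k = 2 then pts (ρ α) (ρ' β + 1) else pts (ρ α + 1) (ρ' β + 1), fun Y f hf => ?_⟩
  by_contra hcon
  apply hf
  have e0 : ind (∅ : Finset V) = pts 0 0 := by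
    funext v
    simp [ind, pts]
  have eA : ind A = pts A.card 0 := by
    funext v
    simp only [ind, pts, Nat.not_lt_zero, and_false, or_false]
    congr 1
    apply propext
    exact ⟨fun h => ⟨h, hρ1 v h⟩, fun h => h.1⟩
  have eB : ind B = pts 0 B.card := by
    funext v
    simp only [ind, pts, Nat.not_lt_zero, and_false, false_or]
    congr 1
    apply propext
    exact ⟨fun h => ⟨h, hρ1' v h⟩, fun h => h.1⟩
  have eAB : ind (A ∪ B) = pts A.card B.card := by
    funext v
    simp only [ind, pts, Finset.mem_union]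
    congr 1
    apply propext
    constructor
    · rintro (h | h)
      · exact Or.inl ⟨h, hρ1 v h⟩
      · exact Or.inr ⟨h, hρ1' v h⟩
    · rintro (h | h)
      · exact Or.inl h.1
      · exact Or.inr h.1
  rw [e0, eA, eB, eAB]
  refine grid (fun s t => f (pts s t)) A.card B.card fun s hs t ht => ?_
  by_contra hsq
  obtain ⟨α, hα, rfl⟩ := hρ3 s hs
  obtain ⟨β, hβ, rfl⟩ := hρ3' t ht
  apply hcon
  refine ⟨α, hα, β, hβ, ?_⟩
  have a1 := hflipA α hα (ρ' β)
  have a2 := hflipA α hα (ρ' β + 1)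
  have b1 := hflipB β hβ (ρ α)
  have b2 := hflipB β hβ (ρ α + 1)
  rcases corner hsq with ⟨h1, h2⟩ | ⟨h1, h2⟩ | ⟨h1, h2⟩ | ⟨h1, h2⟩
  · refine ⟨0, ?_, ?_⟩
    · simp only [if_true]
      rw [a1]
      exact h1.symm
    · simp only [if_true]
      rw [b1]
      exact h2.symm
  · refine ⟨1, ?_, ?_⟩
    · simp only [one_ne_zero, if_false, if_true]
      rw [← a1, flip_flip', a1]
      exact h1.symm
    · simp only [one_ne_zero, if_false, if_true]
      rw [b2]
      exact h2.symm
  · refine ⟨2, ?_, ?_⟩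
    · simp only [show (2 : Fin 4) ≠ 0 by decide, show (2 : Fin 4) ≠ 1 by decide, if_false, if_true]
      rw [a2]
      exact h1.symm
    · simp only [show (2 : Fin 4) ≠ 0 by decide, show (2 : Fin 4) ≠ 1 by decide, if_false, if_true]
      rw [← b1, flip_flip', b1]
      exact h2.symm
  · refine ⟨3, ?_, ?_⟩
    · simp only [show (3 : Fin 4) ≠ 0 by decide, show (3 : Fin 4) ≠ 1 by decide,
        show (3 : Fin 4) ≠ 2 by decide, if_false]
      rw [← a2, flip_flip', a2]
      exact h1.symm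
    · simp only [show (3 : Fin 4) ≠ 0 by decide, show (3 : Fin 4) ≠ 1 by decide,
        show (3 : Fin 4) ≠ 2 by decide, if_false]
      rw [← b2, flip_flip', b2]
      exact h2.symm

private theorem pick_mix [Fintype V] (σ : V → Bool) (a b : V → X) :
    pick (mix (Finset.univ.filter fun p => σ p = true) a b)
      (mix (Finset.univ.filter fun p => σ p = true) b a) (fun _ => false) = pick b a σ := by
  unfold pick mix
  funext k
  cases hk : σ k <;> simp [hk]

private theorem pick_mix_flip [Fintype V] (σ : V → Bool) (a b : V → X) (p : V) :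
    pick (mix (Finset.univ.filter fun p => σ p = true) a b)
      (mix (Finset.univ.filter fun p => σ p = true) b a) (Pool.Agent.H58.OVPR.flip (fun _ => false) p) =
      pick b a (Pool.Agent.H58.OVPR.flip σ p) := by
  unfold pick mix
  funext k
  by_cases hkp : k = p
  · subst hkp
    cases hk : σ k <;> simp [Pool.Agent.H58.OVPR.flip, hk]
  · cases hk : σ k <;> simp [Pool.Agent.H58.OVPR.flip, hk, hkp]

/-- Both changes at a point of a random menu: the same probability as at the base point. -/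
private theorem av_react [Fintype V] [Fintype X] [Nonempty X] (u : (V → X) → Y) (σ : V → Bool)
    (α β : V) :
    (av fun y : V → X => pr fun y' : V → X =>
      u (pick y y' (Pool.Agent.H58.OVPR.flip σ α)) ≠ u (pick y y' σ) ∧
      u (pick y y' (Pool.Agent.H58.OVPR.flip σ β)) ≠ u (pick y y' σ)) =
    av fun y : V → X => pr fun y' : V → X =>
      u (pick y y' (Pool.Agent.H58.OVPR.flip (fun _ => false) α)) ≠
        u (pick y y' fun _ => false) ∧
      u (pick y y' (Pool.Agent.H58.OVPR.flip (fun _ => false) β)) ≠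
        u (pick y y' fun _ => false) := by
  classical
  have h1 := av_mix₂ (Finset.univ.filter fun p => σ p = true)
    (fun a b : V → X => if u (pick a b (Pool.Agent.H58.OVPR.flip (fun _ => false) α)) ≠
        u (pick a b (fun _ => false)) ∧
      u (pick a b (Pool.Agent.H58.OVPR.flip (fun _ => false) β)) ≠
        u (pick a b (fun _ => false))
      then (1 : ℝ) else 0)
  simp only [pick_mix, pick_mix_flip] at h1
  rw [av_comm] at h1
  unfold pr
  refine (Eq.trans ?_ h1).trans ?_
  · exact av_congr fun a => av_congr fun b => by congr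
  · refine av_congr fun a => av_congr fun b => ?_
    congr

end

theorem sq_one {V X Y : Type} [Fintype V] [DecidableEq V] [Fintype X] [Nonempty X]
    (u : (V → X) → Y) (A B : Finset V) (hAB : Disjoint A B) :
    (av fun y : V → X => pr fun y' : V → X =>
      ¬ Uni u y (mix A y' y) (mix B y' y) (mix (A ∪ B) y' y)) ≤
      4 * ∑ i ∈ A, ∑ j ∈ B, av fun y : V → X => pr fun y' : V → X =>
        u (pick y y' (flip (fun _ => false) i)) ≠ u (pick y y' fun _ => false) ∧
        u (pick y y' (flip (fun _ => false) j)) ≠ u (pick y y' fun _ => false) := by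
  classical
  obtain ⟨w, hw⟩ := cross_points A B hAB
  have hpt : ∀ (S : Finset V) (y y' : V → X), pick y y' (ind S) = mix S y' y := by
    intro S y y'
    funext k
    by_cases hk : k ∈ S <;> simp [pick, ind, mix, hk]
  have e : ∀ y y' : V → X, mix ∅ y' y = y := by
    intro y y'
    funext k
    simp [mix]
  have h1 : ∀ y y' : V → X,
      ¬ Uni u y (mix A y' y) (mix B y' y) (mix (A ∪ B) y' y) →
      ∃ z ∈ (A ×ˢ B) ×ˢ (Finset.univ : Finset (Fin 4)),
        u (pick y y' (Pool.Agent.H58.OVPR.flip (w z.1.1 z.1.2 z.2) z.1.1)) ≠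
          u (pick y y' (w z.1.1 z.1.2 z.2)) ∧
        u (pick y y' (Pool.Agent.H58.OVPR.flip (w z.1.1 z.1.2 z.2) z.1.2)) ≠
          u (pick y y' (w z.1.1 z.1.2 z.2)) := by
    intro y y' h
    obtain ⟨α, hα, β, hβ, k, h2, h3⟩ := hw Y (fun σ => u (pick y y' σ)) (by
      simp only [hpt, e]
      exact h)
    exact ⟨((α, β), k), Finset.mem_product.2 ⟨Finset.mem_product.2 ⟨hα, hβ⟩,
      Finset.mem_univ _⟩, h2, h3⟩
  refine (av_mono fun y => (pr_mono fun y' h => h1 y y' h).trans (pr_exists_le _ _)).trans ?_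
  rw [av_sum, Finset.sum_product, Finset.sum_product, Finset.mul_sum]
  refine le_of_eq (Finset.sum_congr rfl fun α hα => ?_)
  rw [Finset.mul_sum]
  refine Finset.sum_congr rfl fun β hβ => ?_
  rw [Finset.sum_congr rfl fun k _ => av_react u (w α β k) α β]
  simp

theorem sq {V X Y : Type} [Fintype V] [DecidableEq V] [Fintype X] [Nonempty X]
    (u : (V → X) → Y) {κ : Type} (I : Finset κ) (A B : κ → Finset V)
    (hA : ∀ a ∈ I, ∀ a' ∈ I, a ≠ a' → Disjoint (A a) (A a'))
    (hB : ∀ b ∈ I, ∀ b' ∈ I, b ≠ b' → Disjoint (B b) (B b'))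
    (hAB : ∀ a b, Disjoint (A a) (B b)) (S : ℕ) {δ : ℝ}
    (hu : (av fun y : V → X => pr fun y' : V → X =>
      S < sens (fun ρ => u (pick y y' ρ)) (fun _ => false)) ≤ δ) :
    ∑ a ∈ I, ∑ b ∈ I, (av fun y : V → X => pr fun y' : V → X =>
      ¬ Uni u y (mix (A a) y' y) (mix (B b) y' y) (mix (A a ∪ B b) y' y)) ≤
      4 * ((S : ℝ) ^ 2 + (Fintype.card V : ℝ) ^ 2 * δ) := by
  classical
  let P : (V → X) → (V → X) → V → Prop := fun y y' i =>
    u (pick y y' (Pool.Agent.H58.OVPR.flip (fun _ => false) i)) ≠ u (pick y y' fun _ => false)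
  let Tm : V → V → ℝ := fun i j => av fun y : V → X => pr fun y' : V → X => P y y' i ∧ P y y' j
  have hT0 : ∀ i j, 0 ≤ Tm i j := fun i j => av_nonneg fun y => pr_nonneg _
  have h1 : ∀ a ∈ I, ∀ b ∈ I, (av fun y : V → X => pr fun y' : V → X =>
      ¬ Uni u y (mix (A a) y' y) (mix (B b) y' y) (mix (A a ∪ B b) y' y)) ≤
      4 * ∑ i ∈ A a, ∑ j ∈ B b, Tm i j := fun a _ b _ => sq_one u (A a) (B b) (hAB a b)
  have h2 : ∑ a ∈ I, ∑ b ∈ I, 4 * ∑ i ∈ A a, ∑ j ∈ B b, Tm i j ≤ 4 * ∑ i, ∑ j, Tm i j := by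
    have e1 : ∑ a ∈ I, ∑ b ∈ I, 4 * ∑ i ∈ A a, ∑ j ∈ B b, Tm i j =
        4 * ∑ a ∈ I, ∑ i ∈ A a, ∑ b ∈ I, ∑ j ∈ B b, Tm i j := by
      rw [Finset.mul_sum]
      refine Finset.sum_congr rfl fun a _ => ?_
      rw [← Finset.mul_sum, Finset.sum_comm]
    rw [e1]
    have e2 : ∀ i, ∑ b ∈ I, ∑ j ∈ B b, Tm i j ≤ ∑ j, Tm i j := by
      intro i
      rw [← Finset.sum_biUnion (fun b hb b' hb' h => hB b hb b' hb' h)]
      exact Finset.sum_le_sum_of_subset_of_nonneg (Finset.subset_univ _) fun j _ _ => hT0 i j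
    have e3 : ∑ a ∈ I, ∑ i ∈ A a, ∑ b ∈ I, ∑ j ∈ B b, Tm i j ≤
        ∑ a ∈ I, ∑ i ∈ A a, ∑ j, Tm i j :=
      Finset.sum_le_sum fun a _ => Finset.sum_le_sum fun i _ => e2 i
    have e4 : ∑ a ∈ I, ∑ i ∈ A a, ∑ j, Tm i j ≤ ∑ i, ∑ j, Tm i j := by
      rw [← Finset.sum_biUnion (fun b hb b' hb' h => hA b hb b' hb' h)]
      exact Finset.sum_le_sum_of_subset_of_nonneg (Finset.subset_univ _) fun i _ _ =>
        Finset.sum_nonneg fun j _ => hT0 i j
    linarith
  refine (Finset.sum_le_sum fun a ha => Finset.sum_le_sum fun b hb => h1 a ha b hb).trans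
    (h2.trans ?_)
  refine mul_le_mul_of_nonneg_left ?_ (by norm_num)
  have h3 : ∑ i, ∑ j, Tm i j = av fun y : V → X => av fun y' : V → X =>
      ((sens (fun ρ => u (pick y y' ρ)) (fun _ => false) : ℕ) : ℝ) ^ 2 := by
    have e1 : ∀ y y' : V → X, ((sens (fun ρ => u (pick y y' ρ)) (fun _ => false) : ℕ) : ℝ) ^ 2 =
        ∑ i, ∑ j, if P y y' i ∧ P y y' j then (1 : ℝ) else 0 := by
      intro y y'
      have e2 : ((sens (fun ρ => u (pick y y' ρ)) (fun _ => false) : ℕ) : ℝ) =
          ∑ i, if P y y' i then (1 : ℝ) else 0 := by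
        unfold sens
        rw [Finset.card_filter]
        push_cast
        refine Finset.sum_congr rfl fun i _ => ?_
        congr
      rw [e2, pow_two, Finset.sum_mul_sum]
      refine Finset.sum_congr rfl fun i _ => Finset.sum_congr rfl fun j _ => ?_
      by_cases hi : P y y' i <;> by_cases hj : P y y' j <;> simp [hi, hj]
    have e3 : ∀ i j, Tm i j = av fun y : V → X => av fun y' : V → X =>
        if P y y' i ∧ P y y' j then (1 : ℝ) else 0 := by
      intro i j
      show (av fun y : V → X => pr fun y' : V → X => P y y' i ∧ P y y' j) = _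
      unfold pr
      refine av_congr fun y => av_congr fun y' => ?_
      congr
    calc ∑ i, ∑ j, Tm i j = ∑ i, ∑ j, av fun y : V → X => av fun y' : V → X =>
        if P y y' i ∧ P y y' j then (1 : ℝ) else 0 :=
          Finset.sum_congr rfl fun i _ => Finset.sum_congr rfl fun j _ => e3 i j
      _ = av fun y : V → X => av fun y' : V → X =>
          ∑ i, ∑ j, if P y y' i ∧ P y y' j then (1 : ℝ) else 0 := by
          simp only [av_sum]
      _ = _ := av_congr fun y => av_congr fun y' => (e1 y y').symm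
  rw [h3]
  have h4 : ∀ y y' : V → X, ((sens (fun ρ => u (pick y y' ρ)) (fun _ => false) : ℕ) : ℝ) ^ 2 ≤
      (S : ℝ) ^ 2 + (Fintype.card V : ℝ) ^ 2 *
        (if S < sens (fun ρ => u (pick y y' ρ)) (fun _ => false) then (1 : ℝ) else 0) := by
    intro y y'
    have h7 : (sens (fun ρ => u (pick y y' ρ)) (fun _ => false) : ℝ) ≤ Fintype.card V := by
      exact_mod_cast Finset.card_le_univ _
    have h0 : (0 : ℝ) ≤ (sens (fun ρ => u (pick y y' ρ)) (fun _ => false) : ℝ) :=
      Nat.cast_nonneg _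
    by_cases h8 : S < sens (fun ρ => u (pick y y' ρ)) (fun _ => false)
    · rw [if_pos h8, mul_one]
      have : (0 : ℝ) ≤ (S : ℝ) ^ 2 := sq_nonneg _
      have h9 := pow_le_pow_left₀ h0 h7 2
      linarith
    · rw [if_neg h8, mul_zero, add_zero]
      have h9 : (sens (fun ρ => u (pick y y' ρ)) (fun _ => false) : ℝ) ≤ S := by
        exact_mod_cast not_lt.1 h8
      exact pow_le_pow_left₀ h0 h9 2
  refine (av_mono fun y => av_mono fun y' => h4 y y').trans ?_
  have h5 : (av fun y : V → X => av fun y' : V → X => ((S : ℝ) ^ 2 + (Fintype.card V : ℝ) ^ 2 *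
        (if S < sens (fun ρ => u (pick y y' ρ)) (fun _ => false) then (1 : ℝ) else 0))) =
      (S : ℝ) ^ 2 + (Fintype.card V : ℝ) ^ 2 * av fun y : V → X => pr fun y' : V → X =>
        S < sens (fun ρ => u (pick y y' ρ)) (fun _ => false) := by
    have e1 : ∀ y : V → X, (av fun y' : V → X => ((S : ℝ) ^ 2 + (Fintype.card V : ℝ) ^ 2 *
        (if S < sens (fun ρ => u (pick y y' ρ)) (fun _ => false) then (1 : ℝ) else 0))) =
        (S : ℝ) ^ 2 + (Fintype.card V : ℝ) ^ 2 * pr fun y' : V → X =>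
        S < sens (fun ρ => u (pick y y' ρ)) (fun _ => false) := by
      intro y
      rw [av_add, av_const, av_mul_left]
      unfold pr
      congr 2
      exact av_congr fun y' => by congr
    rw [av_congr e1, av_add, av_const, av_mul_left]
  rw [h5]
  have h6 : (0 : ℝ) ≤ (Fintype.card V : ℝ) ^ 2 := sq_nonneg _
  nlinarith [mul_le_mul_of_nonneg_left hu h6]

end Pool.Agent.H58.CD
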