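import Pool.Agent.H58.CD.Logic
import Pool.Agent.H58.CD.Sq

/-! Trouble for a pair of sets of coordinates: the union bound over the two-sided gates. -/

set_option autoImplicit false
set_option maxHeartbeats 4000000

namespace Pool.Agent.H58.CD

open Pool.Agent.H58.OVAC Pool.Agent.H58.OVPR

/-- Some gate depends on both moves. -/
def BadS {ι X : Type} {n D s T : ℕ} (N : Net ι (Co n D → X) s T) (A B : Finset (Co n D))
    (y y' : Co n D → X) : Prop :=
  ∃ g, ¬ Uni (N.val g) y (mix A y' y) (mix B y' y) (mix (A ∪ B) y' y)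

/-- The probability that `u` is sensitive at both coordinates. -/
noncomputable def pairT {V X Y : Type} [Fintype V] [DecidableEq V] [Fintype X] (u : (V → X) → Y)
    (i j : V) : ℝ :=
  av fun y : V → X => pr fun y' : V → X =>
    u (pick y y' (Pool.Agent.H58.OVPR.flip (fun _ => false) i)) ≠ u (pick y y' fun _ => false) ∧
    u (pick y y' (Pool.Agent.H58.OVPR.flip (fun _ => false) j)) ≠ u (pick y y' fun _ => false)

theorem pairT_nonneg {V X Y : Type} [Fintype V] [DecidableEq V] [Fintype X] (u : (V → X) → Y)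
    (i j : V) : 0 ≤ pairT u i j := av_nonneg fun _ => pr_nonneg _

section

variable {ι X : Type} {n D s T : ℕ}

theorem uni_of_oneSided {Y : Type} {f : (Co n D → X) → Y} (hf : OneSided f)
    {A B : Finset (Co n D)} (hA : ∀ p ∈ A, p.1.1 = false) (hB : ∀ p ∈ B, p.1.1 = true)
    (y y' : Co n D → X) : Uni f y (mix A y' y) (mix B y' y) (mix (A ∪ B) y' y) := by
  obtain ⟨b, hb⟩ := hf
  cases b with
  | true =>
    refine Or.inl ⟨hb _ _ fun p hp => ?_, hb _ _ fun p hp => ?_⟩
    · have h1 : p ∉ A := fun h => by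
        rw [hA p h] at hp
        exact absurd hp (by decide)
      simp [mix, h1]
    · have h1 : p ∉ A := fun h => by
        rw [hA p h] at hp
        exact absurd hp (by decide)
      simp [mix, h1]
  | false =>
    refine Or.inr ⟨hb _ _ fun p hp => ?_, hb _ _ fun p hp => ?_⟩
    · have h1 : p ∉ B := fun h => by
        rw [hB p h] at hp
        exact absurd hp (by decide)
      simp [mix, h1]
    · have h1 : p ∉ B := fun h => by
        rw [hB p h] at hp
        exact absurd hp (by decide)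
      simp [mix, h1]

theorem uni_of_depOne {V Y : Type} [DecidableEq V] {f : (V → X) → Y} (hf : DepOne f)
    {A B : Finset V} (hAB : Disjoint A B) (y y' : V → X) :
    Uni f y (mix A y' y) (mix B y' y) (mix (A ∪ B) y' y) := by
  obtain ⟨P, h1, h2⟩ := hf
  by_cases hPA : ∃ p ∈ P, p ∈ A
  · obtain ⟨p, hp, hpA⟩ := hPA
    have h3 : ∀ q ∈ P, q ∉ B := by
      intro q hq
      have : q = p := Finset.card_le_one.1 h1 q hq p hp
      subst this
      exact Finset.disjoint_left.1 hAB hpA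
    refine Or.inr ⟨h2 _ _ fun q hq => ?_, h2 _ _ fun q hq => ?_⟩
    · simp [mix, h3 q hq]
    · simp [mix, h3 q hq]
  · push Not at hPA
    refine Or.inl ⟨h2 _ _ fun q hq => ?_, h2 _ _ fun q hq => ?_⟩
    · simp [mix, hPA q hq]
    · simp [mix, hPA q hq]

theorem disj_lists {A B : Finset (Co n D)} (hA : ∀ p ∈ A, p.1.1 = false)
    (hB : ∀ p ∈ B, p.1.1 = true) : Disjoint A B := by
  rw [Finset.disjoint_left]
  intro p h1 h2
  have h3 := hA p h1
  rw [hB p h2] at h3
  exact absurd h3 (by decide)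

/-- Trouble means that the first false literal of a two-sided gate depends on both moves. -/
theorem badS_first [Fintype ι] (N : Net ι (Co n D → X) s T) (hin : ∀ i, DepOne (N.inp i))
    {A B : Finset (Co n D)} (hA : ∀ p ∈ A, p.1.1 = false) (hB : ∀ p ∈ B, p.1.1 = true)
    (y y' : Co n D → X) (h : BadS N A B y y') :
    ∃ g, ¬ OneSided (N.val g) ∧
      ¬ Uni (N.first g) y (mix A y' y) (mix B y' y) (mix (A ∪ B) y' y) := by
  have h1 : ∀ i, Uni (N.inp i) y (mix A y' y) (mix B y' y) (mix (A ∪ B) y' y) := fun i =>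
    uni_of_depOne (hin i) (disj_lists hA hB) y y'
  have h2 : ∀ g, ¬ ¬ OneSided (N.val g) →
      Uni (N.val g) y (mix A y' y) (mix B y' y) (mix (A ∪ B) y' y) := fun g hg =>
    uni_of_oneSided (not_not.1 hg) hA hB y y'
  exact exists_first_of_hit N _ h1 h2 (exists_hit N _ h1 h2 h)

open Classical in
/-- The two-sided gates. -/
noncomputable def twoS (N : Net ι (Co n D → X) s T) : Finset (Fin s) :=
  Finset.univ.filter fun g => ¬ OneSided (N.val g)

theorem mem_twoS (N : Net ι (Co n D → X) s T) (g : Fin s) :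
    g ∈ twoS N ↔ ¬ OneSided (N.val g) := by
  classical
  unfold twoS
  rw [Finset.mem_filter]
  exact ⟨fun h => h.2, fun h => ⟨Finset.mem_univ _, h⟩⟩

/-- The union bound. -/
theorem first_sets [Fintype ι] [Fintype X] [Nonempty X] (N : Net ι (Co n D → X) s T)
    {A B : Finset (Co n D)} (hAB : Disjoint A B) (I : Finset (Fin s)) :
    (av fun y : Co n D → X => pr fun y' : Co n D → X => ∃ g, g ∈ I ∧
      ¬ Uni (N.first g) y (mix A y' y) (mix B y' y) (mix (A ∪ B) y' y)) ≤
      ∑ g ∈ I, 4 * ∑ i ∈ A, ∑ j ∈ B, pairT (N.first g) i j := by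
  have h1 : ∀ y : Co n D → X, (pr fun y' : Co n D → X => ∃ g, g ∈ I ∧
      ¬ Uni (N.first g) y (mix A y' y) (mix B y' y) (mix (A ∪ B) y' y)) ≤
      ∑ g ∈ I, pr fun y' : Co n D → X =>
        ¬ Uni (N.first g) y (mix A y' y) (mix B y' y) (mix (A ∪ B) y' y) := by
    intro y
    exact pr_exists_le I fun g y' =>
      ¬ Uni (N.first g) y (mix A y' y) (mix B y' y) (mix (A ∪ B) y' y)
  refine (av_mono h1).trans ?_
  rw [av_sum]
  exact Finset.sum_le_sum fun g _ => sq_one (N.first g) A B hAB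

/-- The union bound for trouble. -/
theorem null_sets [Fintype ι] [Fintype X] [Nonempty X] (N : Net ι (Co n D → X) s T)
    (hin : ∀ i, DepOne (N.inp i)) {A B : Finset (Co n D)} (hA : ∀ p ∈ A, p.1.1 = false)
    (hB : ∀ p ∈ B, p.1.1 = true) :
    (av fun y : Co n D → X => pr fun y' : Co n D → X => BadS N A B y y') ≤
      ∑ g ∈ twoS N, 4 * ∑ i ∈ A, ∑ j ∈ B, pairT (N.first g) i j := by
  refine (av_mono fun y => pr_mono fun y' h => ?_).trans (first_sets N (disj_lists hA hB) (twoS N))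
  obtain ⟨g, h1, h2⟩ := badS_first N hin hA hB y y' h
  exact ⟨g, (mem_twoS N g).2 h1, h2⟩

theorem mix_mix_union {V : Type} [DecidableEq V] (A B : Finset V) (z y : V → X) :
    mix B z (mix A z y) = mix (A ∪ B) z y := by
  funext p
  unfold mix
  by_cases h1 : p ∈ A <;> by_cases h2 : p ∈ B <;> simp [h1, h2]

/-- Only the values on the two sets matter. -/
theorem badS_congr (N : Net ι (Co n D → X) s T) {A B : Finset (Co n D)} (y : Co n D → X)
    {z z' : Co n D → X} (hA : ∀ p ∈ A, z p = z' p) (hB : ∀ p ∈ B, z p = z' p) :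
    BadS N A B y z ↔ BadS N A B y z' := by
  have h1 : mix A z y = mix A z' y := by
    funext p
    unfold mix
    by_cases h : p ∈ A
    · simp [h, hA p h]
    · simp [h]
  have h2 : mix B z y = mix B z' y := by
    funext p
    unfold mix
    by_cases h : p ∈ B
    · simp [h, hB p h]
    · simp [h]
  have h3 : mix (A ∪ B) z y = mix (A ∪ B) z' y := by
    rw [← mix_mix_union, ← mix_mix_union, h1]
    funext p
    unfold mix
    by_cases h : p ∈ B
    · simp [h, hB p h]
    · simp [h]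
  unfold BadS
  rw [h1, h2, h3]

/-- A square is cut into four squares. -/
theorem four (N : Net ι (Co n D → X) s T) (A₁ A₂ B₁ B₂ : Finset (Co n D)) (y z : Co n D → X)
    (h : BadS N (A₁ ∪ A₂) (B₁ ∪ B₂) y z) :
    BadS N A₁ B₁ y z ∨ BadS N A₂ B₁ (mix A₁ z y) z ∨ BadS N A₁ B₂ (mix B₁ z y) z ∨
      BadS N A₂ B₂ (mix (A₁ ∪ B₁) z y) z := by
  obtain ⟨g, hg⟩ := h
  by_contra hcon
  push Not at hcon
  obtain ⟨c1, c2, c3, c4⟩ := hcon
  apply hg
  have d1 : Uni (N.val g) y (mix A₁ z y) (mix B₁ z y) (mix (A₁ ∪ B₁) z y) := by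
    by_contra h1
    exact c1 ⟨g, h1⟩
  have d2 : Uni (N.val g) (mix A₁ z y) (mix A₂ z (mix A₁ z y)) (mix B₁ z (mix A₁ z y))
      (mix (A₂ ∪ B₁) z (mix A₁ z y)) := by
    by_contra h1
    exact c2 ⟨g, h1⟩
  have d3 : Uni (N.val g) (mix B₁ z y) (mix A₁ z (mix B₁ z y)) (mix B₂ z (mix B₁ z y))
      (mix (A₁ ∪ B₂) z (mix B₁ z y)) := by
    by_contra h1
    exact c3 ⟨g, h1⟩
  have d4 : Uni (N.val g) (mix (A₁ ∪ B₁) z y) (mix A₂ z (mix (A₁ ∪ B₁) z y))
      (mix B₂ z (mix (A₁ ∪ B₁) z y)) (mix (A₂ ∪ B₂) z (mix (A₁ ∪ B₁) z y)) := by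
    by_contra h1
    exact c4 ⟨g, h1⟩
  simp only [mix_mix_union] at d2 d3 d4
  have e0 : mix (∅ : Finset (Co n D)) z y = y := by
    funext p
    simp [mix]
  let Ak : ℕ → Finset (Co n D) := fun k => if k = 0 then ∅ else if k = 1 then A₁ else A₁ ∪ A₂
  let Bl : ℕ → Finset (Co n D) := fun l => if l = 0 then ∅ else if l = 1 then B₁ else B₁ ∪ B₂
  have hmain := grid (fun k l => N.val g (mix (Ak k ∪ Bl l) z y)) 2 2 (fun k hk l hl => by
    have hk' : k = 0 ∨ k = 1 := by omega
    have hl' : l = 0 ∨ l = 1 := by omega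
    rcases hk' with rfl | rfl <;> rcases hl' with rfl | rfl
    · simpa [Ak, Bl, Uni, e0] using d1
    · have e1 : B₁ ∪ A₁ = A₁ ∪ B₁ := Finset.union_comm _ _
      have e2 : B₁ ∪ (A₁ ∪ B₂) = A₁ ∪ (B₁ ∪ B₂) := by
        ext p; simp only [Finset.mem_union]; tauto
      rw [e1, e2] at d3
      simpa [Ak, Bl, Uni] using d3
    · have e2 : A₁ ∪ (A₂ ∪ B₁) = A₁ ∪ A₂ ∪ B₁ := by
        ext p; simp only [Finset.mem_union]; tauto
      rw [e2] at d2
      simpa [Ak, Bl, Uni] using d2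
    · have e1 : A₁ ∪ B₁ ∪ A₂ = A₁ ∪ A₂ ∪ B₁ := by
        ext p; simp only [Finset.mem_union]; tauto
      have e2 : A₁ ∪ B₁ ∪ B₂ = A₁ ∪ (B₁ ∪ B₂) := by
        ext p; simp only [Finset.mem_union]; tauto
      have e3 : A₁ ∪ B₁ ∪ (A₂ ∪ B₂) = A₁ ∪ A₂ ∪ (B₁ ∪ B₂) := by
        ext p; simp only [Finset.mem_union]; tauto
      rw [e1, e2, e3] at d4
      simpa [Ak, Bl, Uni] using d4)
  simpa [Ak, Bl, Uni, e0] using hmain

end

end Pool.Agent.H58.CD
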