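import Pool.Agent.H58.CD.Mgf
import Pool.Agent.H58.OVPR.Main

/-! [H58 CD SMOOTH] A label with few values is nearly independent of most coordinates.

PROOF. `Ω = Fin m → Z`. For `σ : S`, `t : Fin m` let `P σ = pr (c = σ)` and
`Q σ t u = pr (fun a => c (update a t u) = σ)`; `av (Q σ t) = P σ` by `av_update` (unfold `pr`, exchange
the two averages with `av_comm`). Let `g σ t u = 1` if `Q σ t u ≥ P σ`, else `-1`, and
`h σ t u = g σ t u - av (g σ t)`; `av (h σ t) = 0`, `|h| ≤ 2`. Then
`av_u |Q σ t u - P σ| = av_u (g σ t u * (Q σ t u - P σ)) = av_u (h σ t u * Q σ t u)` (because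
`av_u (Q - P) = 0` and `av_u h = 0`) `= av_a (1[c a = σ] * h σ t (a t))` (by `av_update` for the
function `a ↦ 1[c a = σ] * h σ t (a t)`, whose value at `update a t u` is `1[c (update a t u) = σ] * h σ t u`).
Sum over `t`: `Σ_t av_u |Q - P| = av_a (1[c a = σ] * Σ_t h σ t (a t)) = m * av_a (1[c a = σ] * Zσ a)`,
`Zσ a = (1/m) Σ_t h σ t (a t)`. By `mgf` with `x = l / m`: `av exp (l Zσ) ≤ exp (4 (l/m)^2 m) =
exp (4 l^2 / m)`. By `ent_step` with `B = 4 l^2 / m`:
`av (1[c = σ] Zσ) ≤ (P σ * 4 l^2 / m + negMulLog (P σ)) / l`. Sum over `σ`, `Σ P σ = 1`, `ent_sum`.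
Exchange the sums over `σ`, `t` and the average over `u` (`av_sum`, `Finset.sum_comm`). -/

set_option autoImplicit false
set_option maxHeartbeats 4000000

namespace Pool.Agent.H58.CD

open Pool.Agent.H58.OVAC Pool.Agent.H58.OVPR

open Classical in
private theorem smooth_one {Z : Type} [Fintype Z] [Nonempty Z] {m : ℕ} (s : (Fin m → Z) → Prop)
    (hm : 1 ≤ m) {l : ℝ} (hl : 0 < l) (hlm : 2 * l ≤ m) :
    (∑ t : Fin m, av fun u : Z => |pr (fun a : Fin m → Z => s (Function.update a t u)) - pr s|) ≤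
      m * ((pr s * (4 * l ^ 2 / m) + Real.negMulLog (pr s)) / l) := by
  have hm0 : (0 : ℝ) < m := by exact_mod_cast hm
  obtain ⟨Q, hQ⟩ : ∃ Q : Fin m → Z → ℝ, ∀ t u, Q t u =
    pr (fun a : Fin m → Z => s (Function.update a t u)) := ⟨_, fun _ _ => rfl⟩
  obtain ⟨g, hg⟩ : ∃ g : Fin m → Z → ℝ, ∀ t u, g t u = if pr s ≤ Q t u then 1 else -1 :=
    ⟨_, fun _ _ => rfl⟩
  obtain ⟨h, hh⟩ : ∃ h : Fin m → Z → ℝ, ∀ t u, h t u = g t u - av (g t) := ⟨_, fun _ _ => rfl⟩
  have hh' : ∀ t, h t = fun u => g t u - av (g t) := fun t => funext (hh t)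
  have hg1 : ∀ t u, |g t u| ≤ 1 := by
    intro t u
    rw [hg]
    split_ifs <;> simp
  have hag : ∀ t, |av (g t)| ≤ 1 := by
    intro t
    rw [abs_le]
    exact ⟨le_av fun u => (abs_le.1 (hg1 t u)).1, av_le fun u => (abs_le.1 (hg1 t u)).2⟩
  have h2 : ∀ t u, |h t u| ≤ 2 := by
    intro t u
    rw [hh]
    refine (abs_sub _ _).trans ?_
    have := hg1 t u
    have := hag t
    linarith
  have h0 : ∀ t, av (h t) = 0 := by
    intro t
    rw [hh', av_sub, av_const, sub_self]
  have hQP : ∀ t, av (Q t) = pr s := by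
    intro t
    have e1 : av (Q t) = av fun u : Z => av fun a : Fin m → Z =>
        if s (Function.update a t u) then (1 : ℝ) else 0 := av_congr fun u => hQ t u
    rw [e1, av_comm]
    exact av_update t fun a => if s a then (1 : ℝ) else 0
  have habs : ∀ t, (av fun u : Z => |Q t u - pr s|) =
      av fun a : Fin m → Z => (if s a then (1 : ℝ) else 0) * h t (a t) := by
    intro t
    have e1 : ∀ u, |Q t u - pr s| = h t u * Q t u + (av (g t) * (Q t u - pr s) - pr s * h t u) := by
      intro u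
      have e2 : |Q t u - pr s| = g t u * (Q t u - pr s) := by
        rw [hg]
        by_cases h3 : pr s ≤ Q t u
        · rw [if_pos h3, one_mul, abs_of_nonneg (sub_nonneg.2 h3)]
        · rw [if_neg h3, abs_of_neg (sub_neg.2 (not_le.1 h3))]
          ring
      rw [e2, hh]
      ring
    rw [av_congr e1, av_add, av_sub, av_mul_left, av_sub, av_const, hQP, sub_self, mul_zero,
      av_mul_left]
    have e3 : (av fun u => h t u) = 0 := h0 t
    rw [e3, mul_zero, sub_zero, add_zero]
    have e4 : ∀ u, h t u * Q t u = av fun a : Fin m → Z =>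
        (if s (Function.update a t u) then (1 : ℝ) else 0) * h t ((Function.update a t u) t) := by
      intro u
      rw [hQ]
      unfold pr
      rw [← av_mul_left]
      refine av_congr fun a => ?_
      rw [Function.update_self, mul_comm]
    rw [av_congr e4, av_comm]
    exact av_update t fun a => (if s a then (1 : ℝ) else 0) * h t (a t)
  obtain ⟨W, hW⟩ : ∃ W : (Fin m → Z) → ℝ, ∀ a, W a = (1 / (m : ℝ)) * ∑ t, h t (a t) :=
    ⟨_, fun _ => rfl⟩
  have hsum : (∑ t : Fin m, av fun u : Z => |Q t u - pr s|) =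
      m * av fun a : Fin m → Z => (if s a then (1 : ℝ) else 0) * W a := by
    rw [Finset.sum_congr rfl fun t _ => habs t, ← av_sum, ← av_mul_left]
    refine av_congr fun a => ?_
    rw [hW, ← Finset.mul_sum]
    field_simp
  have hmgf := mgf h h0 h2 (x := l / m) (by positivity) (by
    rw [mul_div_assoc', div_le_one hm0]
    exact hlm)
  have hB : (av fun a : Fin m → Z => Real.exp (l * W a)) ≤ Real.exp (4 * l ^ 2 / m) := by
    have e1 : (av fun a : Fin m → Z => Real.exp (l * W a)) =
        av fun a : Fin m → Z => Real.exp (l / m * ∑ t, h t (a t)) := by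
      refine av_congr fun a => ?_
      rw [hW]
      congr 1
      ring
    rw [e1]
    refine hmgf.trans (le_of_eq ?_)
    congr 1
    field_simp
  have hent := ent_step s W hl hB
  have hfin : (∑ t : Fin m, av fun u : Z =>
      |pr (fun a : Fin m → Z => s (Function.update a t u)) - pr s|) =
      ∑ t : Fin m, av fun u : Z => |Q t u - pr s| :=
    Finset.sum_congr rfl fun t _ => av_congr fun u => by rw [hQ]
  rw [hfin, hsum]
  exact mul_le_mul_of_nonneg_left hent hm0.le

theorem smooth {Z S : Type} [Fintype Z] [Nonempty Z] [Fintype S] [Nonempty S] {m : ℕ}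
    (hm : 1 ≤ m) (c : (Fin m → Z) → S) {l : ℝ} (hl : 0 < l) (hlm : 2 * l ≤ m) :
    (∑ t : Fin m, av fun u : Z => ∑ σ : S,
      |pr (fun a : Fin m → Z => c (Function.update a t u) = σ) - pr (fun a => c a = σ)|) ≤
      m * (4 * l / m + Real.log (Fintype.card S) / l) := by
  classical
  have hm0 : (0 : ℝ) < m := by exact_mod_cast hm
  have h1 : (∑ t : Fin m, av fun u : Z => ∑ σ : S,
      |pr (fun a : Fin m → Z => c (Function.update a t u) = σ) - pr (fun a => c a = σ)|) =
      ∑ σ : S, ∑ t : Fin m, av fun u : Z =>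
      |pr (fun a : Fin m → Z => c (Function.update a t u) = σ) - pr (fun a => c a = σ)| := by
    rw [Finset.sum_comm]
    exact Finset.sum_congr rfl fun t _ => av_sum _ _
  rw [h1]
  refine (Finset.sum_le_sum fun σ _ => smooth_one (fun a : Fin m → Z => c a = σ) hm hl hlm).trans ?_
  have h2 : ∑ σ : S, pr (fun a : Fin m → Z => c a = σ) = 1 := by
    unfold pr
    rw [← av_sum]
    have e1 : ∀ a : Fin m → Z, (∑ σ : S, if c a = σ then (1 : ℝ) else 0) = 1 := by
      intro a
      rw [Finset.sum_ite_eq]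
      simp
    rw [av_congr e1, av_const]
  have h3 := ent_sum (fun σ : S => pr (fun a : Fin m → Z => c a = σ)) (fun σ => pr_nonneg _) h2
  rw [← Finset.mul_sum, ← Finset.sum_div, Finset.sum_add_distrib, ← Finset.sum_mul, h2, one_mul]
  refine mul_le_mul_of_nonneg_left ?_ hm0.le
  have e2 : 4 * l / m + Real.log (Fintype.card S) / l =
      (4 * l ^ 2 / m + Real.log (Fintype.card S)) / l := by
    field_simp
  rw [e2]
  exact div_le_div_of_nonneg_right (by linarith) hl.le

end Pool.Agent.H58.CD
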