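import Pool.Agent.H58.CD.Put
import Pool.Agent.H58.CD.Gap

/-! [H58 CD TOP] From the four points to the advantage.

NOTATION. `S r x = Σ_g w r g * [N.val g x] + fr r false x + fr r true x`, `acc x` iff
`dec (fun r => f r (S r x)) = true`. For blocks `a, b`: `A = blk false a`, `B = blk true b`, and for
`y, y'`: `xu = mix A y' y`, `xv = mix B y' y`, `xuv = mix (A ∪ B) y' y`.
PROOF of `additive`. If not `Bad4`, then every `N.val g` satisfies `Uni`, so (as 0/1 numbers)
`val xuv = val xu + val xv - val x` in both alternatives. `fr r false` depends only on the list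
`false`: it has the same value at `xuv` and `xu`, and at `xv` and `x` (a position with `p.1.1 = false`
is not in `B`); `fr r true` the same with `xv`, `xu`. So `S r xuv = S r xu + S r xv - S r x`.
PROOF of `top`. Every `i < n' m` is uniquely `a m + t` with `a < n'`, `t < m` (sum over `Fin (n' * m)`
via `finProdFinEquiv`, or the hypothesis is already in this form: see the statement, where the sum is
over `a, b, t, t'`). Fix `a, b < n'`, `t'`, and put `i = a m + t`, `j = b m + t'`.
(1) `av_y avR acc (plant y i j u v) = av_y av_y' avR acc (mix (A ∪ B) (plant y' i j u v) y)` by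
`mix_plant` and `av_mix` (for fixed `u, v`; `avR` is a weighted sum, exchange it with `av`; the finset
`A ∪ B` contains all coordinates of the two positions).
(2) For fixed `y` let `X r z = S r (put y false a z)` and `Y r z = S r (put y true b z) - S r y`. If not
`Bad4 N m a b y y''` then `acc (mix (A ∪ B) y'' y)` iff `dec (fun r => f r (X r (get y'' false a) +
Y r (get y'' true b))) = true` (`additive`, `mix_blk`). Apply this to `y'' = plant y' i j u v`, whose
blocks are `update (get y' false a) t u` and `update (get y' true b) t' v` (`get_plant_left/right`), so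
`1[acc (...)] ≤ 1[Bad4 N m a b y (plant y' i j u v)] + 1[dec (fun r => f r (X r (update z t u) + Y r (update z' t' v)))]`
with `z = get y' false a`, `z' = get y' true b`.
(3) Average over `y'` of the last term: by `av_get` it is the average over independent `z, z'`; sum over
`t` and apply `gap`: at most `m (av_z pr_z' K + H J / M) + m (4 l / m + H log (2M+1) / l)`,
`K z z' = (dec (fun r => f r (X r z + Y r z')) = true)`.
(4) `av_z pr_z' K = av_y' [K (get y' false a) (get y' true b)] ≤ av_y' [acc (mix (A ∪ B) y' y)] +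
av_y' [Bad4 N m a b y y']` by (2) for `y'' = y'`; average over `y`: `pr acc + av_y pr_y' Bad4` by
`av_mix`.
(5) Sum over `a, b, t'` (and `t`): the terms `Bad4 (plant ...)` give `m^2 E'` by `hplant` (for every
pair `(t, t')` take `i a b = a m + t`, `j a b = b m + t'`), the others `m^2 E` by `hnull`. -/

set_option autoImplicit false
set_option maxHeartbeats 4000000

namespace Pool.Agent.H58.CD

open Pool.Agent.H58.OVAC Pool.Agent.H58.OVPR

variable {ι : Type} {n D k s T H J M : ℕ}

/-- The sums with weights, plus a function of each of the two lists. -/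
noncomputable def wsum (N : Net ι (Co n D → Fin k) s T) (w : Fin H → Fin s → ℝ)
    (fr : Fin H → Bool → (Co n D → Fin k) → ℝ) (r : Fin H) (x : Co n D → Fin k) : ℝ :=
  (∑ g, w r g * (if N.val g x = true then (1 : ℝ) else 0)) + fr r false x + fr r true x

private theorem blk_not {b : Bool} {m a : ℕ} {p : Co n D} (hp : p.1.1 ≠ b) :
    p ∉ blk n D m b a := by
  unfold blk
  rw [Finset.mem_filter]
  rintro ⟨-, h, -⟩
  exact hp h

theorem additive (N : Net ι (Co n D → Fin k) s T) (w : Fin H → Fin s → ℝ)
    (fr : Fin H → Bool → (Co n D → Fin k) → ℝ)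
    (hfr : ∀ r b (x x' : Co n D → Fin k), (∀ p, p.1.1 = b → x p = x' p) → fr r b x = fr r b x')
    (m a b : ℕ) (y y' : Co n D → Fin k) (h : ¬ Bad4 N m a b y y') (r : Fin H) :
    wsum N w fr r (mix (blk n D m false a ∪ blk n D m true b) y' y) =
      wsum N w fr r (mix (blk n D m false a) y' y) +
      (wsum N w fr r (mix (blk n D m true b) y' y) - wsum N w fr r y) := by
  have hU : ∀ g, Uni (N.val g) y (mix (blk n D m false a) y' y) (mix (blk n D m true b) y' y)
      (mix (blk n D m false a ∪ blk n D m true b) y' y) := by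
    intro g
    by_contra hg
    exact h ⟨g, hg⟩
  have e1 : fr r false (mix (blk n D m false a ∪ blk n D m true b) y' y) =
      fr r false (mix (blk n D m false a) y' y) := hfr r false _ _ fun p hp => by
    have h1 : p ∉ blk n D m true b := blk_not (by rw [hp]; decide)
    unfold mix
    simp only [Finset.mem_union, h1, or_false]
  have e2 : fr r false (mix (blk n D m true b) y' y) = fr r false y :=
    hfr r false _ _ fun p hp => by
      have h1 : p ∉ blk n D m true b := blk_not (by rw [hp]; decide)
      unfold mix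
      rw [if_neg h1]
  have e3 : fr r true (mix (blk n D m false a ∪ blk n D m true b) y' y) =
      fr r true (mix (blk n D m true b) y' y) := hfr r true _ _ fun p hp => by
    have h1 : p ∉ blk n D m false a := blk_not (by rw [hp]; decide)
    unfold mix
    simp only [Finset.mem_union, h1, false_or]
  have e4 : fr r true (mix (blk n D m false a) y' y) = fr r true y :=
    hfr r true _ _ fun p hp => by
      have h1 : p ∉ blk n D m false a := blk_not (by rw [hp]; decide)
      unfold mix
      rw [if_neg h1]
  have hs : (∑ g, w r g * (if N.val g (mix (blk n D m false a ∪ blk n D m true b) y' y) = true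
        then (1 : ℝ) else 0)) =
      (∑ g, w r g * (if N.val g (mix (blk n D m false a) y' y) = true then (1 : ℝ) else 0)) +
      ((∑ g, w r g * (if N.val g (mix (blk n D m true b) y' y) = true then (1 : ℝ) else 0)) -
        ∑ g, w r g * (if N.val g y = true then (1 : ℝ) else 0)) := by
    rw [← Finset.sum_sub_distrib, ← Finset.sum_add_distrib]
    refine Finset.sum_congr rfl fun g _ => ?_
    rcases hU g with ⟨h1, h2⟩ | ⟨h1, h2⟩
    · rw [h1, h2]
      ring
    · rw [h1, h2]
      ring
  unfold wsum
  rw [hs, e1, e2, e3, e4]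
  ring

section

variable {α : Type} (N : Net ι (Co n D → Fin k) s T) (w : Fin H → Fin s → ℝ)
  (fr : Fin H → Bool → (Co n D → Fin k) → ℝ) (f : Fin H → ℝ → α) (dec : (Fin H → α) → Bool)

private noncomputable def acc (x : Co n D → Fin k) : Bool := dec fun r => f r (wsum N w fr r x)

private noncomputable def kk (m : ℕ) (y : Co n D → Fin k) (a b : ℕ) (z z' : Fin m → Str k D) :
    Bool :=
  dec fun r => f r (wsum N w fr r (put y false a z) +
    (wsum N w fr r (put y true b z') - wsum N w fr r y))

private theorem acc_mix (hfr : ∀ r b (x x' : Co n D → Fin k), (∀ p, p.1.1 = b → x p = x' p) →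
      fr r b x = fr r b x') {m a b : ℕ} (ha : a * m + m ≤ n) (hb : b * m + m ≤ n)
    (y y' : Co n D → Fin k) (h : ¬ Bad4 N m a b y y') :
    acc N w fr f dec (mix (blk n D m false a ∪ blk n D m true b) y' y) =
      kk N w fr f dec m y a b (get m y' false a ha) (get m y' true b hb) := by
  unfold acc kk
  congr 1
  funext r
  rw [additive N w fr hfr m a b y y' h r, mix_blk y y' false a ha, mix_blk y y' true b hb]

open Classical in
private theorem acc_le (hfr : ∀ r b (x x' : Co n D → Fin k), (∀ p, p.1.1 = b → x p = x' p) →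
      fr r b x = fr r b x') {m a b : ℕ} (ha : a * m + m ≤ n) (hb : b * m + m ≤ n)
    (y y' : Co n D → Fin k) :
    (if acc N w fr f dec (mix (blk n D m false a ∪ blk n D m true b) y' y) = true
      then (1 : ℝ) else 0) ≤ (if Bad4 N m a b y y' then (1 : ℝ) else 0) +
      (if kk N w fr f dec m y a b (get m y' false a ha) (get m y' true b hb) = true
        then (1 : ℝ) else 0) := by
  by_cases h : Bad4 N m a b y y'
  · rw [if_pos h]
    split_ifs <;> norm_num
  · rw [if_neg h, acc_mix N w fr f dec hfr ha hb y y' h, zero_add]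

open Classical in
private theorem kk_le (hfr : ∀ r b (x x' : Co n D → Fin k), (∀ p, p.1.1 = b → x p = x' p) →
      fr r b x = fr r b x') {m a b : ℕ} (ha : a * m + m ≤ n) (hb : b * m + m ≤ n)
    (y y' : Co n D → Fin k) :
    (if kk N w fr f dec m y a b (get m y' false a ha) (get m y' true b hb) = true
        then (1 : ℝ) else 0) ≤
    (if acc N w fr f dec (mix (blk n D m false a ∪ blk n D m true b) y' y) = true
      then (1 : ℝ) else 0) + (if Bad4 N m a b y y' then (1 : ℝ) else 0) := by
  by_cases h : Bad4 N m a b y y'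
  · rw [if_pos h]
    split_ifs <;> norm_num
  · rw [if_neg h, acc_mix N w fr f dec hfr ha hb y y' h, add_zero]

private theorem plant_av [Nonempty (Fin k)] (g : (Co n D → Fin k) → Bool) (i j : Fin n)
    (J : Finset (Co n D)) (hi : ∀ c, ((false, i), c) ∈ J) (hj : ∀ c, ((true, j), c) ∈ J) :
    (av fun y : Co n D → Fin k => avR fun u v : Str k D =>
      if g (plant y i j u v) = true then (1 : ℝ) else 0) =
    av fun y : Co n D → Fin k => av fun y' : Co n D → Fin k => avR fun u v : Str k D =>
      if g (mix J (plant y' i j u v) y) = true then (1 : ℝ) else 0 := by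
  rw [← av_mix J (fun y : Co n D → Fin k => avR fun u v : Str k D =>
    if g (plant y i j u v) = true then (1 : ℝ) else 0), av_comm]
  refine av_congr fun y => av_congr fun y' => ?_
  congr 1
  funext u v
  rw [mix_plant y y' J i j u v hi hj]

open Classical in
private theorem av_kk [Nonempty (Fin k)]
    (hfr : ∀ r b (x x' : Co n D → Fin k), (∀ p, p.1.1 = b → x p = x' p) →
      fr r b x = fr r b x') {m a b : ℕ} (ha : a * m + m ≤ n) (hb : b * m + m ≤ n) :
    (av fun y : Co n D → Fin k => av fun z : Fin m → Str k D => pr fun z' : Fin m → Str k D =>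
      kk N w fr f dec m y a b z z' = true) ≤
    (pr fun y : Co n D → Fin k => acc N w fr f dec y = true) +
      av fun y : Co n D → Fin k => pr fun y' : Co n D → Fin k => Bad4 N m a b y y' := by
  have h1 : ∀ y : Co n D → Fin k, (av fun z : Fin m → Str k D => pr fun z' : Fin m → Str k D =>
      kk N w fr f dec m y a b z z' = true) ≤
      (av fun y' : Co n D → Fin k =>
        if acc N w fr f dec (mix (blk n D m false a ∪ blk n D m true b) y' y) = true
          then (1 : ℝ) else 0) + pr fun y' : Co n D → Fin k => Bad4 N m a b y y' := by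
    intro y
    have e1 := av_get (X := Fin k) (D := D) a b ha hb
      (fun z z' => if kk N w fr f dec m y a b z z' = true then (1 : ℝ) else 0)
    have e2 : (av fun z : Fin m → Str k D => pr fun z' : Fin m → Str k D =>
        kk N w fr f dec m y a b z z' = true) =
        av fun z : Fin m → Str k D => av fun z' : Fin m → Str k D =>
          if kk N w fr f dec m y a b z z' = true then (1 : ℝ) else 0 := by
      unfold pr
      exact av_congr fun z => av_congr fun z' => by congr
    have e3 : (pr fun y' : Co n D → Fin k => Bad4 N m a b y y') =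
        av fun y' : Co n D → Fin k => if Bad4 N m a b y y' then (1 : ℝ) else 0 := by
      unfold pr
      exact av_congr fun z => by congr
    rw [e2, e3, ← av_add]
    refine le_trans (le_of_eq e1.symm) ?_
    exact av_mono fun y' => kk_le N w fr f dec hfr ha hb y y'
  refine (av_mono h1).trans ?_
  rw [av_add]
  refine add_le_add (le_of_eq ?_) le_rfl
  rw [av_comm, av_mix (blk n D m false a ∪ blk n D m true b)
    (fun x : Co n D → Fin k => if acc N w fr f dec x = true then (1 : ℝ) else 0)]
  unfold pr
  exact av_congr fun z => by congr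

open Classical in
private theorem row (hk : 2 ≤ k) {m : ℕ} (hm : 1 ≤ m) (hM : 1 ≤ M)
    (hfr : ∀ r b (x x' : Co n D → Fin k), (∀ p, p.1.1 = b → x p = x' p) →
      fr r b x = fr r b x') (hf : ∀ r, IsStep J (f r)) {l : ℝ} (hl : 0 < l) (hlm : 2 * l ≤ m)
    {a b : ℕ} (ha : a * m + m ≤ n) (hb : b * m + m ≤ n) (t' : Fin m) (pa : Fin m → Fin n)
    (hpa : ∀ t, (pa t : ℕ) = a * m + t) (j : Fin n) (hj : (j : ℕ) = b * m + t') :
    (∑ t : Fin m, av fun y : Co n D → Fin k => avR fun u v : Str k D =>
      if acc N w fr f dec (plant y (pa t) j u v) = true then (1 : ℝ) else 0) ≤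
    (∑ t : Fin m, av fun y : Co n D → Fin k => av fun y' : Co n D → Fin k =>
      avR fun u v : Str k D => if Bad4 N m a b y (plant y' (pa t) j u v) then (1 : ℝ) else 0) +
    (m * (((pr fun y : Co n D → Fin k => acc N w fr f dec y = true) +
      av fun y : Co n D → Fin k => pr fun y' : Co n D → Fin k => Bad4 N m a b y y') +
        H * (J / M)) + m * (4 * l / m + H * Real.log (2 * M + 1) / l)) := by
  have : Nonempty (Fin k) := ⟨⟨0, by omega⟩⟩
  obtain ⟨Φ, hΦ⟩ : ∃ Φ : Fin m → (Co n D → Fin k) → ℝ, ∀ t y, Φ t y =
      av fun z : Fin m → Str k D => av fun z' : Fin m → Str k D => avR fun u v : Str k D =>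
        if kk N w fr f dec m y a b (Function.update z t u) (Function.update z' t' v) = true
          then (1 : ℝ) else 0 := ⟨_, fun _ _ => rfl⟩
  have hj' : j = ⟨b * m + t', by omega⟩ := Fin.ext hj
  have h1 : ∀ t ∈ (Finset.univ : Finset (Fin m)),
      (av fun y : Co n D → Fin k => avR fun u v : Str k D =>
        if acc N w fr f dec (plant y (pa t) j u v) = true then (1 : ℝ) else 0) ≤
      (av fun y : Co n D → Fin k => av fun y' : Co n D → Fin k =>
        avR fun u v : Str k D => if Bad4 N m a b y (plant y' (pa t) j u v)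
          then (1 : ℝ) else 0) + av (Φ t) := by
    intro t _
    have hpt : pa t = ⟨a * m + t, by omega⟩ := Fin.ext (hpa t)
    rw [plant_av (acc N w fr f dec) (pa t) j (blk n D m false a ∪ blk n D m true b)
      (fun c => Finset.mem_union_left _ (by
        unfold blk
        rw [Finset.mem_filter]
        refine ⟨Finset.mem_univ _, rfl, ?_⟩
        show a * m ≤ ((pa t : Fin n) : ℕ) ∧ ((pa t : Fin n) : ℕ) < a * m + m
        rw [hpa t]
        have := t.2
        omega))
      (fun c => Finset.mem_union_right _ (by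
        unfold blk
        rw [Finset.mem_filter]
        refine ⟨Finset.mem_univ _, rfl, ?_⟩
        show b * m ≤ (j : ℕ) ∧ (j : ℕ) < b * m + m
        rw [hj]
        have := t'.2
        omega))]
    have e1 : ∀ y : Co n D → Fin k, (av fun y' : Co n D → Fin k => avR fun u v : Str k D =>
        if kk N w fr f dec m y a b (Function.update (get m y' false a ha) t u)
          (Function.update (get m y' true b hb) t' v) = true then (1 : ℝ) else 0) = Φ t y := by
      intro y
      rw [hΦ]
      exact av_get (X := Fin k) (D := D) a b ha hb (fun z z' => avR fun u v : Str k D =>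
        if kk N w fr f dec m y a b (Function.update z t u) (Function.update z' t' v) = true
          then (1 : ℝ) else 0)
    have e2 : av (Φ t) = av fun y : Co n D → Fin k => av fun y' : Co n D → Fin k =>
        avR fun u v : Str k D =>
        if kk N w fr f dec m y a b (Function.update (get m y' false a ha) t u)
          (Function.update (get m y' true b hb) t' v) = true then (1 : ℝ) else 0 :=
      av_congr fun y => (e1 y).symm
    rw [e2, ← av_add]
    refine av_mono fun y => ?_
    rw [← av_add]
    refine av_mono fun y' => ?_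
    rw [← avR_add]
    refine avR_mono hk fun u v _ => ?_
    have h2 := acc_le N w fr f dec hfr ha hb y (plant y' (pa t) j u v)
    have e3 : get m (plant y' (pa t) j u v) false a ha =
        Function.update (get m y' false a ha) t u := by
      rw [hpt]
      exact get_plant_left y' a ha t j u v
    have e4 : get m (plant y' (pa t) j u v) true b hb =
        Function.update (get m y' true b hb) t' v := by
      rw [hj']
      exact get_plant_right y' b hb t' (pa t) u v
    rw [e3, e4] at h2
    exact h2
  refine (Finset.sum_le_sum h1).trans ?_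
  rw [Finset.sum_add_distrib]
  refine add_le_add le_rfl ?_
  rw [← av_sum]
  have h3 : ∀ y : Co n D → Fin k, (∑ t : Fin m, Φ t y) ≤
      (m : ℝ) * ((av fun z : Fin m → Str k D => pr fun z' : Fin m → Str k D =>
        kk N w fr f dec m y a b z z' = true) + H * (J / M)) +
      m * (4 * l / m + H * Real.log (2 * M + 1) / l) := by
    intro y
    simp only [hΦ]
    exact gap hk hm hM (fun r z => wsum N w fr r (put y false a z))
      (fun r z => wsum N w fr r (put y true b z) - wsum N w fr r y) f hf dec hl hlm t'
  refine (av_mono h3).trans ?_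
  rw [av_add, av_mul_left, av_add, av_const, av_const]
  refine add_le_add (mul_le_mul_of_nonneg_left (add_le_add ?_ le_rfl) (Nat.cast_nonneg m)) le_rfl
  exact av_kk N w fr f dec hfr ha hb

end

private theorem sum4 {A B C E : Type} [Fintype A] [Fintype B] [Fintype C] [Fintype E]
    (F : A → B → C → E → ℝ) :
    ∑ a, ∑ b, ∑ c, ∑ d, F a b c d = ∑ c, ∑ d, ∑ a, ∑ b, F a b c d := by
  calc ∑ a, ∑ b, ∑ c, ∑ d, F a b c d = ∑ a, ∑ c, ∑ b, ∑ d, F a b c d :=
        Finset.sum_congr rfl fun a _ => Finset.sum_comm
    _ = ∑ c, ∑ a, ∑ b, ∑ d, F a b c d := Finset.sum_comm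
    _ = ∑ c, ∑ a, ∑ d, ∑ b, F a b c d :=
        Finset.sum_congr rfl fun c _ => Finset.sum_congr rfl fun a _ => Finset.sum_comm
    _ = ∑ c, ∑ d, ∑ a, ∑ b, F a b c d := Finset.sum_congr rfl fun c _ => Finset.sum_comm

open Classical in
theorem top {α : Type} (hk : 2 ≤ k) (N : Net ι (Co n D → Fin k) s T) {m n' : ℕ} (hm : 1 ≤ m)
    (hn1 : 1 ≤ n) (hn : n' * m ≤ n) (hM : 1 ≤ M) (w : Fin H → Fin s → ℝ)
    (fr : Fin H → Bool → (Co n D → Fin k) → ℝ)
    (hfr : ∀ r b (x x' : Co n D → Fin k), (∀ p, p.1.1 = b → x p = x' p) → fr r b x = fr r b x')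
    (f : Fin H → ℝ → α) (hf : ∀ r, IsStep J (f r)) (dec : (Fin H → α) → Bool)
    {l : ℝ} (hl : 0 < l) (hlm : 2 * l ≤ m) {E E' : ℝ}
    (hnull : (∑ a ∈ Finset.range n', ∑ b ∈ Finset.range n',
      av fun y : Co n D → Fin k => pr fun y' : Co n D → Fin k => Bad4 N m a b y y') ≤ E)
    (hplant : ∀ i j : ℕ → ℕ → Fin n, (∀ a < n', ∀ b < n', a * m ≤ i a b ∧ i a b < a * m + m) →
      (∀ a < n', ∀ b < n', b * m ≤ j a b ∧ j a b < b * m + m) →
      (∑ a ∈ Finset.range n', ∑ b ∈ Finset.range n',
        av fun y : Co n D → Fin k => av fun y' : Co n D → Fin k => avR fun u v : Str k D =>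
          if Bad4 N m a b y (plant y' (i a b) (j a b) u v) then (1 : ℝ) else 0) ≤ E')
    (pos : Fin n' → Fin m → Fin n) (hpos : ∀ a t, (pos a t : ℕ) = a * m + t) :
    (∑ a : Fin n', ∑ b : Fin n', ∑ t : Fin m, ∑ t' : Fin m,
      av fun y : Co n D → Fin k => avR fun u v : Str k D =>
        if dec (fun r => f r (wsum N w fr r (plant y (pos a t) (pos b t') u v))) = true
          then (1 : ℝ) else 0) ≤
      ((n' * m : ℕ) : ℝ) ^ 2 *
        (pr (fun y : Co n D → Fin k => dec (fun r => f r (wsum N w fr r y)) = true) +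
          H * (J / M) + (4 * l / m + H * Real.log (2 * M + 1) / l)) + m ^ 2 * (E + E') := by
  obtain ⟨P, hP⟩ : ∃ P : ℝ, P = pr (fun y : Co n D → Fin k =>
    dec (fun r => f r (wsum N w fr r y)) = true) := ⟨_, rfl⟩
  obtain ⟨R, hR⟩ : ∃ R : ℝ, R = 4 * l / m + H * Real.log (2 * M + 1) / l := ⟨_, rfl⟩
  obtain ⟨HJ, hHJ⟩ : ∃ HJ : ℝ, HJ = (H : ℝ) * (J / M) := ⟨_, rfl⟩
  obtain ⟨N1, hN1⟩ : ∃ N1 : ℕ → ℕ → ℝ, ∀ a b, N1 a b =
      av fun y : Co n D → Fin k => pr fun y' : Co n D → Fin k => Bad4 N m a b y y' :=
    ⟨_, fun _ _ => rfl⟩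
  obtain ⟨B, hB⟩ : ∃ B : Fin n' → Fin n' → Fin m → Fin m → ℝ, ∀ a b t t', B a b t t' =
      av fun y : Co n D → Fin k => av fun y' : Co n D → Fin k => avR fun u v : Str k D =>
        if Bad4 N m a b y (plant y' (pos a t) (pos b t') u v) then (1 : ℝ) else 0 :=
    ⟨_, fun _ _ _ _ => rfl⟩
  have hblk : ∀ a : Fin n', (a : ℕ) * m + m ≤ n := by
    intro a
    have h1 : ((a : ℕ) + 1) * m ≤ n' * m := Nat.mul_le_mul_right m a.2
    rw [Nat.succ_mul] at h1
    omega
  have hrow : ∀ (a b : Fin n') (t' : Fin m), (∑ t : Fin m,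
      av fun y : Co n D → Fin k => avR fun u v : Str k D =>
        if dec (fun r => f r (wsum N w fr r (plant y (pos a t) (pos b t') u v))) = true
          then (1 : ℝ) else 0) ≤ (∑ t : Fin m, B a b t t') +
        (m * ((P + N1 a b) + HJ) + m * R) := by
    intro a b t'
    have h1 := row N w fr f dec hk hm hM hfr hf hl hlm (hblk a) (hblk b) t' (pos a)
      (hpos a) (pos b t') (hpos b t')
    simp only [hB, hN1, hP, hHJ, hR]
    exact h1
  have h1 : (∑ a : Fin n', ∑ b : Fin n', ∑ t : Fin m, ∑ t' : Fin m,
      av fun y : Co n D → Fin k => avR fun u v : Str k D =>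
        if dec (fun r => f r (wsum N w fr r (plant y (pos a t) (pos b t') u v))) = true
          then (1 : ℝ) else 0) ≤
      ∑ a : Fin n', ∑ b : Fin n', ((∑ t : Fin m, ∑ t' : Fin m, B a b t t') +
        m * (m * ((P + N1 a b) + HJ) + m * R)) := by
    refine Finset.sum_le_sum fun a _ => Finset.sum_le_sum fun b _ => ?_
    rw [Finset.sum_comm]
    refine (Finset.sum_le_sum fun t' _ => hrow a b t').trans ?_
    rw [Finset.sum_add_distrib, Finset.sum_const, Finset.card_univ, Fintype.card_fin,
      nsmul_eq_mul]
    refine add_le_add (le_of_eq ?_) le_rfl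
    rw [Finset.sum_comm]
  refine h1.trans ?_
  have h2 : (∑ a : Fin n', ∑ b : Fin n', ∑ t : Fin m, ∑ t' : Fin m, B a b t t') ≤
      (m : ℝ) ^ 2 * E' := by
    rw [sum4]
    have h3 : ∀ t ∈ (Finset.univ : Finset (Fin m)), (∑ t' : Fin m, ∑ a : Fin n', ∑ b : Fin n',
        B a b t t') ≤ m * E' := by
      intro t _
      have h4 : ∀ t' ∈ (Finset.univ : Finset (Fin m)), (∑ a : Fin n', ∑ b : Fin n',
          B a b t t') ≤ E' := by
        intro t' _
        have h5 := hplant (fun a _ => if h : a < n' then pos ⟨a, h⟩ t else ⟨0, hn1⟩)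
          (fun _ b => if h : b < n' then pos ⟨b, h⟩ t' else ⟨0, hn1⟩)
          (fun a ha b _ => by
            simp only [dif_pos ha]
            rw [hpos]
            have := t.2
            simp only
            omega)
          (fun a _ b hb => by
            simp only [dif_pos hb]
            rw [hpos]
            have := t'.2
            simp only
            omega)
        refine le_trans (le_of_eq ?_) h5
        rw [Finset.sum_range]
        refine Finset.sum_congr rfl fun a _ => ?_
        rw [Finset.sum_range]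
        refine Finset.sum_congr rfl fun b _ => ?_
        rw [hB]
        simp only [dif_pos a.2, dif_pos b.2, Fin.eta]
      refine (Finset.sum_le_sum h4).trans (le_of_eq ?_)
      rw [Finset.sum_const, Finset.card_univ, Fintype.card_fin, nsmul_eq_mul]
    refine (Finset.sum_le_sum h3).trans (le_of_eq ?_)
    rw [Finset.sum_const, Finset.card_univ, Fintype.card_fin, nsmul_eq_mul]
    ring
  have h6 : (∑ a : Fin n', ∑ b : Fin n', N1 a b) ≤ E := by
    refine le_trans (le_of_eq ?_) hnull
    rw [Finset.sum_range]
    refine Finset.sum_congr rfl fun a _ => ?_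
    rw [Finset.sum_range]
    exact Finset.sum_congr rfl fun b _ => hN1 a b
  have h7 : (∑ a : Fin n', ∑ b : Fin n', ((∑ t : Fin m, ∑ t' : Fin m, B a b t t') +
        m * (m * ((P + N1 a b) + HJ) + m * R))) =
      (∑ a : Fin n', ∑ b : Fin n', ∑ t : Fin m, ∑ t' : Fin m, B a b t t') +
      (((n' * m : ℕ) : ℝ) ^ 2 * (P + HJ + R) + (m : ℝ) ^ 2 *
        ∑ a : Fin n', ∑ b : Fin n', N1 a b) := by
    have h8 : ∀ a b : Fin n', (m : ℝ) * (m * ((P + N1 a b) + HJ) + m * R) =
        (m : ℝ) ^ 2 * (P + HJ + R) + (m : ℝ) ^ 2 * N1 a b := by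
      intro a b
      ring
    simp only [h8, Finset.sum_add_distrib, ← Finset.mul_sum, Finset.sum_const, Finset.card_univ,
      Fintype.card_fin, nsmul_eq_mul]
    push_cast
    ring
  rw [h7, ← hP, ← hHJ, ← hR]
  have h9 : (m : ℝ) ^ 2 * (∑ a : Fin n', ∑ b : Fin n', N1 a b) ≤ (m : ℝ) ^ 2 * E :=
    mul_le_mul_of_nonneg_left h6 (by positivity)
  linarith

end Pool.Agent.H58.CD
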