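import Pool.Agent.H58.OVPR.Yao

/-! [H58 CD YAO] Averaging over randomized circuits with an expected cost.

PROOF. As in `OVPR.yao`: by `pmf_pr`, `Σ' A, μ A * ofReal (pr (E₁ A)) ≤ ofReal (av b₁)` and the same
for `E₂`. For `A ∈ μ.support`, `ofReal x ≤ ofReal (pr (E₁ A)) + ofReal (pr (E₂ A)) + ofReal c * cost A`
(`ENNReal.ofReal_le_ofReal`, `ENNReal.ofReal_add_le`, `ENNReal.ofReal_mul`,
`ENNReal.ofReal_natCast`); for the others `μ A = 0`. Multiply by `μ A` and sum: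
`ofReal x = Σ' μ A * ofReal x` (`PMF.tsum_coe`), `ENNReal.tsum_add`, `ENNReal.tsum_mul_left`. -/

set_option autoImplicit false
set_option maxHeartbeats 4000000

namespace Pool.Agent.H58.CD

open Pool.Agent.H58.OVAC Pool.Agent.H58.OVPR

theorem yao_cost {Γ T₁ T₂ : Type} [Fintype T₁] [Nonempty T₁] [Fintype T₂] [Nonempty T₂]
    (μ : PMF Γ) (E₁ : Γ → T₁ → Prop) (E₂ : Γ → T₂ → Prop) (b₁ : T₁ → ℝ) (b₂ : T₂ → ℝ)
    (hb₁ : ∀ τ, 0 ≤ b₁ τ) (hb₂ : ∀ τ, 0 ≤ b₂ τ)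
    (h₁ : ∀ τ, μ.toOuterMeasure {A | E₁ A τ} ≤ ENNReal.ofReal (b₁ τ))
    (h₂ : ∀ τ, μ.toOuterMeasure {A | E₂ A τ} ≤ ENNReal.ofReal (b₂ τ))
    (cost : Γ → ℕ) {c x : ℝ} (hc : 0 ≤ c)
    (h : ∀ A ∈ μ.support, x ≤ pr (E₁ A) + pr (E₂ A) + c * cost A) :
    ENNReal.ofReal x ≤ ENNReal.ofReal (av b₁ + av b₂) +
      ENNReal.ofReal c * ∑' A, μ A * (cost A : ENNReal) := by
  have h3 := pmf_pr μ E₁ b₁ hb₁ h₁
  have h4 := pmf_pr μ E₂ b₂ hb₂ h₂
  have h5 : ENNReal.ofReal x = ∑' A, μ A * ENNReal.ofReal x := by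
    rw [ENNReal.tsum_mul_right, PMF.tsum_coe, one_mul]
  rw [h5, ENNReal.ofReal_add (av_nonneg hb₁) (av_nonneg hb₂)]
  have h6 : ∀ A, μ A * ENNReal.ofReal x ≤ μ A * ENNReal.ofReal (pr (E₁ A)) +
      μ A * ENNReal.ofReal (pr (E₂ A)) + ENNReal.ofReal c * (μ A * (cost A : ENNReal)) := by
    intro A
    by_cases hA : A ∈ μ.support
    · have h7 := ENNReal.ofReal_le_ofReal (h A hA)
      rw [ENNReal.ofReal_add (add_nonneg (pr_nonneg _) (pr_nonneg _)) (mul_nonneg hc (Nat.cast_nonneg _)),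
        ENNReal.ofReal_add (pr_nonneg _) (pr_nonneg _), ENNReal.ofReal_mul hc,
        ENNReal.ofReal_natCast] at h7
      calc μ A * ENNReal.ofReal x ≤ μ A * (ENNReal.ofReal (pr (E₁ A)) + ENNReal.ofReal (pr (E₂ A)) +
            ENNReal.ofReal c * (cost A : ENNReal)) := by gcongr
        _ = _ := by ring
    · have h7 : μ A = 0 := by
        by_contra h8
        exact hA ((PMF.mem_support_iff μ A).2 h8)
      rw [h7]
      simp
  refine (ENNReal.tsum_le_tsum h6).trans ?_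
  rw [ENNReal.tsum_add, ENNReal.tsum_add, ENNReal.tsum_mul_left]
  gcongr

end Pool.Agent.H58.CD
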